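import Mathlib
import Pool.Agent.Lib.MP_8f66f0_al_ZA.Ord

/-! Project ZERO, part I8: the ring of matrices over `ℤ`; the passage from automorphisms of orders to
`GL_n(ℤ)`. -/

set_option autoImplicit false

namespace Pool.Agent.ZI

open Pool.Agent.ZA Pool.Agent.TreeC
open scoped Pointwise TensorProduct

section Mat

variable (n : ℕ)

/-- The matrices over `ℤ`. -/
abbrev MZ : Type := Matrix (Fin n) (Fin n) ℤ

/-- The matrices over `ℝ`. -/
abbrev MR : Type := Matrix (Fin n) (Fin n) ℝ

theorem repr_std {R : Type} [CommRing R] (M : Matrix (Fin n) (Fin n) R) (i j : Fin n) :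
    (Matrix.stdBasis R (Fin n) (Fin n)).repr M (i, j) = M i j := by
  have h : M = ∑ k, ∑ l, M k l • Matrix.stdBasis R (Fin n) (Fin n) (k, l) := by
    simp_rw [Matrix.stdBasis_eq_single, Matrix.smul_single, smul_eq_mul, mul_one]
    exact Matrix.matrix_eq_sum_single M
  conv_lhs => rw [h]
  simp only [map_sum, map_smul, Module.Basis.repr_self, Finsupp.coe_finsetSum, Finset.sum_apply,
    Finsupp.smul_apply, Finsupp.single_apply, Prod.mk.injEq, smul_eq_mul, mul_ite, mul_one, mul_zero]
  rw [Finset.sum_eq_single i, Finset.sum_eq_single j]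
  · simp
  · intro b _ hb
    simp [hb]
  · simp
  · intro b _ hb
    simp [hb]
  · simp

theorem trace_mul_mat {R : Type} [CommRing R] (a : Matrix (Fin n) (Fin n) R) :
    LinearMap.trace R (Matrix (Fin n) (Fin n) R) (LinearMap.mul R (Matrix (Fin n) (Fin n) R) a) =
      n * a.trace := by
  classical
  rw [LinearMap.trace_eq_matrix_trace R (Matrix.stdBasis R (Fin n) (Fin n)), Matrix.trace,
    Fintype.sum_prod_type]
  have h : ∀ i j : Fin n, (LinearMap.toMatrix (Matrix.stdBasis R (Fin n) (Fin n))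
      (Matrix.stdBasis R (Fin n) (Fin n))
      (LinearMap.mul R (Matrix (Fin n) (Fin n) R) a)).diag (i, j) = a i i := by
    intro i j
    rw [Matrix.diag_apply, LinearMap.toMatrix_apply, repr_std, Matrix.stdBasis_eq_single,
      LinearMap.mul_apply', Matrix.mul_single_apply_same, mul_one]
  simp_rw [h]
  rw [Matrix.trace, Finset.mul_sum]
  simp

/-- `ℝ ⊗ M_n(ℤ) = M_n(ℝ)`. -/
noncomputable def eM : VO (MZ n) ≃ₐ[ℝ] MR n :=
  AlgEquiv.ofRingEquiv (f := (matrixEquivTensor (Fin n) ℤ ℝ).symm.toRingEquiv) (by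
    intro r
    change (matrixEquivTensor (Fin n) ℤ ℝ).symm (r ⊗ₜ[ℤ] (1 : MZ n)) = _
    rw [matrixEquivTensor_apply_symm]
    ext i j
    rw [Matrix.smul_apply, Matrix.map_apply, Matrix.algebraMap_matrix_apply, Matrix.one_apply]
    split_ifs <;> simp)

theorem tr_eM (x : VO (MZ n)) : tr (MZ n) x = n * (eM n x).trace := by
  rw [← trace_mul_mat]
  have h : LinearMap.mul ℝ (VO (MZ n)) x =
      (eM n).toLinearEquiv.symm.conj (LinearMap.mul ℝ (MR n) (eM n x)) := by
    apply LinearMap.ext
    intro y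
    rw [LinearEquiv.conj_apply_apply]
    change x * y = (eM n).symm (eM n x * eM n y)
    rw [← map_mul, AlgEquiv.symm_apply_apply]
  change LinearMap.trace ℝ (VO (MZ n)) (LinearMap.mul ℝ (VO (MZ n)) x) = _
  rw [h, LinearMap.trace_conj']

/-- The transposition. -/
noncomputable def piM : PI (MZ n) where
  s := (eM n).symm.toLinearMap ∘ₗ (Matrix.transposeLinearEquiv (Fin n) (Fin n) ℝ ℝ).toLinearMap ∘ₗ
    (eM n).toLinearMap
  mul x y := by
    change (eM n).symm (eM n (x * y)).transpose =
      (eM n).symm (eM n y).transpose * (eM n).symm (eM n x).transpose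
    rw [map_mul, Matrix.transpose_mul, map_mul]
  inv x := by
    change (eM n).symm (eM n ((eM n).symm (eM n x).transpose)).transpose = x
    rw [AlgEquiv.apply_symm_apply, Matrix.transpose_transpose, AlgEquiv.symm_apply_apply]
  sym x y := by
    change tr (MZ n) ((eM n).symm (eM n x).transpose * y) =
      tr (MZ n) ((eM n).symm (eM n y).transpose * x)
    rw [tr_eM, tr_eM, map_mul, map_mul, AlgEquiv.apply_symm_apply, AlgEquiv.apply_symm_apply,
      ← Matrix.trace_transpose, Matrix.transpose_mul, Matrix.transpose_transpose]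
  pos x hx := by
    change 0 < tr (MZ n) ((eM n).symm (eM n x).transpose * x)
    rw [tr_eM, map_mul, AlgEquiv.apply_symm_apply]
    have h0 : eM n x ≠ 0 := fun h => hx ((eM n).injective (by rw [h, map_zero]))
    obtain ⟨i, j, hij⟩ : ∃ i j, eM n x i j ≠ 0 := by
      by_contra hc
      push Not at hc
      exact h0 (by ext i j; exact hc i j)
    have hn : (0 : ℝ) < n := by exact_mod_cast i.pos
    refine mul_pos hn ?_
    rw [Matrix.trace]
    simp only [Matrix.diag_apply, Matrix.mul_apply, Matrix.transpose_apply]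
    refine Finset.sum_pos' (fun k _ => Finset.sum_nonneg fun l _ => mul_self_nonneg _)
      ⟨j, Finset.mem_univ j, ?_⟩
    exact Finset.sum_pos' (fun l _ => mul_self_nonneg _)
      ⟨i, Finset.mem_univ i, mul_self_pos.2 hij⟩

/-- Conjugation. -/
def cj (O : Type) [Ring O] : Oˣ →* RingAut O where
  toFun u :=
    { toFun := fun x => u * x * (u⁻¹ : Oˣ)
      invFun := fun x => (u⁻¹ : Oˣ) * x * u
      left_inv := fun x => by simp [mul_assoc]
      right_inv := fun x => by simp [mul_assoc]
      map_mul' := fun x y => by simp [mul_assoc]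
      map_add' := fun x y => by simp [mul_add, add_mul] }
  map_one' := by
    ext x
    simp
  map_mul' u v := by
    ext x
    change ((u * v : Oˣ) : O) * x * (((u * v)⁻¹ : Oˣ) : O) = u * (v * x * (v⁻¹ : Oˣ)) * (u⁻¹ : Oˣ)
    rw [mul_inv_rev, Units.val_mul, Units.val_mul]
    simp only [mul_assoc]

theorem cj_apply {O : Type} [Ring O] (u : Oˣ) (x : O) : cj O u x = u * x * (u⁻¹ : Oˣ) := rfl

/-- The kernel of the conjugation. -/
theorem finite_ker : Finite (cj (MZ n)).ker := by
  classical
  rcases Nat.eq_zero_or_pos n with rfl | hn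
  · have : Subsingleton (MZ 0) := inferInstance
    have : Subsingleton (MZ 0)ˣ := inferInstance
    infer_instance
  · let i0 : Fin n := ⟨0, hn⟩
    -- elements of the kernel are scalar
    have h1 : ∀ u : (MZ n)ˣ, u ∈ (cj (MZ n)).ker → ∃ a : ℤ, (u : MZ n) = Matrix.scalar (Fin n) a := by
      intro u hu
      rw [MonoidHom.mem_ker] at hu
      have h2 : (u : MZ n) ∈ Set.range (Matrix.scalar (Fin n)) := by
        rw [Matrix.mem_range_scalar_iff_commute_single']
        intro i j
        have h3 : (u : MZ n) * Matrix.single i j 1 * ((u⁻¹ : (MZ n)ˣ) : MZ n) =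
            Matrix.single i j 1 :=
          congrArg (fun f : RingAut (MZ n) => f (Matrix.single i j 1)) hu
        have h4 : (u : MZ n) * Matrix.single i j 1 = Matrix.single i j 1 * (u : MZ n) := by
          calc (u : MZ n) * Matrix.single i j 1 =
              (u : MZ n) * Matrix.single i j 1 * ((u⁻¹ : (MZ n)ˣ) : MZ n) * (u : MZ n) := by
                rw [mul_assoc _ _ (u : MZ n), Units.inv_mul, mul_one]
            _ = _ := by rw [h3]
        exact h4.symm
      obtain ⟨a, ha⟩ := h2
      exact ⟨a, ha.symm⟩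
    have h2 : ∀ u : (MZ n)ˣ, u ∈ (cj (MZ n)).ker → (u : MZ n) i0 i0 = 1 ∨ (u : MZ n) i0 i0 = -1 := by
      intro u hu
      obtain ⟨a, ha⟩ := h1 u hu
      obtain ⟨b, hb⟩ := h1 u⁻¹ (inv_mem hu)
      have h3 : (u : MZ n) * ((u⁻¹ : (MZ n)ˣ) : MZ n) = 1 := Units.mul_inv u
      rw [ha, hb, ← map_mul] at h3
      have h4 := congrFun (congrFun h3 i0) i0
      rw [Matrix.scalar_apply, Matrix.diagonal_apply_eq, Matrix.one_apply_eq] at h4
      have h5 : (u : MZ n) i0 i0 = a := by
        rw [ha, Matrix.scalar_apply, Matrix.diagonal_apply_eq]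
      rw [h5]
      exact Int.isUnit_iff.1 (IsUnit.of_mul_eq_one b h4)
    refine Finite.of_injective (β := ({1, -1} : Set ℤ)) (fun u => ⟨(u : (MZ n)ˣ).1 i0 i0, by
      rcases h2 u u.2 with h | h
      · rw [h]; exact Or.inl rfl
      · rw [h]; exact Or.inr rfl⟩) ?_
    intro u v huv
    have h3 : (u : (MZ n)ˣ).1 i0 i0 = (v : (MZ n)ˣ).1 i0 i0 := congrArg Subtype.val huv
    obtain ⟨a, ha⟩ := h1 u u.2
    obtain ⟨b, hb⟩ := h1 v v.2
    apply Subtype.ext
    apply Units.ext
    rw [ha, hb] at h3 ⊢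
    rw [Matrix.scalar_apply, Matrix.scalar_apply, Matrix.diagonal_apply_eq,
      Matrix.diagonal_apply_eq] at h3
    rw [h3]

end Mat

/-- A group with a finite kernel and a finite image is finite. -/
theorem finite_of_map {G H : Type} [Group G] [Group H] (f : G →* H) (K : Subgroup G)
    (h : Finite (K.map f)) (hk : Finite f.ker) : Finite K := by
  classical
  have h1 : Set.Finite (f '' (K : Set G)) := Set.toFinite (K.map f : Set H)
  have h2 : Set.Finite (K : Set G) := by
    refine Set.Finite.of_finite_fibers f h1 fun y hy => ?_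
    obtain ⟨g, hg, rfl⟩ := hy
    refine (Set.Finite.image (fun k : G => g * k) (Set.toFinite (f.ker : Set G))).subset ?_
    rintro x ⟨_, hx⟩
    refine ⟨g⁻¹ * x, ?_, by simp⟩
    change g⁻¹ * x ∈ f.ker
    rw [MonoidHom.mem_ker, map_mul, map_inv, hx, inv_mul_cancel]
  exact h2.to_subtype

/-- I8. -/
theorem zero_of_O (h : S_O) : S_ZERO := by
  intro n H _ θ hU
  refine h (MZ n) ⟨piM n⟩ H ((cj (MZ n)).comp θ) fun U hf => hU U ?_
  rw [← Subgroup.map_map] at hf
  exact finite_of_map (cj (MZ n)) (U.map θ) hf (finite_ker n)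

end Pool.Agent.ZI
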