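import Pool.Agent.Lib.MP_8f66f0_al_ZI.Defs
import Pool.Agent.Lib.MP_4ca46c_ag.Split

/-! The trace form of a finite dimensional algebra. -/

set_option autoImplicit false

namespace Pool.Agent.ZI

section

variable {K B : Type} [Field K] [Ring B] [Algebra K B]

theorem tr_apply (x : B) : tr K x = LinearMap.trace K B (Algebra.lmul K B x) := rfl

theorem tr_comm (x y : B) : tr K (x * y) = tr K (y * x) := by
  rw [tr_apply, tr_apply, map_mul (Algebra.lmul K B), map_mul (Algebra.lmul K B),
    LinearMap.trace_mul_comm]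

theorem tr_nil {x : B} (h : IsNilpotent x) : tr K x = 0 :=
  (LinearMap.isNilpotent_trace_of_isNilpotent (h.map (Algebra.lmul K B))).eq_zero

theorem tr_aut (g : B ≃ₐ[K] B) (x : B) : tr K (g x) = tr K x := by
  rw [tr_apply, tr_apply]
  have h : Algebra.lmul K B (g x) = g.toLinearEquiv.conj (Algebra.lmul K B x) := by
    ext y
    rw [LinearEquiv.conj_apply_apply]
    change g x * y = g (x * g.symm y)
    rw [map_mul, AlgEquiv.apply_symm_apply]
  rw [h, LinearMap.trace_conj']

theorem isNilpotent_of_lmul {x : B} (h : IsNilpotent (Algebra.lmul K B x)) : IsNilpotent x := by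
  obtain ⟨n, hn⟩ := h
  refine ⟨n, ?_⟩
  rw [← map_pow] at hn
  have := congrArg (fun f : Module.End K B => f 1) hn
  simpa using this

/-- Lemma T. -/
theorem nd_of_tau [CharZero K] [FiniteDimensional K B] (τ : B →ₗ[K] K)
    (h1 : ∀ x, IsNilpotent x → τ x = 0) (h2 : ∀ x : B, (∀ y, τ (x * y) = 0) → x = 0) :
    ND K B := by
  intro x hx
  refine h2 x fun y => h1 _ ?_
  refine isNilpotent_of_lmul (K := K) ?_
  refine Pool.Agent.Lib.MP_4ca46c_ag.isNilpotent_of_trace_pow _ fun m hm => ?_
  rw [← map_pow, ← tr_apply]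
  obtain ⟨k, rfl⟩ : ∃ k, m = k + 1 := ⟨m - 1, by omega⟩
  rw [pow_succ', mul_assoc]
  exact hx _

variable (K B)

/-- The trace form. -/
noncomputable def tf : LinearMap.BilinForm K B := (LinearMap.mul K B).compr₂ (tr K)

variable {K B}

theorem tf_apply (x y : B) : tf K B x y = tr K (x * y) := rfl

theorem tf_symm : (tf K B).IsSymm := ⟨fun x y => tr_comm x y⟩

theorem tf_nd (h : ND K B) : (tf K B).Nondegenerate :=
  ⟨fun x hx => h x hx, fun x hx => h x fun y => (tr_comm x y).trans (hx y)⟩

/-- The orthogonal complement. -/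
noncomputable def perp (V : Submodule K B) : Submodule K B := (tf K B).orthogonal V

theorem mem_perp {V : Submodule K B} {x : B} : x ∈ perp V ↔ ∀ v ∈ V, tr K (x * v) = 0 := by
  rw [perp, LinearMap.BilinForm.mem_orthogonal_iff]
  exact forall₂_congr fun v _ => by
    rw [tf_apply, tr_comm]

theorem perp_perp [FiniteDimensional K B] (h : ND K B) (V : Submodule K B) :
    perp (perp V) = V :=
  LinearMap.BilinForm.orthogonal_orthogonal (tf_nd h) tf_symm.isRefl V

theorem perp_inj [FiniteDimensional K B] (h : ND K B) {V W : Submodule K B}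
    (hVW : perp V = perp W) : V = W := by rw [← perp_perp h V, hVW, perp_perp h W]

theorem perp_sup (V W : Submodule K B) : perp (V ⊔ W) = perp V ⊓ perp W := by
  ext x
  rw [Submodule.mem_inf, mem_perp, mem_perp, mem_perp]
  constructor
  · intro h
    exact ⟨fun v hv => h v (Submodule.mem_sup_left hv),
      fun v hv => h v (Submodule.mem_sup_right hv)⟩
  · rintro ⟨h1, h2⟩ v hv
    obtain ⟨a, ha, b, hb, rfl⟩ := Submodule.mem_sup.1 hv
    rw [mul_add, map_add, h1 a ha, h2 b hb, add_zero]

theorem perp_inf [FiniteDimensional K B] (h : ND K B) (V W : Submodule K B) :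
    perp (V ⊓ W) = perp V ⊔ perp W := by
  rw [← perp_perp h (perp V ⊔ perp W), perp_sup, perp_perp h, perp_perp h]

theorem finrank_perp [FiniteDimensional K B] (h : ND K B) (V : Submodule K B) :
    Module.finrank K (perp V) + Module.finrank K V = Module.finrank K B := by
  have h1 := LinearMap.BilinForm.finrank_orthogonal (tf_nd h) V
  have h2 := Submodule.finrank_le V
  rw [perp]
  omega

/-- If `δ` acts trivially on `V` it acts trivially on `B / perp V`. -/
theorem aut_sub_mem_perp (g : B ≃ₐ[K] B) {V : Submodule K B} (h : ∀ v ∈ V, g v = v) (b : B) :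
    g b - b ∈ perp V := by
  rw [mem_perp]
  intro v hv
  have h1 : tr K (g b * v) = tr K (b * v) := by
    conv_lhs => rw [← h v hv, ← map_mul, tr_aut]
  rw [sub_mul, map_sub, h1, sub_self]

end

end Pool.Agent.ZI
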