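import Pool.Agent.Lib.MP_8f66f0_al_ZI.SpecP
import Pool.Agent.Lib.MP_8f66f0_al_ZI.Tr

/-! Project ZERO, part I, module PosA: the linear form may be replaced by the regular trace. -/

set_option autoImplicit false

namespace Pool.Agent.ZI

/-- The bilinear form `τ (s x * y)`. -/
private noncomputable def bf {C : Type} [Ring C] [Algebra ℝ C] (s : C →ₗ[ℝ] C) (τ : C →ₗ[ℝ] ℝ) :
    LinearMap.BilinForm ℝ C := ((LinearMap.mul ℝ C).comp s).compr₂ τ

private theorem bf_apply {C : Type} [Ring C] [Algebra ℝ C] (s : C →ₗ[ℝ] C) (τ : C →ₗ[ℝ] ℝ)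
    (x y : C) : bf s τ x y = τ (s x * y) := rfl

/-- The trace in an orthogonal basis. -/
private theorem trace_orth {V : Type} [AddCommGroup V] [Module ℝ V] {n : ℕ}
    (b : Module.Basis (Fin n) ℝ V) (B : LinearMap.BilinForm ℝ V)
    (ho : ∀ i j, i ≠ j → B (b i) (b j) = 0) (hp : ∀ i, B (b i) (b i) ≠ 0) (f : V →ₗ[ℝ] V) :
    LinearMap.trace ℝ V f = ∑ i, B (b i) (f (b i)) / B (b i) (b i) := by
  rw [LinearMap.trace_eq_matrix_trace ℝ b, Matrix.trace]
  refine Finset.sum_congr rfl fun i _ => ?_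
  rw [Matrix.diag_apply, LinearMap.toMatrix_apply, eq_div_iff (hp i)]
  conv_rhs => rw [← b.sum_repr (f (b i))]
  rw [map_sum, Finset.sum_eq_single i]
  · rw [map_smul, smul_eq_mul]
  · intro j _ hj
    rw [map_smul, ho i j hj.symm, smul_zero]
  · intro hi
    exact absurd (Finset.mem_univ i) hi

theorem pos0 : S_P0 := by
  rintro C _ _ _ ⟨s, τ, h1, h2, h3, h4⟩
  have hsym : (bf s τ).IsSymm := ⟨fun x y => h3 x y⟩
  obtain ⟨b, hb⟩ := LinearMap.BilinForm.exists_orthogonal_basis (LinearMap.BilinForm.isSymm_iff.1 hsym)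
  have ho : ∀ i j, i ≠ j → bf s τ (b i) (b j) = 0 := fun i j hij => hb hij
  have hp : ∀ i, 0 < bf s τ (b i) (b i) := fun i => h4 _ (b.ne_zero i)
  have adj : ∀ x y v w : C, bf s τ v (s x * y * w) = bf s τ (x * v) (y * w) := by
    intro x y v w
    rw [bf_apply, bf_apply, h1]
    congr 1
    simp only [mul_assoc]
  have key : ∀ x y : C, tr ℝ (s x * y) =
      ∑ i, bf s τ (x * b i) (y * b i) / bf s τ (b i) (b i) := by
    intro x y
    rw [tr_apply, trace_orth b (bf s τ) ho (fun i => (hp i).ne')]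
    refine Finset.sum_congr rfl fun i _ => ?_
    rw [← adj]
    rfl
  refine ⟨s, h1, h2, fun x y => ?_, fun x hx => ?_⟩
  · rw [key, key]
    refine Finset.sum_congr rfl fun i _ => ?_
    rw [hsym.eq]
  · rw [key]
    have hnn : ∀ z : C, 0 ≤ bf s τ z z := by
      intro z
      by_cases hz : z = 0
      · rw [hz, map_zero]
      · exact (h4 z hz).le
    have hex : ∃ i, x * b i ≠ 0 := by
      by_contra hcon
      push Not at hcon
      have h0 : (LinearMap.mulLeft ℝ x : C →ₗ[ℝ] C) = 0 := b.ext fun i => hcon i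
      have := congrArg (fun f : C →ₗ[ℝ] C => f 1) h0
      simp only [LinearMap.mulLeft_apply, mul_one, LinearMap.zero_apply] at this
      exact hx this
    obtain ⟨i, hi⟩ := hex
    exact Finset.sum_pos' (fun j _ => div_nonneg (hnn _) (hp j).le)
      ⟨i, Finset.mem_univ i, div_pos (h4 _ hi) (hp i)⟩

end Pool.Agent.ZI
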