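import Pool.Agent.Lib.MP_8f66f0_al_ZI.SpecP
import Pool.Agent.Lib.MP_8f66f0_al_ZI.Tr

/-! Project ZERO, part I: a complex structure on a real vector space has trace zero. -/

set_option autoImplicit false

namespace Pool.Agent.ZI

open Matrix

private theorem trace_zero_of_sq {n : ℕ} (M : Matrix (Fin n) (Fin n) ℝ) (h : M * M = -1) :
    M.trace = 0 := by
  have hG : (1 + Mᴴ * M).PosDef :=
    Matrix.PosDef.one.add_posSemidef (Matrix.posSemidef_conjTranspose_mul_self M)
  have hu : IsUnit (1 + Mᴴ * M).det := (Matrix.isUnit_iff_isUnit_det _).1 hG.isUnit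
  have h' : Mᴴ * Mᴴ = -1 := by
    rw [← conjTranspose_mul, h, conjTranspose_neg, conjTranspose_one]
  have h1 : Mᴴ * (1 + Mᴴ * M) = -((1 + Mᴴ * M) * M) := by
    rw [mul_add, add_mul, ← mul_assoc Mᴴ Mᴴ M, h', mul_assoc Mᴴ M M, h]
    simp only [mul_one, one_mul, neg_mul, mul_neg, neg_add, neg_neg]
    abel
  have h2 : M = -((1 + Mᴴ * M)⁻¹ * (Mᴴ * (1 + Mᴴ * M))) := by
    rw [h1, mul_neg, neg_neg, ← mul_assoc, Matrix.nonsing_inv_mul _ hu, one_mul]
  have h3 : M.trace = - M.trace := by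
    conv_lhs => rw [h2]
    rw [trace_neg, trace_mul_comm, mul_assoc, Matrix.mul_nonsing_inv _ hu, mul_one,
      trace_conjTranspose, star_trivial]
  linarith

theorem pos1a : S_P1a := by
  intro V _ _ _ J hJ
  let b := Module.finBasis ℝ V
  rw [LinearMap.trace_eq_matrix_trace ℝ b J]
  apply trace_zero_of_sq
  rw [← LinearMap.toMatrix_mul]
  have h1 : J * J = -(1 : V →ₗ[ℝ] V) := by
    ext x
    exact hJ x
  rw [h1, map_neg, LinearMap.toMatrix_one]

end Pool.Agent.ZI
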