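import Pool.Agent.Lib.MP_8f66f0_al_ZI.SpecP
import Pool.Agent.Lib.MP_8f66f0_al_ZI.Tr
import Pool.Agent.Lib.MP_8f66f0_al_ZI.PosB

/-! Project ZERO, part I: a finite dimensional real division algebra has a positive involution. -/

set_option autoImplicit false

namespace Pool.Agent.ZI

section

variable {D : Type} [DivisionRing D] [Algebra ℝ D] [Module.Finite ℝ D]

private theorem tr_one : tr ℝ (1 : D) = (Module.finrank ℝ D : ℝ) := by
  rw [tr_apply, map_one]
  exact LinearMap.trace_one ℝ D

private theorem fr_pos : (0 : ℝ) < (Module.finrank ℝ D : ℝ) := by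
  exact_mod_cast (Module.finrank_pos (R := ℝ) (M := D))

private theorem zero_of_real {u : D} (ht : tr ℝ u = 0) {r : ℝ} (h : u = r • (1 : D)) : u = 0 := by
  have h1 : r * (Module.finrank ℝ D : ℝ) = 0 := by
    rw [h, map_smul, tr_one] at ht
    exact ht
  have h2 : r = 0 := by
    rcases mul_eq_zero.1 h1 with h | h
    · exact h
    · exact absurd h (fr_pos (D := D)).ne'
  rw [h, h2, zero_smul]

private theorem tr_zero_of_sq {j : D} (h : j * j = -1) : tr ℝ j = 0 := by
  have := pos1a D (Algebra.lmul ℝ D j) (fun x => by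
    change j * (j * x) = -x
    rw [← mul_assoc, h, neg_one_mul])
  rw [tr_apply]
  exact this

private theorem quad {u : D} (hu : u ≠ 0) (ht : tr ℝ u = 0) {b c : ℝ}
    (h : u * u + b • u + c • (1 : D) = 0) : ∃ k : ℝ, 0 < k ∧ u * u = (-k) • (1 : D) := by
  rcases le_or_gt (4 * c) (b ^ 2) with h4 | h4
  · exfalso
    set s := Real.sqrt (b ^ 2 - 4 * c) with hs
    have hss : s * s = b ^ 2 - 4 * c := Real.mul_self_sqrt (by linarith)
    have h0 : (u + ((b - s) / 2) • (1 : D)) * (u + ((b + s) / 2) • (1 : D)) = 0 := by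
      have h1 : (u + ((b - s) / 2) • (1 : D)) * (u + ((b + s) / 2) • (1 : D))
          = u * u + ((b - s) / 2 + (b + s) / 2) • u +
            (((b - s) / 2) * ((b + s) / 2)) • (1 : D) := by
        rw [add_smul, mul_comm ((b - s) / 2) ((b + s) / 2), mul_smul]
        simp only [add_mul, mul_add, smul_mul_assoc, mul_smul_comm, one_mul, mul_one, smul_add]
        abel
      rw [h1, show (b - s) / 2 + (b + s) / 2 = b by ring,
        show (b - s) / 2 * ((b + s) / 2) = c by nlinarith, h]
    rcases mul_eq_zero.1 h0 with h1 | h1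
    · exact hu (zero_of_real (r := -((b - s) / 2)) ht
        (by rw [neg_smul]; exact eq_neg_of_add_eq_zero_left h1))
    · exact hu (zero_of_real (r := -((b + s) / 2)) ht
        (by rw [neg_smul]; exact eq_neg_of_add_eq_zero_left h1))
  · have hk : 0 < c - b ^ 2 / 4 := by linarith
    set k := c - b ^ 2 / 4 with hkd
    have hq : Real.sqrt k ≠ 0 := (Real.sqrt_pos.2 hk).ne'
    have hqq : Real.sqrt k * Real.sqrt k = k := Real.mul_self_sqrt hk.le
    have h1 : (u + (b / 2) • (1 : D)) * (u + (b / 2) • (1 : D)) = (-k) • (1 : D) := by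
      have h2 : (u + (b / 2) • (1 : D)) * (u + (b / 2) • (1 : D))
          = (u * u + b • u + c • (1 : D)) + ((b / 2) * (b / 2) - c) • (1 : D) := by
        have h3 : b • u = (b / 2) • u + (b / 2) • u := by rw [← add_smul]; congr 1; ring
        rw [h3]
        rw [sub_smul, mul_smul]
        simp only [add_mul, mul_add, smul_mul_assoc, mul_smul_comm, one_mul, mul_one, smul_add]
        abel
      rw [h2, h, zero_add]
      congr 1
      rw [hkd]; ring
    have h2 : tr ℝ ((Real.sqrt k)⁻¹ • (u + (b / 2) • (1 : D))) = 0 := by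
      apply tr_zero_of_sq
      rw [smul_mul_smul_comm, h1, smul_smul]
      have : (Real.sqrt k)⁻¹ * (Real.sqrt k)⁻¹ * -k = -1 := by
        rw [← mul_inv, hqq, mul_neg, inv_mul_cancel₀ hk.ne']
      rw [this, neg_smul, one_smul]
    have h3 : b = 0 := by
      rw [map_smul, smul_eq_mul, map_add, ht, zero_add, map_smul, tr_one, smul_eq_mul] at h2
      rcases mul_eq_zero.1 h2 with h | h
      · exact absurd h (inv_ne_zero hq)
      · rcases mul_eq_zero.1 h with h | h
        · linarith
        · exact absurd h (fr_pos (D := D)).ne'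
    refine ⟨c, ?_, ?_⟩
    · rw [hkd, h3] at hk
      linarith
    · rw [h3, zero_smul, add_zero] at h
      rw [neg_smul]
      exact eq_neg_of_add_eq_zero_left h

private theorem sq_neg {u : D} (hu : u ≠ 0) (ht : tr ℝ u = 0) :
    ∃ k : ℝ, 0 < k ∧ u * u = (-k) • (1 : D) := by
  have hi : IsIntegral ℝ u := Algebra.IsIntegral.isIntegral u
  have hd : (minpoly ℝ u).natDegree ≤ 2 := by
    have := (minpoly.irreducible hi).degree_le_two
    exact Polynomial.natDegree_le_of_degree_le this
  have hm := minpoly.monic hi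
  have h0 : Polynomial.aeval u (minpoly ℝ u) = 0 := minpoly.aeval ℝ u
  rw [Polynomial.aeval_eq_sum_range' (Nat.lt_succ_of_le hd)] at h0
  simp only [Finset.sum_range_succ, Finset.sum_range_zero, zero_add, pow_zero, pow_one] at h0
  have hp : 0 < (minpoly ℝ u).natDegree := minpoly.natDegree_pos hi
  rcases (show (minpoly ℝ u).natDegree = 1 ∨ (minpoly ℝ u).natDegree = 2 by omega) with h1 | h1
  · exfalso
    have e1 : (minpoly ℝ u).coeff 1 = 1 := by rw [← h1]; exact hm.coeff_natDegree
    have e2 : (minpoly ℝ u).coeff 2 = 0 :=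
      Polynomial.coeff_eq_zero_of_natDegree_lt (by omega)
    rw [e1, e2, zero_smul, add_zero, one_smul] at h0
    exact hu (zero_of_real (r := -((minpoly ℝ u).coeff 0)) ht
      (by rw [neg_smul]; exact eq_neg_of_add_eq_zero_right h0))
  · have e2 : (minpoly ℝ u).coeff 2 = 1 := by rw [← h1]; exact hm.coeff_natDegree
    rw [e2, one_smul, pow_two] at h0
    refine quad hu ht (b := (minpoly ℝ u).coeff 1) (c := (minpoly ℝ u).coeff 0) ?_
    rw [← h0]; abel

private theorem sq_real {u : D} (ht : tr ℝ u = 0) : ∃ r : ℝ, u * u = r • (1 : D) := by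
  by_cases hu : u = 0
  · exact ⟨0, by rw [hu, mul_zero, zero_smul]⟩
  · obtain ⟨k, _, hk⟩ := sq_neg hu ht
    exact ⟨-k, hk⟩

variable (D) in
private noncomputable def tt : D →ₗ[ℝ] ℝ := (Module.finrank ℝ D : ℝ)⁻¹ • tr ℝ

omit [Module.Finite ℝ D] in
private theorem tt_apply (x : D) : tt D x = (Module.finrank ℝ D : ℝ)⁻¹ * tr ℝ x := rfl

private theorem tt_one : tt D 1 = 1 := by
  rw [tt_apply, tr_one, inv_mul_cancel₀ (fr_pos (D := D)).ne']

private theorem tt_smul_one (r : ℝ) : tt D (r • (1 : D)) = r := by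
  rw [map_smul, tt_one, smul_eq_mul, mul_one]

omit [Module.Finite ℝ D] in
private theorem tt_comm (x y : D) : tt D (x * y) = tt D (y * x) := by
  rw [tt_apply, tt_apply, tr_comm]

private theorem tr_of_tt {x : D} (h : tt D x = 0) : tr ℝ x = 0 := by
  rw [tt_apply] at h
  rcases mul_eq_zero.1 h with h | h
  · exact absurd h (inv_ne_zero (fr_pos (D := D)).ne')
  · exact h

private theorem anti {u v : D} (hu : tt D u = 0) (hv : tt D v = 0) :
    u * v + v * u = (2 * tt D (u * v)) • (1 : D) := by
  obtain ⟨r1, h1⟩ := sq_real (tr_of_tt hu)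
  obtain ⟨r2, h2⟩ := sq_real (tr_of_tt hv)
  obtain ⟨r3, h3⟩ := sq_real (u := u + v) (tr_of_tt (by rw [map_add, hu, hv, add_zero]))
  have h4 : u * v + v * u = (r3 - r1 - r2) • (1 : D) := by
    rw [sub_smul, sub_smul, ← h1, ← h2, ← h3, add_mul, mul_add, mul_add]
    abel
  have h5 : tt D (u * v) + tt D (v * u) = r3 - r1 - r2 := by
    rw [← map_add, h4, tt_smul_one]
  rw [h4, ← h5, tt_comm v u]
  congr 1
  ring

variable (D) in
private noncomputable def sg : D →ₗ[ℝ] D :=
  (2 : ℝ) • (tt D).smulRight (1 : D) - LinearMap.id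

omit [Module.Finite ℝ D] in
private theorem sg_apply (x : D) : sg D x = (2 * tt D x) • (1 : D) - x := by
  simp only [sg, LinearMap.sub_apply, LinearMap.smul_apply, LinearMap.smulRight_apply,
    LinearMap.id_apply, smul_smul]

private theorem tt_sg (x : D) : tt D (sg D x) = tt D x := by
  rw [sg_apply, map_sub, tt_smul_one]
  ring

private theorem sg_sg (x : D) : sg D (sg D x) = x := by
  rw [sg_apply (sg D x), tt_sg, sg_apply]
  abel

private theorem dec (x : D) : ∃ u : D, tt D u = 0 ∧ x = tt D x • (1 : D) + u :=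
  ⟨x - tt D x • (1 : D), by rw [map_sub, tt_smul_one, sub_self], by abel⟩

private theorem sg_mul (x y : D) : sg D (x * y) = sg D y * sg D x := by
  obtain ⟨u, hu, hx⟩ := dec x
  obtain ⟨v, hv, hy⟩ := dec y
  generalize tt D x = a at hx
  generalize tt D y = b at hy
  subst hx hy
  have h1 := anti hu hv
  have e1 : sg D (a • (1 : D) + u) = a • (1 : D) - u := by
    rw [sg_apply, map_add, tt_smul_one, hu, add_zero, two_mul, add_smul]
    abel
  have e2 : sg D (b • (1 : D) + v) = b • (1 : D) - v := by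
    rw [sg_apply, map_add, tt_smul_one, hv, add_zero, two_mul, add_smul]
    abel
  have e3 : (a • (1 : D) + u) * (b • (1 : D) + v)
      = (a * b) • (1 : D) + a • v + b • u + u * v := by
    rw [mul_comm a b, mul_smul]
    simp only [add_mul, mul_add, smul_mul_assoc, mul_smul_comm, one_mul, mul_one, smul_add]
    abel
  have e4 : (b • (1 : D) - v) * (a • (1 : D) - u)
      = (a * b) • (1 : D) - a • v - b • u + v * u := by
    rw [mul_smul]
    simp only [sub_mul, mul_sub, smul_mul_assoc, mul_smul_comm, one_mul, mul_one, smul_sub]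
    abel
  rw [e1, e2, e3, e4, sg_apply]
  simp only [map_add, map_smul, hu, hv, smul_zero, add_zero, tt_one]
  have h2 : v * u = (2 * tt D (u * v)) • (1 : D) - u * v := by rw [← h1]; abel
  rw [h2, mul_add, add_smul, smul_eq_mul, mul_one, two_mul (a * b), add_smul]
  abel

end

theorem pos1 : S_P1 := by
  intro D _ _ _
  refine ⟨sg D, tt D, sg_mul, sg_sg, ?_, ?_⟩
  · intro x y
    rw [← tt_sg (sg D x * y), sg_mul, sg_sg]
  · intro x hx
    obtain ⟨u, hu, hxu⟩ := dec x
    have e1 : sg D x = tt D x • (1 : D) - u := by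
      rw [sg_apply, two_mul, add_smul]
      nth_rewrite 3 [hxu]
      abel
    have e2 : sg D x * x = (tt D x * tt D x) • (1 : D) - u * u := by
      rw [e1]
      nth_rewrite 2 [hxu]
      rw [mul_smul]
      simp only [sub_mul, mul_add, smul_mul_assoc, mul_smul_comm, one_mul, mul_one, smul_sub]
      abel
    rw [e2, map_sub, tt_smul_one]
    by_cases h0 : u = 0
    · rw [h0, mul_zero, map_zero, sub_zero]
      rw [h0, add_zero] at hxu
      have h1 : tt D x ≠ 0 := by
        intro h
        rw [h, zero_smul] at hxu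
        exact hx hxu
      exact mul_self_pos.2 h1
    · obtain ⟨k, hk, h1⟩ := sq_neg h0 (tr_of_tt hu)
      rw [h1, tt_smul_one]
      nlinarith [mul_self_nonneg (tt D x)]

end Pool.Agent.ZI
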