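import Pool.Agent.Lib.MP_8f66f0_al_ZI.SpecP
import Pool.Agent.Lib.MP_8f66f0_al_ZI.Tr

/-! Positive involutions of matrix algebras. -/

set_option autoImplicit false

namespace Pool.Agent.ZI

section

variable {D : Type} [Ring D] [Algebra ℝ D] {n : ℕ}

private def msx (s : D →ₗ[ℝ] D) : Matrix (Fin n) (Fin n) D →ₗ[ℝ] Matrix (Fin n) (Fin n) D where
  toFun A := Matrix.of fun i j => s (A j i)
  map_add' A B := by
    ext i j
    simp only [Matrix.of_apply, Matrix.add_apply, map_add]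
  map_smul' c A := by
    ext i j
    simp only [Matrix.of_apply, Matrix.smul_apply, map_smul, RingHom.id_apply]

private def mtx (τ : D →ₗ[ℝ] ℝ) : Matrix (Fin n) (Fin n) D →ₗ[ℝ] ℝ where
  toFun A := ∑ i, τ (A i i)
  map_add' A B := by
    simp only [Matrix.add_apply, map_add, Finset.sum_add_distrib]
  map_smul' c A := by
    simp only [Matrix.smul_apply, map_smul, RingHom.id_apply, Finset.smul_sum]

private theorem msx_apply (s : D →ₗ[ℝ] D) (A : Matrix (Fin n) (Fin n) D) (i j : Fin n) :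
    msx s A i j = s (A j i) := rfl

private theorem mtx_apply (τ : D →ₗ[ℝ] ℝ) (A : Matrix (Fin n) (Fin n) D) :
    mtx τ A = ∑ i, τ (A i i) := rfl

private theorem mtx_mul (s : D →ₗ[ℝ] D) (τ : D →ₗ[ℝ] ℝ) (X Y : Matrix (Fin n) (Fin n) D) :
    mtx τ (msx s X * Y) = ∑ i, ∑ k, τ (s (X k i) * Y k i) := by
  rw [mtx_apply]
  refine Finset.sum_congr rfl fun i _ => ?_
  rw [Matrix.mul_apply, map_sum]
  rfl

end

theorem pos2 : S_P2 := by
  rintro D _ _ n ⟨s, τ, h1, h2, h3, h4⟩
  refine ⟨msx s, mtx τ, fun A B => ?_, fun A => ?_, fun X Y => ?_, fun X hX => ?_⟩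
  · ext i j
    rw [msx_apply, Matrix.mul_apply, Matrix.mul_apply, map_sum]
    refine Finset.sum_congr rfl fun k _ => ?_
    rw [h1]
    rfl
  · ext i j
    rw [msx_apply, msx_apply, h2]
  · rw [mtx_mul, mtx_mul]
    refine Finset.sum_congr rfl fun i _ => Finset.sum_congr rfl fun k _ => ?_
    exact h3 _ _
  · rw [mtx_mul]
    have hnn : ∀ x : D, 0 ≤ τ (s x * x) := by
      intro x
      rcases eq_or_ne x 0 with rfl | hx
      · rw [mul_zero, map_zero]
      · exact (h4 x hx).le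
    obtain ⟨k, i, hki⟩ : ∃ k i, X k i ≠ 0 := by
      by_contra hcon
      push Not at hcon
      exact hX (Matrix.ext fun k i => hcon k i)
    refine Finset.sum_pos' (fun i _ => Finset.sum_nonneg fun k _ => hnn _)
      ⟨i, Finset.mem_univ _, ?_⟩
    exact Finset.sum_pos' (fun k _ => hnn _) ⟨k, Finset.mem_univ _, h4 _ hki⟩

end Pool.Agent.ZI
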