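import Pool.Agent.Lib.MP_8f66f0_al_ZI.SpecP
import Pool.Agent.Lib.MP_8f66f0_al_ZI.Tr

/-! Project ZERO, part I, module PosE (helper56): finite products. -/

set_option autoImplicit false

namespace Pool.Agent.ZI

/-- (P3) -/
theorem pos3 : S_P3 := by
  intro n C _ _ h
  choose s τ hmul hinv hsym hpos using h
  refine ⟨LinearMap.pi fun i => (s i).comp (LinearMap.proj i),
    ∑ i, (τ i).comp (LinearMap.proj i), ?_, ?_, ?_, ?_⟩
  · intro x y
    funext i
    simp only [LinearMap.pi_apply, LinearMap.comp_apply, LinearMap.proj_apply, Pi.mul_apply]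
    exact hmul i (x i) (y i)
  · intro x
    funext i
    simp only [LinearMap.pi_apply, LinearMap.comp_apply, LinearMap.proj_apply]
    exact hinv i (x i)
  · intro x y
    simp only [LinearMap.sum_apply, LinearMap.pi_apply, LinearMap.comp_apply,
      LinearMap.proj_apply, Pi.mul_apply]
    exact Finset.sum_congr rfl fun i _ => hsym i (x i) (y i)
  · intro x hx
    simp only [LinearMap.sum_apply, LinearMap.pi_apply, LinearMap.comp_apply,
      LinearMap.proj_apply, Pi.mul_apply]
    obtain ⟨i, hi⟩ := Function.ne_iff.mp hx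
    refine Finset.sum_pos' (fun j _ => ?_) ⟨i, Finset.mem_univ i, hpos i (x i) hi⟩
    by_cases hj : x j = 0
    · rw [hj, mul_zero, map_zero]
    · exact (hpos j (x j) hj).le

end Pool.Agent.ZI
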