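import Pool.Agent.Lib.MP_8f66f0_al_ZI.SpecP
import Pool.Agent.Lib.MP_8f66f0_al_ZI.Tr

/-! (P4): Wedderburn-Artin assembly of the positive involution. -/

set_option autoImplicit false

namespace Pool.Agent.ZI

private theorem hasPos_of_equiv {C E : Type} [Ring C] [Algebra ℝ C] [Ring E] [Algebra ℝ E]
    (e : C ≃ₐ[ℝ] E) (h : HasPos E) : HasPos C := by
  obtain ⟨s, τ, h1, h2, h3, h4⟩ := h
  refine ⟨e.symm.toLinearMap ∘ₗ s ∘ₗ e.toLinearMap, τ ∘ₗ e.toLinearMap, ?_, ?_, ?_, ?_⟩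
  · intro x y
    change e.symm (s (e (x * y))) = e.symm (s (e y)) * e.symm (s (e x))
    rw [map_mul, h1, map_mul]
  · intro x
    change e.symm (s (e (e.symm (s (e x))))) = x
    rw [AlgEquiv.apply_symm_apply, h2, AlgEquiv.symm_apply_apply]
  · intro x y
    change τ (e (e.symm (s (e x)) * y)) = τ (e (e.symm (s (e y)) * x))
    rw [map_mul e, map_mul e, AlgEquiv.apply_symm_apply, AlgEquiv.apply_symm_apply, h3]
  · intro x hx
    change 0 < τ (e (e.symm (s (e x)) * x))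
    rw [map_mul e, AlgEquiv.apply_symm_apply]
    exact h4 _ fun h => hx (e.injective (by rw [h, map_zero]))

private theorem jac_bot (C : Type) [Ring C] [Algebra ℝ C] [Module.Finite ℝ C]
    [IsArtinianRing C] (h : ND ℝ C) : Ring.jacobson C = ⊥ := by
  rw [eq_bot_iff]
  intro x hx
  rw [Submodule.mem_bot]
  refine h x fun y => tr_nil ?_
  have hxy : x * y ∈ Ring.jacobson C := Ideal.mul_mem_right y _ hx
  obtain ⟨n, hn⟩ := IsSemiprimaryRing.isNilpotent (R := C)
  refine ⟨n, ?_⟩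
  have := Ideal.pow_mem_pow hxy n
  rw [hn] at this
  simpa using this

theorem pos4 : S_P4 := by
  intro H1 H2 H3 C _ _ _ hC
  have := IsArtinianRing.of_finite ℝ C
  have : IsSemisimpleRing C :=
    IsArtinianRing.isSemisimpleRing_iff_jacobson.2 (jac_bot C hC)
  obtain ⟨n, D, d, i1, i2, i3, -, ⟨e⟩⟩ :=
    IsSemisimpleRing.exists_algEquiv_pi_matrix_divisionRing_finite ℝ C
  exact hasPos_of_equiv e (H3 n _ fun i => H2 (D i) (d i) (H1 (D i)))

end Pool.Agent.ZI
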