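import Pool.Agent.Lib.MP_8f66f0_al_ZI.SpecP
import Pool.Agent.Lib.MP_8f66f0_al_ZI.Tr

/-! Project ZERO, part I: the trace form of the extension to the real numbers. -/

set_option autoImplicit false

namespace Pool.Agent.ZI

open scoped TensorProduct

section

variable {O : Type} [Ring O] [Module.Free ℤ O] [Module.Finite ℤ O]

private theorem PosG_tr (x : O) :
    tr ℝ ((1 : ℝ) ⊗ₜ[ℤ] x) = ((LinearMap.trace ℤ O (LinearMap.mulLeft ℤ x) : ℤ) : ℝ) := by
  have h1 : LinearMap.mulLeft ℝ ((1 : ℝ) ⊗ₜ[ℤ] x) =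
      (LinearMap.mulLeft ℤ x).baseChange ℝ := by
    refine TensorProduct.AlgebraTensorModule.ext fun r y => ?_
    rw [LinearMap.mulLeft_apply, LinearMap.baseChange_tmul, LinearMap.mulLeft_apply,
      Algebra.TensorProduct.tmul_mul_tmul, one_mul]
  have h2 : tr ℝ ((1 : ℝ) ⊗ₜ[ℤ] x) =
      LinearMap.trace ℝ (ℝ ⊗[ℤ] O) (LinearMap.mulLeft ℝ ((1 : ℝ) ⊗ₜ[ℤ] x)) := rfl
  rw [h2, h1, LinearMap.trace_baseChange]
  rfl

/-- The Gram matrix. -/
private noncomputable def PosG_G (O : Type) [Ring O] [Module.Free ℤ O] :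
    Matrix (Module.Free.ChooseBasisIndex ℤ O) (Module.Free.ChooseBasisIndex ℤ O) ℤ :=
  Matrix.of fun i j => LinearMap.trace ℤ O (LinearMap.mulLeft ℤ
    (Module.Free.chooseBasis ℤ O i * Module.Free.chooseBasis ℤ O j))

open Classical in
private theorem PosG_det (h : NDZ O) : (PosG_G O).det ≠ 0 := by
  intro hd
  obtain ⟨v, hv, hG⟩ := Matrix.exists_vecMul_eq_zero_iff.2 hd
  apply hv
  have hx : ∑ i, v i • Module.Free.chooseBasis ℤ O i = 0 := by
    apply h
    intro y
    have hy : y = ∑ j, (Module.Free.chooseBasis ℤ O).repr y j • Module.Free.chooseBasis ℤ O j :=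
      ((Module.Free.chooseBasis ℤ O).sum_repr y).symm
    set L : O →ₗ[ℤ] ℤ := (LinearMap.trace ℤ O).comp (LinearMap.mul ℤ O) with hL
    have hLa : ∀ z, L z = LinearMap.trace ℤ O (LinearMap.mulLeft ℤ z) := fun z => rfl
    rw [← hLa, hy, Finset.mul_sum, map_sum]
    refine Finset.sum_eq_zero fun j _ => ?_
    rw [mul_smul_comm, map_smul, Finset.sum_mul, map_sum]
    have h3 := congrFun hG j
    rw [Matrix.vecMul, dotProduct] at h3
    have h4 : ∑ i, L (v i • Module.Free.chooseBasis ℤ O i * Module.Free.chooseBasis ℤ O j) =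
        ∑ i, v i * PosG_G O i j := by
      refine Finset.sum_congr rfl fun i _ => ?_
      rw [smul_mul_assoc, map_smul, smul_eq_mul, hLa]
      rfl
    rw [h4, h3]
    simp
  funext i
  exact Fintype.linearIndependent_iff.1 (Module.Free.chooseBasis ℤ O).linearIndependent v hx i

end

theorem pos5 : S_P5 := by
  classical
  intro O _ _ _ h x hx
  set e := Module.Free.chooseBasis ℤ O with he
  set b : Module.Basis (Module.Free.ChooseBasisIndex ℤ O) ℝ (ℝ ⊗[ℤ] O) := e.baseChange ℝ with hb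
  have hbi : ∀ i, b i = (1 : ℝ) ⊗ₜ[ℤ] e i := fun i => by
    rw [hb]
    exact Module.Basis.baseChange_apply ℝ e i
  have hxs : x = ∑ i, b.repr x i • b i := (b.sum_repr x).symm
  have hdet : ((PosG_G O).map (Int.cast : ℤ → ℝ)).det ≠ 0 := by
    have h1 : ((PosG_G O).map (Int.cast : ℤ → ℝ)).det = (((PosG_G O).det : ℤ) : ℝ) :=
      ((Int.castRingHom ℝ).map_det (PosG_G O)).symm
    rw [h1]
    exact_mod_cast PosG_det h
  have hc : (fun i => b.repr x i) = 0 := by
    apply Matrix.eq_zero_of_vecMul_eq_zero hdet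
    funext j
    rw [Matrix.vecMul, dotProduct, Pi.zero_apply, ← hx (b j)]
    conv_rhs => rw [hxs]
    have hT : ∀ z, tr ℝ z = LinearMap.trace ℝ (ℝ ⊗[ℤ] O) (Algebra.lmul ℝ (ℝ ⊗[ℤ] O) z) :=
      fun z => rfl
    rw [Finset.sum_mul, hT, map_sum, map_sum]
    refine Finset.sum_congr rfl fun i _ => ?_
    rw [smul_mul_assoc, map_smul, map_smul, ← hT, hbi, hbi, Algebra.TensorProduct.tmul_mul_tmul,
      one_mul, PosG_tr]
    rfl
  rw [hxs]
  refine Finset.sum_eq_zero fun i _ => ?_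
  rw [congrFun hc i]
  exact zero_smul ℝ _

end Pool.Agent.ZI
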