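import Pool.Agent.Lib.MP_8f66f0_al_ZI.SpecQ
import Pool.Agent.Lib.MP_8f66f0_al_ZI.Tr

/-! Project ZERO, part I: (P6), the existence of positive involutions. -/

set_option autoImplicit false

namespace Pool.Agent.ZI

open Pool.Agent
open scoped TensorProduct

theorem pos6 : S_P6 := by
  intro h0 h4 h5 O _ _ _ hO
  obtain ⟨s, h1, h2, h3, h4'⟩ := h0 (ℝ ⊗[ℤ] O) (h4 (ℝ ⊗[ℤ] O) (h5 O hO))
  have ht : ∀ x : ℝ ⊗[ℤ] O, ZA.tr O x = tr ℝ x := fun x => rfl
  exact ⟨{ s := s
           mul := h1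
           inv := h2
           sym := fun x y => h3 x y
           pos := fun x hx => h4' x hx }⟩

end Pool.Agent.ZI
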