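import Pool.Agent.Lib.MP_8f66f0_al_ZI.SpecQ
import Pool.Agent.Lib.MP_8f66f0_al_ZI.Tr

/-! Project ZERO, part I: (P7), the trace form of an order with a positive involution is
nondegenerate. -/

set_option autoImplicit false

namespace Pool.Agent.ZI

open Pool.Agent
open scoped TensorProduct

private theorem tr_one_tmul (O : Type) [Ring O] [Module.Free ℤ O] [Module.Finite ℤ O] (z : O) :
    ZA.tr O (1 ⊗ₜ[ℤ] z) = ((LinearMap.trace ℤ O (LinearMap.mulLeft ℤ z) : ℤ) : ℝ) := by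
  have h : LinearMap.mul ℝ (ZA.VO O) (1 ⊗ₜ[ℤ] z) =
      (LinearMap.mulLeft ℤ z).baseChange ℝ := by
    apply LinearMap.ext
    intro v
    induction v using TensorProduct.induction_on with
    | zero => simp
    | tmul r y => simp
    | add a b ha hb => rw [map_add, map_add, ha, hb]
  change LinearMap.trace ℝ (ZA.VO O) (LinearMap.mul ℝ (ZA.VO O) (1 ⊗ₜ[ℤ] z)) = _
  rw [h, LinearMap.trace_baseChange]
  rfl

private theorem tr_comm' (O : Type) [Ring O] (x y : ZA.VO O) :
    ZA.tr O (x * y) = ZA.tr O (y * x) :=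
  tr_comm (K := ℝ) x y

theorem pos7 : S_P7 := by
  intro O _ _ _ ⟨σ⟩ x hx
  have h1 : ∀ v : ZA.VO O, ZA.tr O ((1 ⊗ₜ[ℤ] x) * v) = 0 := by
    intro v
    induction v using TensorProduct.induction_on with
    | zero => simp
    | tmul r y =>
      have e : (1 ⊗ₜ[ℤ] x : ZA.VO O) * (r ⊗ₜ[ℤ] y) = r • (1 ⊗ₜ[ℤ] (x * y)) := by
        rw [Algebra.TensorProduct.tmul_mul_tmul, one_mul, TensorProduct.smul_tmul', smul_eq_mul,
          mul_one]
      rw [e, map_smul, tr_one_tmul, hx y]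
      simp
    | add a b ha hb => rw [mul_add, map_add, ha, hb, add_zero]
  have h2 : (1 ⊗ₜ[ℤ] x : ZA.VO O) = 0 := by
    by_contra hne
    have h3 := σ.pos _ hne
    rw [tr_comm', h1] at h3
    exact lt_irrefl _ h3
  have hinj : Function.Injective (LinearMap.rTensor O (Algebra.linearMap ℤ ℝ)) :=
    Module.Flat.rTensor_preserves_injective_linearMap _ (algebraMap ℤ ℝ).injective_int
  have h4 : LinearMap.rTensor O (Algebra.linearMap ℤ ℝ) (1 ⊗ₜ[ℤ] x) = 0 := by
    rw [LinearMap.rTensor_tmul]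
    simpa using h2
  have h5 : (1 ⊗ₜ[ℤ] x : ℤ ⊗[ℤ] O) = 0 := hinj (by rw [h4, map_zero])
  have h6 := congrArg (TensorProduct.lid ℤ O) h5
  simpa using h6

end Pool.Agent.ZI
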