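import Pool.Agent.Lib.MP_8f66f0_al_ZI.IAsm
import Pool.Agent.Lib.MP_8f66f0_al_ZI.PosA
import Pool.Agent.Lib.MP_8f66f0_al_ZI.PosC
import Pool.Agent.Lib.MP_8f66f0_al_ZI.PosD
import Pool.Agent.Lib.MP_8f66f0_al_ZI.PosE
import Pool.Agent.Lib.MP_8f66f0_al_ZI.PosF
import Pool.Agent.Lib.MP_8f66f0_al_ZI.PosG
import Pool.Agent.Lib.MP_8f66f0_al_ZI.PosH
import Pool.Agent.Lib.MP_8f66f0_al_ZI.PosI
import Pool.Agent.Lib.MP_8f66f0_al_ZI.Ent

/-! Project ZERO, part I: `S_I`. -/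

set_option autoImplicit false

namespace Pool.Agent.ZI

open Pool.Agent

/-- Existence of positive involutions. -/
theorem exists_pi (O : Type) [Ring O] [Module.Free ℤ O] [Module.Finite ℤ O] (h : NDZ O) :
    Nonempty (ZA.PI O) :=
  pos6 pos0 (pos4 pos1 pos2 pos3) pos5 O h

theorem sO_of' (hG : ZA.S_G) (hS : ZA.S_SS) : ZA.S_O := sO_of exists_pi pos7 hG hS

theorem tI : ZA.S_I := fun hG hS => ⟨sO_of' hG hS, zero_of_O⟩

theorem zero_of (hG : ZA.S_G) (hS : ZA.S_SS) : ZA.S_ZERO := zero_of_O (sO_of' hG hS)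

end Pool.Agent.ZI
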