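import Mathlib
import Pool.Agent.Lib.MP_8f66f0_al_BN.Red
import Pool.Agent.Lib.MP_8f66f0_al_FH.VDefs

/-! Project ZERO, part I9: finitely generated linear groups with integral characteristic
polynomials; the statements of the parts. -/

set_option autoImplicit false

namespace Pool.Agent.ZI

open Pool.Agent.BN Pool.Agent.FH

/-- KOL (Kolchin, all characteristics): unipotent groups of matrices over a field are elementary
amenable. PROOF. Pass to the algebraic closure. Induction on the dimension of `V`, for groups `G`
with an injective `ρ : G →* (Module.End F V)ˣ` such that all `ρ g - 1` are nilpotent. `V` simple over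
the span `A` of `ρ(G)`: `A = End V` by the Jacobson density theorem (`jacobson_density`) and Schur;
`tr ((ρ g - 1) * ρ h) = tr (ρ (g h) - 1) - tr (ρ h - 1) = 0` for all `h`, so for all `y` instead of
`ρ h`, `ρ g = 1`, `G` trivial. Otherwise there is a stable `W`; the images of `G` in `GL(W)` and
`GL(V / W)` are elementary amenable by induction, the intersection of the kernels is abelian. -/
def S_KOL : Prop :=
  ∀ (F : Type) [Field F] (d : ℕ) (G : Type) [Group G] (ρ : G →* GN d F), Function.Injective ρ →
    (∀ g, IsNilpotent ((ρ g : MN d F) - 1)) → EAm G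

/-- FAM: a group is elementary amenable if its images under finitely many homomorphisms and the
intersection of the kernels are. -/
def S_FAM : Prop :=
  ∀ (G : Type) [Group G] (k : ℕ) (Q : Fin k → Type) [∀ i, Group (Q i)] (f : ∀ i, G →* Q i),
    (∀ i, EAm (f i).range) → (∀ K : Subgroup G, (∀ g ∈ K, ∀ i, f i g = 1) → EAm K) → EAm G

/-- NIL: a group of matrices which are the unit matrix modulo a nilpotent ideal. (Induction on `m`:
the kernel of the reduction modulo `I ^ m`, if `I ^ (m + 1) = ⊥`, `m ≥ 1`, is abelian.) -/
def S_NIL : Prop :=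
  ∀ (R : Type) [CommRing R] (I : Ideal R) (m : ℕ), I ^ m = ⊥ → ∀ (d : ℕ) (G : Type) [Group G]
    (ρ : G →* GN d R), Function.Injective ρ →
    (∀ g i j, (ρ g : MN d R) i j - (1 : MN d R) i j ∈ I) → EAm G

/-- ZAR: homomorphisms of a finitely generated domain to a finite field or a number field which are
injective on the elements which are integral over `ℤ`. PROOF. Characteristic `p`: `R` modulo a
maximal ideal `m` (Zariski: finite); an integral element `x ≠ 0` of `R` is a unit (`𝔽_p[x]` is a
finite domain). Characteristic `0`: the localization `R_ℚ` at `ℤ - 0` is a finitely generated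
`ℚ`-algebra, take a maximal ideal (Zariski: the residue field is finite over `ℚ`); for
integral elements see `integral_mem` in `BN/SpzC`. -/
def S_ZAR : Prop :=
  ∀ (R : Type) [CommRing R] [IsDomain R], Algebra.FiniteType ℤ R →
    (∃ (L : Type) (_ : Field L) (_ : Finite L) (j : R →+* L),
      ∀ x, IsIntegral ℤ x → j x = 0 → x = 0) ∨
    (∃ (L : Type) (_ : Field L) (_ : NumberField L) (j : R →+* L),
      ∀ x, IsIntegral ℤ x → j x = 0 → x = 0)

/-- LAT: groups of matrices over a number field with integral traces. PROOF. `S = ℤ[G]`,
`J = {x : tr ρ(y x) = 0 for all y}`; `S / J` is a finitely generated torsion free group (embed it by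
`x ↦ (tr ρ(g_i x))_i`, where the `ρ(g_i)` span the span of `ρ(G)`), `G` acts on it by left
multiplication, and elements `g` in the kernel satisfy `tr ρ(g) = tr 1`. -/
def S_LAT : Prop :=
  ∀ (L : Type) [Field L] [NumberField L] (d : ℕ) (G : Type) [Group G] (ρ : G →* GN d L),
    (∀ g, IsIntegral ℤ (ρ g : MN d L).trace) → ∃ (N : ℕ) (φ : G →* GN N ℤ),
      ∀ g, φ g = 1 → (ρ g : MN d L).trace = d

end Pool.Agent.ZI
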