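import Mathlib
import Pool.Agent.Lib.MP_8f66f0_al_ZI.IDefs

/-! Project ZERO, part I9, LAT: groups of matrices over a number field with integral traces act on a
lattice. -/

set_option autoImplicit false

namespace Pool.Agent.ZI

open Pool.Agent.BN Pool.Agent.FH NumberField

section Act

variable {G A : Type} [Group G] [AddCommGroup A] [Module.Free ℤ A] [Module.Finite ℤ A]

/-- An action on a finitely generated free abelian group, by matrices. -/
theorem exists_mat (φ : G →* Module.End ℤ A) :
    ∃ (N : ℕ) (ψ : G →* GN N ℤ), ∀ g, ψ g = 1 → φ g = 1 := by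
  let b := Module.finBasis ℤ A
  let e := LinearMap.toMatrixAlgEquiv b
  let m : G →* MN (Module.finrank ℤ A) ℤ := e.toAlgHom.toRingHom.toMonoidHom.comp φ
  refine ⟨Module.finrank ℤ A, m.toHomUnits, fun g hg => ?_⟩
  have h1 : m g = 1 := congrArg (fun u : GN (Module.finrank ℤ A) ℤ =>
    (u : MN (Module.finrank ℤ A) ℤ)) hg
  apply e.injective
  rw [map_one]
  exact h1

end Act

section Lat

variable {L : Type} [Field L] {d : ℕ} {G : Type} [Group G] (ρ : G →* GN d L)

/-- The additive group generated by the matrices. -/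
def AZ : Submodule ℤ (MN d L) := Submodule.span ℤ (Set.range fun g => (ρ g : MN d L))

/-- The vector space generated by the matrices. -/
def AL : Submodule L (MN d L) := Submodule.span L (Set.range fun g => (ρ g : MN d L))

theorem mem_AZ (g : G) : (ρ g : MN d L) ∈ AZ ρ := Submodule.subset_span ⟨g, rfl⟩

theorem mul_AZ (g : G) (x : MN d L) (hx : x ∈ AZ ρ) : (ρ g : MN d L) * x ∈ AZ ρ := by
  induction hx using Submodule.span_induction with
  | mem x hx =>
    obtain ⟨h, rfl⟩ := hx
    have : (ρ g : MN d L) * (ρ h : MN d L) = (ρ (g * h) : MN d L) := by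
      rw [map_mul, Units.val_mul]
    change (ρ g : MN d L) * (ρ h : MN d L) ∈ AZ ρ
    rw [this]
    exact mem_AZ ρ _
  | zero => rw [mul_zero]; exact Submodule.zero_mem _
  | add a b _ _ ha hb => rw [mul_add]; exact Submodule.add_mem _ ha hb
  | smul c a _ ha => rw [mul_smul_comm]; exact Submodule.smul_mem _ _ ha

theorem mul_AL (g : G) (x : MN d L) (hx : x ∈ AL ρ) : x * (ρ g : MN d L) ∈ AL ρ := by
  induction hx using Submodule.span_induction with
  | mem x hx =>
    obtain ⟨h, rfl⟩ := hx
    have : (ρ h : MN d L) * (ρ g : MN d L) = (ρ (h * g) : MN d L) := by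
      rw [map_mul, Units.val_mul]
    change (ρ h : MN d L) * (ρ g : MN d L) ∈ AL ρ
    rw [this]
    exact Submodule.subset_span ⟨_, rfl⟩
  | zero => rw [zero_mul]; exact Submodule.zero_mem _
  | add a b _ _ ha hb => rw [add_mul]; exact Submodule.add_mem _ ha hb
  | smul c a _ ha => rw [smul_mul_assoc]; exact Submodule.smul_mem _ _ ha

/-- The traces of the products with elements of `AZ` are integral. -/
theorem int_AZ (h : ∀ g, IsIntegral ℤ (ρ g : MN d L).trace) (g : G) (x : MN d L)
    (hx : x ∈ AZ ρ) : IsIntegral ℤ ((ρ g : MN d L) * x).trace := by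
  induction hx using Submodule.span_induction with
  | mem x hx =>
    obtain ⟨k, rfl⟩ := hx
    have : (ρ g : MN d L) * (ρ k : MN d L) = (ρ (g * k) : MN d L) := by
      rw [map_mul, Units.val_mul]
    change IsIntegral ℤ ((ρ g : MN d L) * (ρ k : MN d L)).trace
    rw [this]
    exact h _
  | zero => rw [mul_zero, Matrix.trace_zero]; exact isIntegral_zero
  | add a b _ _ ha hb => rw [mul_add, Matrix.trace_add]; exact ha.add hb
  | smul c a _ ha =>
    rw [mul_smul_comm, Matrix.trace_smul]
    exact ha.smul c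

/-- Finitely many elements span the vector space. -/
theorem exists_span : ∃ (r : ℕ) (γ : Fin r → G),
    AL ρ = Submodule.span L (Set.range fun i => (ρ (γ i) : MN d L)) := by
  obtain ⟨t, ht, hs⟩ := (Submodule.fg_span_iff_fg_span_finset_subset
    (Set.range fun g => (ρ g : MN d L))).1 (IsNoetherian.noetherian (AL ρ))
  have h1 : ∀ x : t, ∃ g, (ρ g : MN d L) = x := fun x => ht x.2
  choose γ hγ using h1
  refine ⟨t.card, fun i => γ (t.equivFin.symm i), hs.trans ?_⟩
  congr 1
  ext x
  constructor
  · intro hx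
    exact ⟨t.equivFin ⟨x, hx⟩, by simp [hγ]⟩
  · rintro ⟨i, rfl⟩
    change (ρ (γ (t.equivFin.symm i)) : MN d L) ∈ (t : Set (MN d L))
    rw [hγ]
    exact (t.equivFin.symm i).2

theorem tr_AL {r : ℕ} {γ : Fin r → G}
    (hγ : AL ρ = Submodule.span L (Set.range fun i => (ρ (γ i) : MN d L))) (x : MN d L)
    (hx : ∀ i, ((ρ (γ i) : MN d L) * x).trace = 0) (y : MN d L) (hy : y ∈ AL ρ) :
    (y * x).trace = 0 := by
  rw [hγ] at hy
  induction hy using Submodule.span_induction with
  | mem y hy =>
    obtain ⟨i, rfl⟩ := hy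
    exact hx i
  | zero => rw [zero_mul, Matrix.trace_zero]
  | add a b _ _ ha hb => rw [add_mul, Matrix.trace_add, ha, hb, add_zero]
  | smul c a _ ha => rw [smul_mul_assoc, Matrix.trace_smul, ha, smul_zero]

end Lat

theorem lat : S_LAT := by
  intro L _ _ d G _ ρ h
  obtain ⟨r, γ, hγ⟩ := exists_span ρ
  let Ψ : AZ ρ →ₗ[ℤ] (Fin r → 𝓞 L) :=
    { toFun := fun x i => ⟨((ρ (γ i) : MN d L) * x).trace, int_AZ ρ h (γ i) x x.2⟩
      map_add' := by
        intro x y
        funext i
        apply Subtype.ext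
        change ((ρ (γ i) : MN d L) * (x + y)).trace = _ + _
        rw [mul_add, Matrix.trace_add]
      map_smul' := by
        intro c x
        funext i
        apply Subtype.ext
        change ((ρ (γ i) : MN d L) * (c • (x : MN d L))).trace = _
        rw [mul_smul_comm, Matrix.trace_smul]
        rfl }
  have hΨ : ∀ x : AZ ρ, x ∈ LinearMap.ker Ψ ↔ ∀ i, ((ρ (γ i) : MN d L) * x).trace = 0 := by
    intro x
    rw [LinearMap.mem_ker]
    constructor
    · intro h1 i
      exact congrArg Subtype.val (congrFun h1 i)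
    · intro h1
      funext i
      exact Subtype.ext (h1 i)
  let T : G → (AZ ρ →ₗ[ℤ] AZ ρ) := fun g =>
    { toFun := fun x => ⟨(ρ g : MN d L) * x, mul_AZ ρ g x x.2⟩
      map_add' := by
        intro x y
        apply Subtype.ext
        exact mul_add _ _ _
      map_smul' := by
        intro c x
        apply Subtype.ext
        exact mul_smul_comm _ _ _ }
  have hT : ∀ g, LinearMap.ker Ψ ≤ (LinearMap.ker Ψ).comap (T g) := by
    intro g x hx
    rw [Submodule.mem_comap, hΨ]
    intro i
    have h1 := tr_AL ρ hγ x ((hΨ x).1 hx) _ (mul_AL ρ g _ (Submodule.subset_span ⟨γ i, rfl⟩))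
    change ((ρ (γ i) : MN d L) * ((ρ g : MN d L) * x)).trace = 0
    rw [← mul_assoc]
    exact h1
  let φ : G →* Module.End ℤ (AZ ρ ⧸ LinearMap.ker Ψ) :=
    { toFun := fun g => Submodule.mapQ _ _ (T g) (hT g)
      map_one' := by
        apply LinearMap.ext
        intro x
        obtain ⟨x, rfl⟩ := Submodule.mkQ_surjective _ x
        rw [Submodule.mkQ_apply, Submodule.mapQ_apply]
        congr 1
        apply Subtype.ext
        change (ρ 1 : MN d L) * (x : MN d L) = x
        rw [map_one, Units.val_one, one_mul]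
      map_mul' := by
        intro g k
        apply LinearMap.ext
        intro x
        obtain ⟨x, rfl⟩ := Submodule.mkQ_surjective _ x
        rw [Module.End.mul_apply, Submodule.mkQ_apply, Submodule.mapQ_apply,
          Submodule.mapQ_apply, Submodule.mapQ_apply]
        congr 1
        apply Subtype.ext
        change (ρ (g * k) : MN d L) * (x : MN d L) = (ρ g : MN d L) * ((ρ k : MN d L) * x)
        rw [map_mul, Units.val_mul, mul_assoc] }
  have e := Ψ.quotKerEquivRange
  have : Module.Free ℤ (AZ ρ ⧸ LinearMap.ker Ψ) := Module.Free.of_equiv e.symm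
  have : Module.Finite ℤ (AZ ρ ⧸ LinearMap.ker Ψ) := Module.Finite.equiv e.symm
  obtain ⟨N, ψ, hψ⟩ := exists_mat φ
  refine ⟨N, ψ, fun g hg => ?_⟩
  have h1 : φ g = 1 := hψ g hg
  let one : AZ ρ := ⟨(ρ 1 : MN d L), mem_AZ ρ 1⟩
  have h2 : (Submodule.Quotient.mk (T g one) : AZ ρ ⧸ LinearMap.ker Ψ) =
      Submodule.Quotient.mk one := by
    have := LinearMap.congr_fun h1 (Submodule.Quotient.mk one)
    exact this
  rw [Submodule.Quotient.eq] at h2
  have h3 := tr_AL ρ hγ _ ((hΨ _).1 h2) (ρ 1 : MN d L) (Submodule.subset_span ⟨1, rfl⟩)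
  have h4 : (ρ 1 : MN d L) = 1 := by rw [map_one, Units.val_one]
  have h5 : ((T g one - one : AZ ρ) : MN d L) = (ρ g : MN d L) - 1 := by
    change (ρ g : MN d L) * (ρ 1 : MN d L) - (ρ 1 : MN d L) = (ρ g : MN d L) - 1
    rw [h4, mul_one]
  rw [h5, h4, one_mul, Matrix.trace_sub, Matrix.trace_one, Fintype.card_fin, sub_eq_zero] at h3
  exact h3

end Pool.Agent.ZI
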