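import Mathlib
import Pool.Agent.Lib.MP_8f66f0_al_ZI.Lat
import Pool.Agent.Lib.MP_8f66f0_al_BN.SpzC

/-! Project ZERO, part I9: the case of a finitely generated domain. -/

set_option autoImplicit false

namespace Pool.Agent.ZI

open Pool.Agent.BN Pool.Agent.FH Pool.Agent.WhVan

/-- The two definitions of elementary amenable groups. -/
theorem eam_of_ea {G : Type} [Group G] (h : EA G) : EAm G := by
  induction h with
  | fin h => exact EAm.fin h
  | ab h => exact EAm.ab h
  | sub f hf _ ih => exact EAm.sub f hf ih
  | quot f hf _ ih => exact EAm.quot f hf ih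
  | ext N _ _ ih1 ih2 => exact EAm.ext N ih1 ih2
  | directed S h1 h2 h3 _ ih => exact EAm.directed S h1 h2 h3 ih

/-- Finite index. -/
theorem eam_fi {H : Type} [Group H] (K : Subgroup H) [K.FiniteIndex] (h : EAm K) : EAm H := by
  refine EAm.ext K.normalCore ?_ (EAm.fin inferInstance)
  exact EAm.sub (Subgroup.inclusion K.normalCore_le)
    (Subgroup.inclusion_injective K.normalCore_le) h

section Sub

variable {G H Q : Type} [Group G] [Group H] [Group Q]

/-- Let `φ(U)` be finite. If the image under `ρ` of the elements of `U` in the kernel of `φ` is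
elementary amenable, then `ρ(U)` is elementary amenable. -/
theorem eam_of_ker (ρ : G →* H) (φ : G →* Q) (U : Subgroup G) (hU : Finite (U.map φ))
    (h : ∀ K : Subgroup H, (∀ x ∈ K, ∃ u, φ u = 1 ∧ ρ u = x) → EAm K) : EAm (U.map ρ) := by
  let K : Subgroup (U.map ρ) := ((φ.subgroupMap U).ker).map (ρ.subgroupMap U)
  have h1 : K.FiniteIndex := by
    refine ⟨fun h0 => ?_⟩
    have h2 := Subgroup.index_map_dvd (H := (φ.subgroupMap U).ker) (ρ.subgroupMap_surjective U)
    have h3 : ((φ.subgroupMap U).ker).index ≠ 0 := by
      have : ((φ.subgroupMap U).ker).FiniteIndex := Subgroup.finiteIndex_ker _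
      exact this.index_ne_zero
    have h4 : ((φ.subgroupMap U).ker.map (ρ.subgroupMap U)).index = 0 := h0
    rw [h4] at h2
    exact h3 (Nat.eq_zero_of_zero_dvd h2)
  refine eam_fi K ?_
  have h2 : EAm (K.map (U.map ρ).subtype) := by
    refine h _ ?_
    rintro _ ⟨_, ⟨u, hu, rfl⟩, rfl⟩
    refine ⟨u, ?_, rfl⟩
    have : φ.subgroupMap U u = 1 := hu
    exact congrArg Subtype.val this
  exact EAm.sub (K.equivMapOfInjective _ (Subgroup.subtype_injective _)).toMonoidHom
    (K.equivMapOfInjective _ (Subgroup.subtype_injective _)).injective h2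

/-- Homomorphisms to `GL_N(ℤ)` can be combined. -/
theorem comb {k : ℕ} (N : Fin k → ℕ) (φ : ∀ i, G →* GN (N i) ℤ) :
    ∃ (M : ℕ) (ψ : G →* GN M ℤ), ∀ g, ψ g = 1 → ∀ i, φ i g = 1 := by
  let A : Type := ∀ i, Fin (N i) → ℤ
  let Φ : G →* Module.End ℤ A :=
    { toFun := fun g => LinearMap.pi fun i =>
        (Matrix.toLin' (φ i g : MN (N i) ℤ)) ∘ₗ LinearMap.proj i
      map_one' := by
        apply LinearMap.ext
        intro v
        funext i
        change Matrix.toLin' (φ i 1 : MN (N i) ℤ) (v i) = v i
        rw [map_one, Units.val_one, Matrix.toLin'_one, LinearMap.id_apply]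
      map_mul' := by
        intro g h
        apply LinearMap.ext
        intro v
        funext i
        change Matrix.toLin' (φ i (g * h) : MN (N i) ℤ) (v i) =
          Matrix.toLin' (φ i g : MN (N i) ℤ) (Matrix.toLin' (φ i h : MN (N i) ℤ) (v i))
        rw [map_mul, Units.val_mul, Matrix.toLin'_mul, LinearMap.comp_apply] }
  obtain ⟨M, ψ, hψ⟩ := exists_mat Φ
  refine ⟨M, ψ, fun g hg i => ?_⟩
  have h1 := hψ g hg
  apply Units.ext
  apply (Matrix.toLin' : MN (N i) ℤ ≃ₗ[ℤ] _).injective
  apply LinearMap.ext
  intro v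
  have h2 := congrFun (LinearMap.congr_fun h1 (Pi.single i v)) i
  change Matrix.toLin' (φ i g : MN (N i) ℤ) ((Pi.single i v : A) i) = (Pi.single i v : A) i at h2
  rw [Pi.single_eq_same] at h2
  rw [h2, Units.val_one, Matrix.toLin'_one, LinearMap.id_apply]

end Sub

/-- The inclusion of a domain in its field of fractions. -/
theorem glFrac_injective (R : Type) [CommRing R] [IsDomain R] (d : ℕ) :
    Function.Injective (Matrix.GeneralLinearGroup.map (n := Fin d) (algebraMap R (FractionRing R)))
    := by
  intro a b hab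
  apply Units.ext
  have e1 : (a : MN d R).map (algebraMap R (FractionRing R)) =
      (b : MN d R).map (algebraMap R (FractionRing R)) :=
    congrArg (fun x : GN d (FractionRing R) => (x : MN d (FractionRing R))) hab
  exact Matrix.map_injective (IsFractionRing.injective R _) e1

section Dom

variable {R : Type} [CommRing R] [IsDomain R] {G : Type} [Group G] {d : ℕ}

theorem intCh_trace {R : Type} [CommRing R] (x : MN d R)
    (h : ∀ k, IsIntegral ℤ (x.charpoly.coeff k)) : IsIntegral ℤ x.trace := by
  rcases Nat.eq_zero_or_pos d with hd | hd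
  · subst hd
    have : x.trace = 0 := by simp [Matrix.trace]
    rw [this]
    exact isIntegral_zero
  · have hne : Nonempty (Fin d) := ⟨⟨0, hd⟩⟩
    have h7 : x.trace = -x.charpoly.coeff (Fintype.card (Fin d) - 1) :=
      Matrix.trace_eq_neg_charpoly_coeff x
    rw [h7]
    exact (h _).neg

theorem isIntegral_natCast' {R : Type} [CommRing R] (n : ℕ) : IsIntegral ℤ (n : R) := by
  have : (n : R) = algebraMap ℤ R (n : ℤ) := by simp
  rw [this]
  exact isIntegral_algebraMap

/-- The case of a finitely generated domain. -/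
theorem int_dom (hK : S_KOL) (hZ : S_ZAR) (hft : Algebra.FiniteType ℤ R) (ρ : G →* GN d R)
    (h : IntCh ρ ⊤) : ∃ (N : ℕ) (φ : G →* GN N ℤ),
      ∀ U : Subgroup G, Finite (U.map φ) → EAm (U.map ρ) := by
  classical
  have hch : ∀ g k, IsIntegral ℤ ((ρ g : MN d R).charpoly.coeff k) := fun g k => h g trivial k
  rcases hZ R hft with ⟨L, _, _, j, hj⟩ | ⟨L, _, _, j, hj⟩
  · -- a finite field
    refine ⟨0, 1, fun U _ => ?_⟩
    let π : GN d R →* GN d L := Matrix.GeneralLinearGroup.map j
    have : Finite (GN d L) := inferInstance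
    refine eam_of_ker ρ (π.comp ρ) U inferInstance fun K hK' => ?_
    let ι : K →* GN d (FractionRing R) :=
      (Matrix.GeneralLinearGroup.map (algebraMap R (FractionRing R))).comp K.subtype
    refine hK (FractionRing R) d K ι ((glFrac_injective R d).comp K.subtype_injective) ?_
    rintro ⟨x, hx⟩
    obtain ⟨u, hu, rfl⟩ := hK' x hx
    -- the characteristic polynomial
    have e1 : (ρ u : MN d R).map j = 1 := by
      have : ((π (ρ u) : GN d L) : MN d L) = 1 := by
        rw [show π (ρ u) = 1 from hu, Units.val_one]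
      exact this
    have e2 : (ρ u : MN d R).charpoly = (1 : MN d R).charpoly := by
      ext k
      have h1 : IsIntegral ℤ ((1 : MN d R).charpoly.coeff k) := by
        have := hch 1 k
        rwa [map_one, Units.val_one] at this
      refine sub_eq_zero.1 (hj _ ((hch u k).sub h1) ?_)
      rw [map_sub, ← Polynomial.coeff_map, ← Polynomial.coeff_map, ← Matrix.charpoly_map,
        ← Matrix.charpoly_map, e1]
      have : (1 : MN d R).map j = 1 := by
        rw [Matrix.map_one _ (map_zero j) (map_one j)]
      rw [this, sub_self]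
    have e3 : ((ρ u : MN d R) - 1) ^ d = 0 := by
      have h1 := Matrix.aeval_self_charpoly (ρ u : MN d R)
      rw [e2, Matrix.charpoly_one, Fintype.card_fin, map_pow, map_sub, Polynomial.aeval_X,
        map_one] at h1
      exact h1
    refine ⟨d, ?_⟩
    have e4 : ((ι ⟨ρ u, hx⟩ : GN d (FractionRing R)) : MN d (FractionRing R)) - 1 =
        ((ρ u : MN d R) - 1).map (algebraMap R (FractionRing R)) := by
      rw [Matrix.map_sub _ (map_sub (algebraMap R (FractionRing R))),
        Matrix.map_one _ (map_zero _) (map_one _)]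
      rfl
    rw [e4]
    have e5 : ((ρ u : MN d R) - 1).map (algebraMap R (FractionRing R)) =
      (algebraMap R (FractionRing R)).mapMatrix ((ρ u : MN d R) - 1) := rfl
    rw [e5, ← map_pow, e3, map_zero]
  · -- a number field
    have hR : CharZero R := by
      refine ⟨fun a b hab => ?_⟩
      have : (a : L) = b := by
        rw [← map_natCast j, ← map_natCast j, hab]
      exact_mod_cast this
    let π : GN d R →* GN d L := Matrix.GeneralLinearGroup.map j
    have e0 : ∀ g, (((π.comp ρ) g : GN d L) : MN d L).trace = j (ρ g : MN d R).trace := by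
      intro g
      rw [Matrix.trace, Matrix.trace, map_sum]
      rfl
    obtain ⟨N, φ, hφ⟩ := lat L d G (π.comp ρ) (fun g => by
      rw [e0]
      exact (intCh_trace _ (hch g)).map j.toIntAlgHom)
    refine ⟨N, φ, fun U hU => eam_of_ker ρ φ U hU fun K hK' => ?_⟩
    let ι : K →* GN d (FractionRing R) :=
      (Matrix.GeneralLinearGroup.map (algebraMap R (FractionRing R))).comp K.subtype
    have hι : Function.Injective ι := (glFrac_injective R d).comp K.subtype_injective
    have h3 : Group.IsNilpotent ι.range := by
      refine uni_nilpotent ι.range ?_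
      rintro _ ⟨⟨x, hx⟩, rfl⟩
      obtain ⟨u, hu, rfl⟩ := hK' x hx
      have h4 : (ρ u : MN d R).trace = d := by
        refine sub_eq_zero.1 (hj _ ((intCh_trace _ (hch u)).sub (isIntegral_natCast' d)) ?_)
        rw [map_sub, ← e0, hφ u hu, map_natCast, sub_self]
      have e4 : ((ρ u : MN d R).map (algebraMap R (FractionRing R))).trace =
          algebraMap R (FractionRing R) (ρ u : MN d R).trace := by
        rw [Matrix.trace, Matrix.trace, map_sum]
        rfl
      change ((ρ u : MN d R).map (algebraMap R (FractionRing R))).trace = d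
      rw [e4, h4, map_natCast]
    exact eam_of_ea (ea_iso (MonoidHom.ofInjective hι).symm (ea_of_nilpotent ι.range))

end Dom

end Pool.Agent.ZI
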