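import Mathlib
import Pool.Agent.Lib.MP_8f66f0_al_ZI.IntA
import Pool.Agent.Lib.MP_8f66f0_al_ZN.LQS

/-! Project ZERO, part I9: finitely generated groups of matrices over commutative rings with
integral characteristic polynomials. -/

set_option autoImplicit false

namespace Pool.Agent.ZI

open Pool.Agent.BN Pool.Agent.FH Pool.Agent.WhVan Pool.Agent.ZN

section

variable {R : Type} [CommRing R] {G : Type} [Group G] {d : ℕ}

/-- The characteristic polynomials of the image under a homomorphism of rings. -/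
theorem intCh_map {S : Type} [CommRing S] (j : R →+* S) (ρ : G →* GN d R) (h : IntCh ρ ⊤) :
    IntCh ((Matrix.GeneralLinearGroup.map j).comp ρ) ⊤ := by
  intro g hg k
  have e1 : (((Matrix.GeneralLinearGroup.map j).comp ρ g : GN d S) : MN d S) =
      (ρ g : MN d R).map j := rfl
  rw [e1, Matrix.charpoly_map, Polynomial.coeff_map]
  exact (h g hg k).map j.toIntAlgHom

/-- The case of a finitely generated ring. -/
theorem int_ft (hK : S_KOL) (hZ : S_ZAR) (hF : S_FAM) (hN : S_NIL) (hft : Algebra.FiniteType ℤ R)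
    (ρ : G →* GN d R) (h : IntCh ρ ⊤) : ∃ (N : ℕ) (φ : G →* GN N ℤ),
      ∀ U : Subgroup G, Finite (U.map φ) → EAm (U.map ρ) := by
  classical
  have hno : IsNoetherianRing R := Algebra.FiniteType.isNoetherianRing ℤ R
  have hfin : (minimalPrimes R).Finite := minimalPrimes.finite_of_isNoetherianRing R
  obtain ⟨k, p, hp⟩ : ∃ (k : ℕ) (p : Fin k → Ideal R), Set.range p = minimalPrimes R := by
    refine ⟨hfin.toFinset.card, fun i => (hfin.toFinset.equivFin.symm i : Ideal R), ?_⟩
    ext q
    constructor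
    · rintro ⟨i, rfl⟩
      exact hfin.mem_toFinset.1 (hfin.toFinset.equivFin.symm i).2
    · intro hq
      exact ⟨hfin.toFinset.equivFin ⟨q, hfin.mem_toFinset.2 hq⟩, by simp⟩
  have hpr : ∀ i, (p i).IsPrime := by
    intro i
    have : p i ∈ minimalPrimes R := hp ▸ ⟨i, rfl⟩
    exact this.1.1
  let π : ∀ i, GN d R →* GN d (R ⧸ p i) := fun i =>
    Matrix.GeneralLinearGroup.map (Ideal.Quotient.mk (p i))
  have h1 : ∀ i, ∃ (N : ℕ) (φ : G →* GN N ℤ),
      ∀ U : Subgroup G, Finite (U.map φ) → EAm (U.map ((π i).comp ρ)) := by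
    intro i
    have := hpr i
    have hft' : Algebra.FiniteType ℤ (R ⧸ p i) :=
      Algebra.FiniteType.of_surjective (Ideal.Quotient.mk (p i)).toIntAlgHom
        Ideal.Quotient.mk_surjective
    exact int_dom hK hZ hft' ((π i).comp ρ) (intCh_map _ ρ h)
  choose N φ hφ using h1
  obtain ⟨M, ψ, hψ⟩ := comb N φ
  refine ⟨M, ψ, fun U hU => ?_⟩
  refine hF (U.map ρ) k (fun i => GN d (R ⧸ p i)) (fun i => (π i).comp (U.map ρ).subtype) ?_ ?_
  · intro i
    have h2 : Finite (U.map (φ i)) := by
      have h3 : ∀ u v : G, ψ u = ψ v → φ i u = φ i v := by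
        intro u v huv
        have h4 := hψ (u⁻¹ * v) (by rw [map_mul, map_inv, huv, inv_mul_cancel]) i
        rw [map_mul, map_inv, inv_mul_eq_one] at h4
        exact h4
      have h5 : ∀ y : U.map ψ, ∃ u ∈ U, ψ u = y := fun y => y.2
      choose s hs1 hs2 using h5
      refine Finite.of_surjective (fun y : U.map ψ => (⟨φ i (s y), s y, hs1 y, rfl⟩ :
        U.map (φ i))) ?_
      rintro ⟨_, u, hu, rfl⟩
      refine ⟨⟨ψ u, u, hu, rfl⟩, ?_⟩
      apply Subtype.ext
      exact h3 _ _ (hs2 ⟨ψ u, u, hu, rfl⟩)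
    have h3 := hφ i U h2
    have h4 : ((π i).comp (U.map ρ).subtype).range = U.map ((π i).comp ρ) := by
      rw [MonoidHom.range_eq_map, ← Subgroup.map_map, ← Subgroup.map_map]
      congr 1
      rw [← MonoidHom.range_eq_map, Subgroup.range_subtype]
    rw [h4]
    exact h3
  · intro K hK'
    obtain ⟨m, hm⟩ := IsNoetherianRing.isNilpotent_nilradical R
    refine hN R (nilradical R) m hm d K ((U.map ρ).subtype.comp K.subtype)
      ((U.map ρ).subtype_injective.comp K.subtype_injective) ?_
    rintro ⟨g, hg⟩ a b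
    have h2 : ∀ i, ((g : GN d R) : MN d R) a b - (1 : MN d R) a b ∈ p i := by
      intro i
      rw [← Ideal.Quotient.eq_zero_iff_mem, map_sub]
      have h3 : ((π i (g : GN d R) : GN d (R ⧸ p i)) : MN d (R ⧸ p i)) = 1 := by
        rw [show π i (g : GN d R) = 1 from hK' g hg i, Units.val_one]
      have h4 := congrFun (congrFun h3 a) b
      have h5 : ((π i (g : GN d R) : GN d (R ⧸ p i)) : MN d (R ⧸ p i)) a b =
        Ideal.Quotient.mk (p i) (((g : GN d R) : MN d R) a b) := rfl
      rw [h5] at h4
      rw [h4, Matrix.one_apply, Matrix.one_apply]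
      split_ifs
      · rw [map_one, sub_self]
      · rw [map_zero, sub_self]
    have h3 : nilradical R = sInf (minimalPrimes R) := by
      rw [nilradical, ← Ideal.sInf_minimalPrimes]
      rfl
    change ((g : GN d R) : MN d R) a b - (1 : MN d R) a b ∈ nilradical R
    rw [h3, Ideal.mem_sInf]
    intro I hI
    rw [← hp] at hI
    obtain ⟨i, rfl⟩ := hI
    exact h2 i

end

/-- I9. -/
theorem int_all (hK : S_KOL) (hZ : S_ZAR) (hF : S_FAM) (hN : S_NIL) : S_INT := by
  classical
  intro d R _ G _ hfg ρ hch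
  obtain ⟨S, hS⟩ := Group.fg_def.1 hfg
  let T : Finset R := S.biUnion fun s => (Finset.univ : Finset (Fin d × Fin d)).biUnion fun q =>
    {(ρ s : MN d R) q.1 q.2, (ρ s⁻¹ : MN d R) q.1 q.2}
  let R0 : Subalgebra ℤ R := Algebra.adjoin ℤ (T : Set R)
  have hmem : ∀ g : G, ∀ i k, (ρ g : MN d R) i k ∈ R0 ∧ (ρ g⁻¹ : MN d R) i k ∈ R0 := by
    intro g
    have hg : g ∈ Subgroup.closure (S : Set G) := by
      rw [hS]
      exact Subgroup.mem_top g
    induction hg using Subgroup.closure_induction with
    | mem x hx =>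
      intro i k
      constructor
      · apply Algebra.subset_adjoin
        simp only [T, Finset.coe_biUnion, Set.mem_iUnion]
        exact ⟨x, hx, (i, k), by simp, by simp⟩
      · apply Algebra.subset_adjoin
        simp only [T, Finset.coe_biUnion, Set.mem_iUnion]
        exact ⟨x, hx, (i, k), by simp, by simp⟩
    | one =>
      intro i k
      rw [inv_one, map_one]
      have h1 : ((1 : GN d R) : MN d R) i k ∈ R0 := by
        rw [Units.val_one, Matrix.one_apply]
        split_ifs
        · exact R0.one_mem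
        · exact R0.zero_mem
      exact ⟨h1, h1⟩
    | mul x y _ _ hx hy =>
      intro i k
      rw [mul_inv_rev, map_mul, map_mul, Units.val_mul, Units.val_mul, Matrix.mul_apply,
        Matrix.mul_apply]
      exact ⟨R0.sum_mem fun l _ => R0.mul_mem (hx i l).1 (hy l k).1,
        R0.sum_mem fun l _ => R0.mul_mem (hy i l).2 (hx l k).2⟩
    | inv x _ hx =>
      intro i k
      rw [inv_inv]
      exact ⟨(hx i k).2, (hx i k).1⟩
  let J : G →* MN d R0 :=
    { toFun := fun g => Matrix.of fun i k => ⟨(ρ g : MN d R) i k, (hmem g i k).1⟩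
      map_one' := by
        ext i k
        change (ρ 1 : MN d R) i k = (((1 : MN d R0) i k : R0) : R)
        rw [map_one, Units.val_one, Matrix.one_apply, Matrix.one_apply]
        split_ifs <;> rfl
      map_mul' := by
        intro x y
        ext i k
        have e1 : (ρ (x * y) : MN d R) i k = ∑ l, (ρ x : MN d R) i l * (ρ y : MN d R) l k := by
          rw [map_mul, Units.val_mul, Matrix.mul_apply]
        refine e1.trans ?_
        rw [Matrix.mul_apply, AddSubmonoidClass.coe_finsetSum]
        rfl }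
  let u : G →* GN d R0 := J.toHomUnits
  have hft : Algebra.FiniteType ℤ R0 := by
    rw [← Subalgebra.fg_iff_finiteType]
    exact Subalgebra.fg_adjoin_finset T
  have hu : ∀ g, (ρ g : MN d R) = (u g : MN d R0).map R0.val.toRingHom := fun g => rfl
  have hch' : IntCh u ⊤ := by
    intro g hg k
    have h1 := hch g hg k
    rw [hu, Matrix.charpoly_map, Polynomial.coeff_map] at h1
    exact (isIntegral_algHom_iff R0.val Subtype.val_injective).1 h1
  obtain ⟨N, φ, hφ⟩ := int_ft hK hZ hF hN hft u hch'
  refine ⟨N, φ, fun U hU => ?_⟩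
  have h1 := hφ U hU
  let μ : GN d R0 →* GN d R := Matrix.GeneralLinearGroup.map R0.val.toRingHom
  have h2 : ρ = μ.comp u := by
    ext g : 1
    apply Units.ext
    exact hu g
  have h3 : U.map ρ = (U.map u).map μ := by
    rw [h2, Subgroup.map_map]
  rw [h3]
  exact EAm.quot (μ.subgroupMap (U.map u)) (μ.subgroupMap_surjective (U.map u)) h1

end Pool.Agent.ZI
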