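import Mathlib
import Pool.Agent.Lib.MP_8f66f0_al_ZI.IDefs

/-! Project ZERO, part I9: the theorem of Kolchin in all characteristics. -/

set_option autoImplicit false

namespace Pool.Agent.ZI

open Pool.Agent.BN Pool.Agent.FH

section

variable {F : Type} [Field F]

/-- The trace form is nondegenerate. -/
theorem kol_tr {V : Type} [AddCommGroup V] [Module F V] [FiniteDimensional F V]
    (x : Module.End F V) (h : ∀ y : Module.End F V, LinearMap.trace F V (x * y) = 0) : x = 0 := by
  refine LinearMap.ext fun v => ?_
  refine (Module.forall_dual_apply_eq_zero_iff F (x v)).1 fun φ => ?_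
  have h1 := h (φ.smulRight v)
  have h2 : x * φ.smulRight v = φ.smulRight (x v) := by
    ext w
    simp
  rwa [h2, LinearMap.trace_smulRight] at h1

/-- Simple modules over algebras which are spanned by a group of unipotent elements. -/
theorem kol_simple [IsAlgClosed F] {A V G : Type} [Ring A] [Algebra F A] [AddCommGroup V]
    [Module F V] [FiniteDimensional F V] [Module A V] [IsScalarTower F A V] [IsSimpleModule A V]
    [Group G] (κ : G →* A) (hs : Submodule.span F (Set.range κ) = ⊤)
    (h : ∀ g, IsNilpotent (κ g - 1)) (g : G) (v : V) : κ g • v = v := by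
  classical
  let T : A →ₐ[F] Module.End F V := Algebra.lsmul F F V
  have hsurj : ∀ f : Module.End F V, ∃ a : A, T a = f := by
    intro f
    have hb := (IsSimpleModule.algebraMap_end_bijective_of_isAlgClosed (A := A) (V := V) F).2
    let f' : Module.End (Module.End A V) V :=
      { toFun := f
        map_add' := f.map_add
        map_smul' := by
          intro φ x
          obtain ⟨c, rfl⟩ := hb φ
          change f (c • x) = c • f x
          exact f.map_smul c x }
    let b := Module.finBasis F V
    obtain ⟨a, ha⟩ := jacobson_density f' (Finset.univ.image b)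
    refine ⟨a, b.ext fun i => ?_⟩
    exact (ha (b i) (Finset.mem_image_of_mem _ (Finset.mem_univ i))).symm
  have hnil : ∀ g, LinearMap.trace F V (T (κ g)) = Module.finrank F V := by
    intro g
    have h1 : IsNilpotent (T (κ g - 1)) := (h g).map T
    have h2 := (LinearMap.isNilpotent_trace_of_isNilpotent h1).eq_zero
    rw [map_sub, map_one, map_sub, LinearMap.trace_one, sub_eq_zero] at h2
    exact h2
  have hz : ∀ (g : G) (a : A), LinearMap.trace F V ((T (κ g) - 1) * T a) = 0 := by
    intro g a
    have h1 : a ∈ Submodule.span F (Set.range κ) := hs ▸ Submodule.mem_top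
    induction h1 using Submodule.span_induction with
    | mem x hx =>
      obtain ⟨k, rfl⟩ := hx
      rw [sub_mul, one_mul, map_sub, ← map_mul, ← map_mul, hnil, hnil, sub_self]
    | zero => rw [map_zero, mul_zero, map_zero]
    | add x y hx hy h1 h2 => rw [map_add, mul_add, map_add, h1, h2, add_zero]
    | smul c x hx h1 => rw [map_smul, mul_smul_comm, map_smul, h1, smul_zero]
  have hone : T (κ g) = 1 := by
    refine sub_eq_zero.1 (kol_tr _ fun y => ?_)
    obtain ⟨a, rfl⟩ := hsurj y
    exact hz g a
  exact LinearMap.congr_fun hone v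

/-- Fixed vectors of groups of unipotent endomorphisms. -/
theorem kol_fix [IsAlgClosed F] {V : Type} [AddCommGroup V] [Module F V] [FiniteDimensional F V]
    [Nontrivial V] {G : Type} [Group G] (ρ : G →* Module.End F V)
    (h : ∀ g, IsNilpotent (ρ g - 1)) : ∃ v : V, v ≠ 0 ∧ ∀ g, ρ g v = v := by
  classical
  let A : Subalgebra F (Module.End F V) := Algebra.adjoin F (Set.range ρ)
  have hA : ∀ g, ρ g ∈ A := fun g => Algebra.subset_adjoin ⟨g, rfl⟩
  let κ : G →* A :=
    { toFun := fun g => ⟨ρ g, hA g⟩
      map_one' := Subtype.ext (map_one ρ)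
      map_mul' := fun g k => Subtype.ext (map_mul ρ g k) }
  have hκ : Submodule.span F (Set.range κ) = ⊤ := by
    rw [eq_top_iff]
    rintro ⟨a, ha⟩ -
    have h1 : a ∈ Submodule.span F (Set.range ρ) := by
      have h2 : a ∈ Subalgebra.toSubmodule A := ha
      rw [Algebra.adjoin_eq_span] at h2
      have h3 : (Submonoid.closure (Set.range ρ) : Set (Module.End F V)) = Set.range ρ := by
        have := Submonoid.closure_eq (MonoidHom.mrange ρ)
        rw [MonoidHom.coe_mrange] at this
        rw [this, MonoidHom.coe_mrange]
      rwa [h3] at h2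
    have h4 : Set.range ρ = A.val.toLinearMap '' Set.range κ := by
      rw [← Set.range_comp]
      rfl
    rw [h4, Submodule.span_image] at h1
    obtain ⟨b, hb, hb'⟩ := h1
    have : b = ⟨a, ha⟩ := Subtype.ext hb'
    rwa [← this]
  have hn : ∀ g, IsNilpotent (κ g - 1) := by
    intro g
    obtain ⟨k, hk⟩ := h g
    exact ⟨k, Subtype.ext hk⟩
  have iA : IsArtinian A V := isArtinian_of_tower F inferInstance
  obtain ⟨m, hm⟩ := IsAtomic.exists_atom (Submodule A V)
  have hsm : IsSimpleModule A m := isSimpleModule_iff_isAtom.2 hm
  have hfd : FiniteDimensional F m :=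
    FiniteDimensional.of_injective (m.subtype.restrictScalars F) Subtype.val_injective
  have hnt : Nontrivial m := IsSimpleModule.nontrivial A m
  obtain ⟨v, hv⟩ := exists_ne (0 : m)
  refine ⟨v, fun h0 => hv (Subtype.ext h0), fun g => ?_⟩
  exact congrArg Subtype.val (kol_simple (F := F) κ hκ hn g v)

/-- Groups of unipotent endomorphisms are elementary amenable. -/
theorem kol_ind [IsAlgClosed F] (n : ℕ) : ∀ (V : Type) [AddCommGroup V] [Module F V]
    [FiniteDimensional F V], Module.finrank F V = n → ∀ (G : Type) [Group G]
    (ρ : G →* Module.End F V), (∀ g, ρ g = 1 → g = 1) → (∀ g, IsNilpotent (ρ g - 1)) → EAm G := by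
  induction n with
  | zero =>
    intro V _ _ _ hV G _ ρ hinj _
    have h1 : Subsingleton V := Module.finrank_zero_iff.1 hV
    have h2 : Subsingleton G := ⟨fun a b => by
      rw [hinj a (Subsingleton.elim _ _), hinj b (Subsingleton.elim _ _)]⟩
    exact EAm.fin inferInstance
  | succ n ih =>
    intro V _ _ _ hV G _ ρ hinj hnil
    have hnt : Nontrivial V := Module.nontrivial_of_finrank_eq_succ hV
    obtain ⟨v, hv, hfix⟩ := kol_fix ρ hnil
    let W : Submodule F V := Submodule.span F {v}
    have hWf : ∀ g, ∀ w ∈ W, ρ g w = w := by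
      intro g w hw
      obtain ⟨c, rfl⟩ := Submodule.mem_span_singleton.1 hw
      rw [map_smul, hfix]
    have hW : ∀ g, W ≤ W.comap (ρ g) := by
      intro g w hw
      rw [Submodule.mem_comap, hWf g w hw]
      exact hw
    let ρ' : G →* Module.End F (V ⧸ W) :=
      { toFun := fun g => W.mapQ W (ρ g) (hW g)
        map_one' := by
          refine Submodule.linearMap_qext _ (LinearMap.ext fun x => ?_)
          change W.mkQ (ρ 1 x) = W.mkQ x
          rw [map_one]
          rfl
        map_mul' := by
          intro g k
          refine Submodule.linearMap_qext _ (LinearMap.ext fun x => ?_)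
          change W.mkQ (ρ (g * k) x) = W.mkQ (ρ g (ρ k x))
          rw [map_mul]
          rfl }
    have hρ' : ∀ g x, ρ' g (W.mkQ x) = W.mkQ (ρ g x) := fun g x => rfl
    let N : Subgroup G := ρ'.ker
    have hd : Module.finrank F (V ⧸ W) = n := by
      have h1 := W.finrank_quotient_add_finrank
      have h2 : Module.finrank F W = 1 := finrank_span_singleton hv
      omega
    refine EAm.ext N ?_ ?_
    · refine EAm.ab fun a b => Subtype.ext (?_ : (a : G) * b = b * a)
      have key : ∀ x ∈ N, ∀ u, ρ x u - u ∈ W := by
        intro x hx u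
        have h1 : ρ' x = 1 := hx
        have h2 : ρ' x (W.mkQ u) = W.mkQ u := by rw [h1]; rfl
        rw [hρ'] at h2
        have h3 : W.mkQ (ρ x u - u) = 0 := by rw [map_sub, h2, sub_self]
        exact (Submodule.Quotient.mk_eq_zero W).1 h3
      have key2 : ∀ x ∈ N, ∀ y ∈ N, ∀ u, ρ x (ρ y u) = ρ x u + ρ y u - u := by
        intro x _ y hy u
        have h1 := hWf x _ (key y hy u)
        rw [map_sub] at h1
        rw [sub_eq_iff_eq_add] at h1
        rw [h1]
        abel
      have hab : ρ ((a : G) * b) = ρ ((b : G) * a) := by
        refine LinearMap.ext fun u => ?_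
        rw [map_mul, map_mul, Module.End.mul_apply, Module.End.mul_apply, key2 a a.2 b b.2,
          key2 b b.2 a a.2, add_comm]
      have h1 : ρ ((a : G) * b * ((b : G) * a)⁻¹) = 1 := by
        rw [map_mul, hab, ← map_mul, mul_inv_cancel, map_one]
      exact mul_inv_eq_one.1 (hinj _ h1)
    · refine ih (V ⧸ W) hd (G ⧸ N) (QuotientGroup.lift N ρ' le_rfl) ?_ ?_
      · intro g
        induction g using QuotientGroup.induction_on with
        | H g =>
          intro h1
          exact (QuotientGroup.eq_one_iff g).2 h1
      · intro g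
        induction g using QuotientGroup.induction_on with
        | H g =>
          obtain ⟨k, hk⟩ := hnil g
          refine ⟨k, ?_⟩
          have h1 : ∀ (j : ℕ) x, ((ρ' g - 1) ^ j) (W.mkQ x) = W.mkQ (((ρ g - 1) ^ j) x) := by
            intro j
            induction j with
            | zero => intro x; rfl
            | succ j ihj =>
              intro x
              rw [pow_succ, pow_succ, Module.End.mul_apply, Module.End.mul_apply, ← ihj]
              rfl
          refine Submodule.linearMap_qext _ (LinearMap.ext fun x => ?_)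
          refine (h1 k x).trans ?_
          rw [hk]
          simp

end

/-- The theorem of Kolchin. -/
theorem kol : S_KOL := by
  intro F _ d G _ ρ hinj hnil
  let K := AlgebraicClosure F
  let e : MN d K ≃ₐ[K] Module.End K (Fin d → K) := Matrix.toLinAlgEquiv'
  let f : MN d F →+* MN d K := (algebraMap F K).mapMatrix
  let φ : G →* Module.End K (Fin d → K) :=
    (e.toRingEquiv.toRingHom.comp f : MN d F →* Module.End K (Fin d → K)).comp
      ((Units.coeHom (MN d F)).comp ρ)
  have hφ : ∀ g, φ g = e (f (ρ g)) := fun g => rfl
  have hf : Function.Injective f := by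
    intro a b h
    ext i j
    have := congrFun (congrFun h i) j
    exact (algebraMap F K).injective this
  refine kol_ind (F := K) d (Fin d → K) (by simp) G φ ?_ ?_
  · intro g hg
    rw [hφ] at hg
    have h1 : f (ρ g) = 1 := e.injective (by rw [hg, map_one])
    have h2 : ((ρ g : GN d F) : MN d F) = 1 := hf (by rw [h1, map_one])
    exact hinj (Units.ext (by rw [h2, map_one]; rfl))
  · intro g
    rw [hφ]
    have h1 := ((hnil g).map f).map e
    rwa [map_sub, map_one, map_sub, map_one] at h1

end Pool.Agent.ZI
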