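import Mathlib
import Pool.Agent.Lib.MP_8f66f0_al_ZI.IDefs

/-! Project ZERO, part I9: `S_FAM` and `S_NIL`. -/

set_option autoImplicit false

namespace Pool.Agent.ZI

open Pool.Agent.BN Pool.Agent.FH

/-- Extensions, with a homomorphism. -/
theorem eam_of_hom {G Q : Type} [Group G] [Group Q] (f : G →* Q) (h1 : EAm f.ker)
    (h2 : EAm f.range) : EAm G := by
  refine EAm.ext f.ker h1 ?_
  exact EAm.sub (QuotientGroup.quotientKerEquivRange f).toMonoidHom
    (QuotientGroup.quotientKerEquivRange f).injective h2

theorem eam_iso {G H : Type} [Group G] [Group H] (e : H ≃* G) (h : EAm G) : EAm H :=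
  EAm.sub e.toMonoidHom e.injective h

theorem eam_subs {G : Type} [Group G] (h : Subsingleton G) : EAm G := EAm.fin inferInstance

theorem fam : S_FAM := by
  intro G _ k
  induction k generalizing G with
  | zero =>
    intro Q _ f _ h2
    exact eam_iso Subgroup.topEquiv.symm (h2 ⊤ fun g _ i => i.elim0)
  | succ k ih =>
    intro Q _ f h1 h2
    refine eam_of_hom (f (Fin.last k)) ?_ (h1 _)
    let K := (f (Fin.last k)).ker
    refine ih K (fun i => Q i.castSucc) (fun i => (f i.castSucc).comp K.subtype) (fun i => ?_) ?_
    · refine EAm.sub (Subgroup.inclusion (H := ((f i.castSucc).comp K.subtype).range)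
        (K := (f i.castSucc).range) ?_) (Subgroup.inclusion_injective _) (h1 _)
      rintro _ ⟨x, rfl⟩
      exact ⟨x.1, rfl⟩
    · intro K' hK'
      refine eam_iso (K'.equivMapOfInjective K.subtype K.subtype_injective) (h2 _ ?_)
      rintro _ ⟨x, hx, rfl⟩ i
      induction i using Fin.lastCases with
      | last => exact x.2
      | cast i => exact hK' x hx i

theorem nil : S_NIL := by
  intro R _ I m
  induction m generalizing R with
  | zero =>
    intro h d G _ ρ hρ _
    rw [pow_zero, Ideal.one_eq_top] at h
    have h1 : Subsingleton R := by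
      constructor
      intro a b
      have ha : a - b ∈ (⊤ : Ideal R) := trivial
      rw [h] at ha
      exact sub_eq_zero.1 ha
    refine eam_subs ⟨fun a b => hρ (Units.ext (Matrix.ext fun i j => Subsingleton.elim _ _))⟩
  | succ m ih =>
    intro h d G _ ρ hρ hI
    rcases Nat.eq_zero_or_pos m with rfl | hm
    · rw [zero_add, pow_one] at h
      have h1 : ∀ g, ρ g = 1 := by
        intro g
        apply Units.ext
        ext i j
        have h2 := hI g i j
        rw [h] at h2
        exact sub_eq_zero.1 h2
      exact eam_subs ⟨fun a b => hρ ((h1 a).trans (h1 b).symm)⟩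
    · let q : R →+* R ⧸ (I ^ m) := Ideal.Quotient.mk (I ^ m)
      let f : G →* GN d (R ⧸ (I ^ m)) := (Matrix.GeneralLinearGroup.map q).comp ρ
      refine eam_of_hom f ?_ ?_
      · -- the kernel is abelian
        have h1 : ∀ x : f.ker, ∀ i j, (ρ x.1 : MN d R) i j - (1 : MN d R) i j ∈ I ^ m := by
          intro x i j
          have h2 : f x.1 = 1 := x.2
          have h3 := congrArg (fun A : GN d (R ⧸ (I ^ m)) => (A : MN d (R ⧸ (I ^ m))) i j) h2
          have h4 : q ((ρ x.1 : MN d R) i j) = (1 : MN d (R ⧸ (I ^ m))) i j := h3
          have h5 : (1 : MN d (R ⧸ (I ^ m))) i j = q ((1 : MN d R) i j) := by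
            rw [Matrix.one_apply, Matrix.one_apply]
            split_ifs
            · exact (map_one q).symm
            · exact (map_zero q).symm
          rw [h5] at h4
          exact Ideal.Quotient.eq.1 h4
        have h2 : ∀ a b, a ∈ I ^ m → b ∈ I ^ m → a * b = 0 := by
          intro a b ha hb
          have h3 : a * b ∈ I ^ (m + m) := by
            rw [pow_add]
            exact Ideal.mul_mem_mul ha hb
          have h4 : I ^ (m + m) ≤ I ^ (m + 1) := Ideal.pow_le_pow_right (by omega)
          have h5 := h4 h3
          rw [h] at h5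
          exact h5
        have h3 : ∀ x y : f.ker, ((ρ x.1 : MN d R) - 1) * ((ρ y.1 : MN d R) - 1) = 0 := by
          intro x y
          ext i j
          rw [Matrix.mul_apply, Matrix.zero_apply]
          exact Finset.sum_eq_zero fun k _ => h2 _ _ (h1 x i k) (h1 y k j)
        refine EAm.ab fun x y => Subtype.ext (hρ (Units.ext ?_))
        change (ρ (x.1 * y.1) : MN d R) = (ρ (y.1 * x.1) : MN d R)
        rw [map_mul, map_mul, Units.val_mul, Units.val_mul]
        have h4 := h3 x y
        have h5 := h3 y x
        rw [sub_mul, mul_sub, mul_sub, one_mul, mul_one, one_mul] at h4 h5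
        have h6 := sub_eq_zero.1 h4
        have h7 := sub_eq_zero.1 h5
        have h8 : (ρ x.1 : MN d R) * (ρ y.1 : MN d R) =
            (ρ y.1 : MN d R) - 1 + (ρ x.1 : MN d R) := by
          rw [← h6]
          abel
        have h9 : (ρ y.1 : MN d R) * (ρ x.1 : MN d R) =
            (ρ x.1 : MN d R) - 1 + (ρ y.1 : MN d R) := by
          rw [← h7]
          abel
        rw [h8, h9]
        abel
      · refine ih (R ⧸ (I ^ m)) (I := I.map q) ?_ d f.range f.range.subtype
          f.range.subtype_injective ?_
        · rw [← Ideal.map_pow]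
          exact Ideal.map_quotient_self _
        · rintro ⟨_, x, rfl⟩ i j
          have h5 : (1 : MN d (R ⧸ (I ^ m))) i j = q ((1 : MN d R) i j) := by
            rw [Matrix.one_apply, Matrix.one_apply]
            split_ifs
            · exact (map_one q).symm
            · exact (map_zero q).symm
          change q ((ρ x : MN d R) i j) - (1 : MN d (R ⧸ (I ^ m))) i j ∈ _
          rw [h5, ← map_sub]
          exact Ideal.mem_map_of_mem q (hI x i j)

end Pool.Agent.ZI
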