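import Mathlib
import Pool.Agent.Lib.MP_8f66f0_al_ZI.IDefs
import Pool.Agent.Lib.MP_8f66f0_al_BN.SpzC

/-! Project ZERO, part I9: the theorem `zar : S_ZAR` (specialisations of finitely generated domains
to finite fields and number fields). -/

set_option autoImplicit false

namespace Pool.Agent.ZI

open TensorProduct

/-- Positive characteristic. -/
theorem zar_p (R : Type) [CommRing R] [IsDomain R] (hR : Algebra.FiniteType ℤ R) (p : ℕ)
    [Fact p.Prime] [CharP R p] :
    ∃ (L : Type) (_ : Field L) (_ : Finite L) (j : R →+* L),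
      ∀ x, IsIntegral ℤ x → j x = 0 → x = 0 := by
  obtain ⟨m, hm⟩ := Ideal.exists_maximal R
  letI : Field (R ⧸ m) := Ideal.Quotient.field m
  let _ : Algebra (ZMod p) R := ZMod.algebra R p
  have : Algebra.FiniteType (ZMod p) R := by
    have : IsScalarTower ℤ (ZMod p) R := inferInstance
    exact Algebra.FiniteType.of_restrictScalars_finiteType ℤ (ZMod p) R
  have : Algebra.FiniteType (ZMod p) (R ⧸ m) :=
    Algebra.FiniteType.of_surjective (Ideal.Quotient.mkₐ (ZMod p) m)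
      (Ideal.Quotient.mkₐ_surjective (ZMod p) m)
  have : Module.Finite (ZMod p) (R ⧸ m) :=
    finite_of_finite_type_of_isJacobsonRing (ZMod p) (R ⧸ m)
  refine ⟨R ⧸ m, inferInstance, Module.finite_of_finite (ZMod p), Ideal.Quotient.mk m, ?_⟩
  intro x hx hx0
  by_contra h0
  have h1 : IsIntegral (ZMod p) x := hx.tower_top
  have h2 : IsUnit x := h1.isUnit h0
  rw [Ideal.Quotient.eq_zero_iff_mem] at hx0
  exact hm.ne_top (Ideal.eq_top_of_isUnit_mem m hx0 h2)

/-- Characteristic zero. -/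
theorem zar_0 (R : Type) [CommRing R] [IsDomain R] (hR : Algebra.FiniteType ℤ R) [CharZero R] :
    ∃ (L : Type) (_ : Field L) (_ : NumberField L) (j : R →+* L),
      ∀ x, IsIntegral ℤ x → j x = 0 → x = 0 := by
  have : Nontrivial (ℚ ⊗[ℤ] R) := by
    have h1 : Function.Injective (algebraMap ℤ R) := by
      intro a b hab
      simpa using hab
    have h2 : Function.Injective (LinearMap.lTensor ℚ (Algebra.linearMap ℤ R)) :=
      Module.Flat.lTensor_preserves_injective_linearMap _ h1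
    have : Nontrivial (ℚ ⊗[ℤ] ℤ) := (TensorProduct.rid ℤ ℚ).toEquiv.nontrivial
    exact h2.nontrivial
  obtain ⟨M, hM⟩ := Ideal.exists_maximal (ℚ ⊗[ℤ] R)
  letI : Field ((ℚ ⊗[ℤ] R) ⧸ M) := Ideal.Quotient.field M
  have : Algebra.FiniteType ℚ ((ℚ ⊗[ℤ] R) ⧸ M) :=
    Algebra.FiniteType.of_surjective (Ideal.Quotient.mkₐ ℚ M)
      (Ideal.Quotient.mkₐ_surjective ℚ M)
  have h3 : Module.Finite ℚ ((ℚ ⊗[ℤ] R) ⧸ M) :=
    finite_of_finite_type_of_isJacobsonRing ℚ ((ℚ ⊗[ℤ] R) ⧸ M)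
  have h4 : CharZero ((ℚ ⊗[ℤ] R) ⧸ M) := algebraRat.charZero _
  let j : R →+* ((ℚ ⊗[ℤ] R) ⧸ M) :=
    (Ideal.Quotient.mk M).comp (Algebra.TensorProduct.includeRight (R := ℤ) (A := ℚ)
      (B := R)).toRingHom
  have h5 : NumberField ((ℚ ⊗[ℤ] R) ⧸ M) :=
    { to_charZero := h4
      to_finiteDimensional := by
        have h6 : ∀ (a b : Algebra ℚ ((ℚ ⊗[ℤ] R) ⧸ M)),
            @Module.Finite ℚ ((ℚ ⊗[ℤ] R) ⧸ M) _ _ a.toModule →
            @Module.Finite ℚ ((ℚ ⊗[ℤ] R) ⧸ M) _ _ b.toModule := by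
          intro a b h
          rw [Subsingleton.elim b a]
          exact h
        exact h6 (Ideal.Quotient.algebra ℚ) _ h3 }
  refine ⟨(ℚ ⊗[ℤ] R) ⧸ M, inferInstance, h5, j, ?_⟩
  intro x hx hx0
  refine Pool.Agent.WhVan.integral_mem (P := RingHom.ker j) ?_ hx hx0
  intro n hn
  rw [RingHom.mem_ker, map_intCast] at hn
  exact_mod_cast hn

theorem zar : S_ZAR := by
  intro R _ _ hR
  obtain ⟨p, hp⟩ := CharP.exists R
  rcases CharP.char_is_prime_or_zero R p with h | h
  · have : Fact p.Prime := ⟨h⟩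
    exact Or.inl (zar_p R hR p)
  · subst h
    have : CharZero R := CharP.charP_to_charZero R
    exact Or.inr (zar_0 R hR)

end Pool.Agent.ZI
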