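import Mathlib
import Pool.Agent.Lib.MP_8f66f0_al_ZI.Int
import Pool.Agent.Lib.MP_8f66f0_al_ZI.Kol
import Pool.Agent.Lib.MP_8f66f0_al_ZI.Zar
import Pool.Agent.Lib.MP_8f66f0_al_ZI.Nil

/-! Project ZERO, part I9: `S_INT`. -/

set_option autoImplicit false

namespace Pool.Agent.ZI

open Pool.Agent.ZN

/-- Groups of matrices with integral characteristic polynomials. -/
theorem int_fin : S_INT := int_all kol zar fam nil

end Pool.Agent.ZI
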