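import Mathlib

/-! Automorphisms of orders: the family of subgroups which is used in the induction. -/

set_option autoImplicit false

namespace Pool.Agent.ZI

/-- The trace of the left multiplication. -/
noncomputable def tr (K : Type) {B : Type} [Field K] [Ring B] [Algebra K B] : B →ₗ[K] K :=
  (LinearMap.trace K B).comp (Algebra.lmul K B).toLinearMap

/-- The trace form is nondegenerate. -/
def ND (K B : Type) [Field K] [Ring B] [Algebra K B] : Prop :=
  ∀ x : B, (∀ y, tr K (x * y) = 0) → x = 0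

/-- `O` is an order of the finite dimensional `ℚ`-algebra `B` with nondegenerate trace form. -/
structure Ord (B : Type) [Ring B] [Algebra ℚ B] (O : Subring B) : Prop where
  fin : Module.Finite ℚ B
  nd : ND ℚ B
  fg : O.toAddSubgroup.FG
  span : ∀ x : B, ∃ n : ℕ, 0 < n ∧ (n : ℚ) • x ∈ O

/-- A right ideal which contains a nonzero element `x` with `x I = 0`. -/
structure Idl (B : Type) [Ring B] [Algebra ℚ B] (I : Submodule ℚ B) : Prop where
  right : ∀ x ∈ I, ∀ y : B, x * y ∈ I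
  ann : ∃ x ∈ I, x ≠ 0 ∧ ∀ y ∈ I, x * y = 0

/-- The family of subgroups of a group which acts on `B`. -/
inductive Fam {Γ B : Type} [Group Γ] [Ring B] [Algebra ℚ B] (ρ : Γ →* (B ≃ₐ[ℚ] B))
    (U : Subgroup Γ) : Prop
  /-- `U` acts through a finite group. -/
  | fin : Finite (U.map ρ) → Fam ρ U
  /-- `U` stabilizes a right ideal. -/
  | idl (I : Submodule ℚ B) : Idl B I → (∀ g ∈ U, ∀ x ∈ I, ρ g x ∈ I) → Fam ρ U
  /-- `U` centralizes a semisimple automorphism `δ ≠ 1`. -/
  | nrm (δ : B ≃ₐ[ℚ] B) : δ ≠ 1 → Module.End.IsSemisimple (δ.toLinearMap : Module.End ℚ B) →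
      (∀ g ∈ U, ρ g * δ = δ * ρ g) → Fam ρ U

/-- If all subgroups of the family have the property `P`, then the group has the property `Q`. -/
def S_Geo (P Q : (G : Type) → [Group G] → Prop) : Prop :=
  ∀ (Γ B : Type) [Group Γ] [Ring B] [Algebra ℚ B] (O : Subring B) (ρ : Γ →* (B ≃ₐ[ℚ] B)),
    Ord B O → (∀ g, ∀ x ∈ O, ρ g x ∈ O) → (∀ U : Subgroup Γ, Fam ρ U → P U) → Q Γ

/-- The conclusion for all orders. -/
def S_Ord (P : (G : Type) → [Group G] → Prop) : Prop :=
  ∀ (Γ B : Type) [Group Γ] [Ring B] [Algebra ℚ B] (O : Subring B) (ρ : Γ →* (B ≃ₐ[ℚ] B)),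
    Ord B O → (∀ g, ∀ x ∈ O, ρ g x ∈ O) → (∀ U : Subgroup Γ, Finite (U.map ρ) → P U) → P Γ

/-- The conclusion for `GL_n(ℤ)`. -/
def S_Zero (P : (G : Type) → [Group G] → Prop) : Prop :=
  ∀ (Γ : Type) [Group Γ] (n : ℕ) (θ : Γ →* Matrix.GeneralLinearGroup (Fin n) ℤ),
    (∀ U : Subgroup Γ, Finite (U.map θ) → P U) → P Γ

end Pool.Agent.ZI
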