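import Mathlib
import Pool.Agent.Lib.MP_8f66f0_al_ZI.Defs

/-! Project ZERO, part I: every real algebra with nondegenerate trace form has a positive
involution. Statements; the proofs in words are in the docstrings. (Every module is independent:
the other statements are hypotheses.) -/

set_option autoImplicit false

namespace Pool.Agent.ZI

open scoped TensorProduct

/-- A positive involution `s` of a real algebra, for a linear form `τ`. -/
def HasPos (C : Type) [Ring C] [Algebra ℝ C] : Prop :=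
  ∃ (s : C →ₗ[ℝ] C) (τ : C →ₗ[ℝ] ℝ), (∀ x y, s (x * y) = s y * s x) ∧ (∀ x, s (s x) = x) ∧
    (∀ x y, τ (s x * y) = τ (s y * x)) ∧ ∀ x, x ≠ 0 → 0 < τ (s x * x)

/-- (P0) `τ` may be replaced by the regular trace.
Proof. `⟪a, b⟫ = τ (s a * b)` is a symmetric positive definite bilinear form on the finite
dimensional space `C`. `⟪x a, b⟫ = τ (s a * s x * b) = ⟪a, s x * b⟫`: the left multiplication by
`s x` is the adjoint of the left multiplication by `x`. So with the Gram matrix `G` of a basis and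
the matrix `M` of the left multiplication by `x` the matrix of the left multiplication by `s x` is
`G⁻¹ Mᵀ G`. Symmetry: `tr (s x * y) = tr (G⁻¹ M_xᵀ G M_y)`, which is equal to its transposed version
`tr (M_yᵀ G M_x G⁻¹) = tr (G⁻¹ M_yᵀ G M_x)`. Positivity: choose the basis orthonormal
(`G = 1`; `LinearMap.BilinForm` / `InnerProductSpace.ofCore`), then `tr (Mᵀ M)` is the sum of the
squares of the entries of `M`, and `M ≠ 0` because `x = x * 1 ≠ 0`. -/
def S_P0 : Prop :=
  ∀ (C : Type) [Ring C] [Algebra ℝ C] [Module.Finite ℝ C], HasPos C →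
    ∃ s : C →ₗ[ℝ] C, (∀ x y, s (x * y) = s y * s x) ∧ (∀ x, s (s x) = x) ∧
      (∀ x y, tr ℝ (s x * y) = tr ℝ (s y * x)) ∧ ∀ x, x ≠ 0 → 0 < tr ℝ (s x * x)

/-- (P1a) Proof. Let `b` be a basis of `V` and `⟪x, y⟫` the standard scalar product in this basis,
`b(x, y) = ⟪x, y⟫ + ⟪J x, J y⟫`, symmetric and positive definite, `b(J x, y) = - b(x, J y)`
(`J² = -1`). With the matrix `M` of `J` and the Gram matrix `G = 1 + Mᵀ M` (positive definite, so
invertible): `Mᵀ G = - G M` (check: `Mᵀ + Mᵀ Mᵀ M = Mᵀ - M` because `M M = -1`;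
`- M - Mᵀ M M = - M + Mᵀ`). So `M = - G⁻¹ Mᵀ G` and `tr M = - tr Mᵀ = - tr M`. -/
def S_P1a : Prop :=
  ∀ (V : Type) [AddCommGroup V] [Module ℝ V] [Module.Finite ℝ V] (J : V →ₗ[ℝ] V),
    (∀ x, J (J x) = -x) → LinearMap.trace ℝ V J = 0

/-- (P1) Proof. `n = dim D`, `t = (1/n) tr`, so `t 1 = 1`, `t (x y) = t (y x)` (`tr_comm` in
`ZI/Tr`). Claim: `t u = 0`, `u ≠ 0` implies `u * u = -k` with a real number `k > 0`. The minimal
polynomial of `u` is irreducible (`minpoly.irreducible`, `D` has no zero divisors) of degree at most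
`2` (`Irreducible.degree_le_two`). Degree `1`: `u = a` real, `n a = 0`, `u = 0`. Degree `2`:
`u² + b u + c = 0`, not split: `b² < 4 c`; `v = u + b/2`, `v² = -(c - b²/4) = -k`, `k > 0`,
`J = v / √k`, `J² = -1`, so the trace of `J` is `0` by (P1a), `t v = 0`, `b/2 = t v - t u = 0`,
`u² = -c`.
Put `s x = 2 (t x) - x`. `s (s x) = x`. For `u`, `v` with `t u = t v = 0`: `u v + v u =
(u + v)² - u² - v²` is real, and equal to `2 t (u v)`; so `s (u v) = 2 t (u v) - u v = v u =
s v * s u`; by linearity `s (x y) = s y * s x` (write `x = t x + u`). `τ = t`: for `x = a + u`: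
`s x * x = (a - u)(a + u) = a² - u²`, positive for `x ≠ 0`. Symmetry: `t (s z) = t z`, and
`s (s x * y) = s y * x`. -/
def S_P1 : Prop :=
  ∀ (D : Type) [DivisionRing D] [Algebra ℝ D] [Module.Finite ℝ D], HasPos D

/-- (P2) Matrices. Proof. `s A = (s (A j i))_{i j}` (conjugate transpose), `τ A = ∑ τ (A i i)`.
`τ (s A * B) = ∑_{i j} τ (s (A j i) * B j i)`. -/
def S_P2 : Prop :=
  ∀ (D : Type) [Ring D] [Algebra ℝ D] (n : ℕ), HasPos D → HasPos (Matrix (Fin n) (Fin n) D)

/-- (P3) Finite products. Proof. Componentwise, `τ x = ∑ τ_i (x i)`. -/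
def S_P3 : Prop :=
  ∀ (n : ℕ) (C : Fin n → Type) [∀ i, Ring (C i)] [∀ i, Algebra ℝ (C i)],
    (∀ i, HasPos (C i)) → HasPos (∀ i, C i)

/-- (P4) Proof. `C` is an artinian ring; its Jacobson radical `J` is nilpotent. For `x ∈ J` and all
`y` the element `x * y` is in `J` (`J` is a two-sided ideal), so nilpotent, so
`tr (x * y) = 0` (`tr_nil` in `ZI/Tr`), so `x = 0`. So `C` is semisimple
(`IsArtinianRing.isSemisimpleRing_iff_jacobson`), and
`IsSemisimpleRing.exists_algEquiv_pi_matrix_divisionRing_finite ℝ C` gives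
`C ≃ₐ[ℝ] Π i, Matrix (Fin (d i)) (Fin (d i)) (D i)` with finite dimensional division algebras `D i`.
Use (P1), (P2), (P3) and transport along the isomorphism. -/
def S_P4 : Prop :=
  S_P1 → S_P2 → S_P3 → ∀ (C : Type) [Ring C] [Algebra ℝ C] [Module.Finite ℝ C], ND ℝ C → HasPos C

/-- The trace form of a ring which is free and finite over `ℤ` is nondegenerate. -/
def NDZ (O : Type) [Ring O] : Prop :=
  ∀ x : O, (∀ y, LinearMap.trace ℤ O (LinearMap.mulLeft ℤ (x * y)) = 0) → x = 0

/-- (P5) The trace form of the extension to the real numbers is nondegenerate.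
Proof. Let `e` be a basis of `O`; the elements `1 ⊗ e i` are a basis of `ℝ ⊗ O`
(`Module.Basis.baseChange` / `Algebra.TensorProduct.basis`), and `tr (1 ⊗ x) = tr x`
(`LinearMap.trace_baseChange`). The Gram matrix of the trace form in the basis `1 ⊗ e i` is the
image of the integral Gram matrix of `e`, whose determinant is not `0` (`Matrix.det` and
`Matrix.nondegenerate_of_det_ne_zero`, `LinearMap.BilinForm.nondegenerate_iff_det_ne_zero`). -/
def S_P5 : Prop :=
  ∀ (O : Type) [Ring O] [Module.Free ℤ O] [Module.Finite ℤ O], NDZ O → ND ℝ (ℝ ⊗[ℤ] O)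

end Pool.Agent.ZI
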