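import Pool.Agent.Lib.MP_8f66f0_al_ZI.Tr
import Pool.Agent.Lib.MP_8f66f0_al_ZI.SpecP

/-! Orders as rings which are free and finite over `ℤ`. -/

set_option autoImplicit false

namespace Pool.Agent.ZI

open scoped TensorProduct

section

variable {O : Type} [Ring O]

theorem exists_den (z : ℚ ⊗[ℤ] O) : ∃ (n : ℕ) (o : O), 0 < n ∧ (n : ℚ) • z = 1 ⊗ₜ[ℤ] o := by
  induction z using TensorProduct.induction_on with
  | zero => exact ⟨1, 0, one_pos, by rw [smul_zero, TensorProduct.tmul_zero]⟩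
  | tmul q x =>
    refine ⟨q.den, q.num • x, q.den_pos, ?_⟩
    rw [TensorProduct.smul_tmul', smul_eq_mul, mul_comm, Rat.mul_den_eq_num,
      TensorProduct.tmul_smul, TensorProduct.smul_tmul']
    congr 1
    rw [zsmul_eq_mul, mul_one]
  | add z w hz hw =>
    obtain ⟨n, o, hn, hz⟩ := hz
    obtain ⟨m, o', hm, hw⟩ := hw
    refine ⟨n * m, m • o + n • o', Nat.mul_pos hn hm, ?_⟩
    rw [TensorProduct.tmul_add, smul_add, Nat.cast_mul, mul_comm (n : ℚ) (m : ℚ), mul_smul, hz,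
      mul_comm (m : ℚ) (n : ℚ), mul_smul, hw]
    congr 1
    · rw [Nat.cast_smul_eq_nsmul, TensorProduct.tmul_smul]
    · rw [Nat.cast_smul_eq_nsmul, TensorProduct.tmul_smul]

theorem tr_one_tmul [Module.Free ℤ O] [Module.Finite ℤ O] (x : O) :
    tr ℚ ((1 : ℚ) ⊗ₜ[ℤ] x) = ((LinearMap.trace ℤ O (LinearMap.mulLeft ℤ x) : ℤ) : ℚ) := by
  have h : Algebra.lmul ℚ (ℚ ⊗[ℤ] O) ((1 : ℚ) ⊗ₜ[ℤ] x) =
      (LinearMap.mulLeft ℤ x).baseChange ℚ := by
    refine LinearMap.ext fun z => ?_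
    induction z using TensorProduct.induction_on with
    | zero => rw [map_zero, map_zero]
    | tmul d y =>
      change ((1 : ℚ) ⊗ₜ[ℤ] x) * (d ⊗ₜ[ℤ] y) = d ⊗ₜ[ℤ] (x * y)
      rw [Algebra.TensorProduct.tmul_mul_tmul, one_mul]
    | add z w hz hw => rw [map_add, map_add, hz, hw]
  rw [tr_apply, h, LinearMap.trace_baseChange]
  rfl

end

theorem tr_equiv {K A B : Type} [Field K] [Ring A] [Algebra K A] [Ring B] [Algebra K B]
    (e : A ≃ₐ[K] B) (x : A) : tr K (e x) = tr K x := by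
  rw [tr_apply, tr_apply]
  have h : Algebra.lmul K B (e x) = e.toLinearEquiv.conj (Algebra.lmul K A x) := by
    ext y
    rw [LinearEquiv.conj_apply_apply]
    change e x * y = e (x * e.symm y)
    rw [map_mul, AlgEquiv.apply_symm_apply]
  rw [h, LinearMap.trace_conj']

section

variable {B : Type} [Ring B] [Algebra ℚ B] {O : Subring B} (hO : Ord B O)

include hO in
theorem Ord.finZ : Module.Finite ℤ O :=
  Module.Finite.iff_addGroup_fg.2 ((AddGroup.fg_iff_addSubgroup_fg O.toAddSubgroup).2 hO.fg)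

include hO in
theorem Ord.freeZ : Module.Free ℤ O := by
  have := hO.finZ
  have : Module.IsTorsionFree ℤ O := by
    refine Module.IsTorsionFree.of_smul_eq_zero fun r x h => ?_
    have h1 : (r : ℚ) • (x : B) = 0 := by
      rw [Int.cast_smul_eq_zsmul]
      exact congrArg Subtype.val h
    rcases smul_eq_zero.1 h1 with h2 | h2
    · exact Or.inl (Int.cast_eq_zero.1 h2)
    · exact Or.inr (Subtype.ext h2)
  infer_instance

variable (O)

/-- The natural map. -/
noncomputable def phiB : (ℚ ⊗[ℤ] O) →ₐ[ℚ] B :=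
  Algebra.TensorProduct.lift (Algebra.ofId ℚ B) O.subtype.toIntAlgHom
    fun q _ => Algebra.commutes q _

theorem phiB_tmul (q : ℚ) (x : O) : phiB O (q ⊗ₜ[ℤ] x) = q • (x : B) := by
  rw [phiB, Algebra.TensorProduct.lift_tmul, Algebra.smul_def]
  rfl

variable {O}

include hO in
theorem phiB_bij : Function.Bijective (phiB O) := by
  constructor
  · rw [injective_iff_map_eq_zero]
    intro z hz
    obtain ⟨n, o, hn, h⟩ := exists_den z
    have h1 := congrArg (phiB O) h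
    rw [map_smul, hz, smul_zero, phiB_tmul, one_smul] at h1
    have h2 : o = 0 := Subtype.ext h1.symm
    rw [h2, TensorProduct.tmul_zero, smul_eq_zero] at h
    exact h.resolve_left (by positivity)
  · intro b
    obtain ⟨n, hn, h⟩ := hO.span b
    refine ⟨(n : ℚ)⁻¹ ⊗ₜ[ℤ] ⟨_, h⟩, ?_⟩
    rw [phiB_tmul, inv_smul_smul₀ (by positivity)]

/-- `B = ℚ ⊗ O`. -/
noncomputable def eB : (ℚ ⊗[ℤ] O) ≃ₐ[ℚ] B := AlgEquiv.ofBijective (phiB O) (phiB_bij hO)

theorem eB_tmul (q : ℚ) (x : O) : eB hO (q ⊗ₜ[ℤ] x) = q • (x : B) := phiB_tmul O q x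

theorem eB_symm (x : O) : (eB hO).symm (x : B) = 1 ⊗ₜ[ℤ] x := by
  rw [AlgEquiv.symm_apply_eq, eB_tmul, one_smul]

include hO in
theorem tr_coe (x : O) :
    tr ℚ (x : B) = ((LinearMap.trace ℤ O (LinearMap.mulLeft ℤ x) : ℤ) : ℚ) := by
  have := hO.finZ
  have := hO.freeZ
  have h1 := tr_equiv (eB hO) ((1 : ℚ) ⊗ₜ[ℤ] x)
  rw [eB_tmul, one_smul] at h1
  rw [h1, tr_one_tmul]

include hO in
theorem Ord.ndz : NDZ O := by
  intro x hx
  refine Subtype.ext (hO.nd _ fun y => ?_)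
  obtain ⟨n, hn, h⟩ := hO.span y
  have h1 := hx ⟨_, h⟩
  have h2 := tr_coe hO (x * ⟨_, h⟩)
  rw [h1, Int.cast_zero] at h2
  change tr ℚ ((x : B) * ((n : ℚ) • y)) = 0 at h2
  rw [mul_smul_comm, map_smul, smul_eq_zero] at h2
  exact h2.resolve_left (by positivity)

include hO in
theorem ext_on_ord {V : Type} [AddCommGroup V] [Module ℚ V] {f f' : B →ₗ[ℚ] V}
    (h : ∀ x ∈ O, f x = f' x) (x : B) : f x = f' x := by
  obtain ⟨n, hn, h1⟩ := hO.span x
  have h2 := h _ h1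
  rw [map_smul, map_smul] at h2
  exact (smul_right_injective V (show (n : ℚ) ≠ 0 by positivity)) h2

/-- The extension of an automorphism of the order. -/
noncomputable def exQ (g : RingAut O) : B ≃ₐ[ℚ] B :=
  ((eB hO).symm.trans
    (Algebra.TensorProduct.congr (AlgEquiv.refl : ℚ ≃ₐ[ℚ] ℚ) (RingEquiv.toIntAlgEquiv g))).trans
      (eB hO)

theorem exQ_coe (g : RingAut O) (x : O) : exQ hO g (x : B) = (g x : O) := by
  change eB hO (Algebra.TensorProduct.congr (AlgEquiv.refl : ℚ ≃ₐ[ℚ] ℚ)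
    (RingEquiv.toIntAlgEquiv g) ((eB hO).symm (x : B))) = _
  rw [eB_symm]
  change eB hO ((1 : ℚ) ⊗ₜ[ℤ] (g x)) = _
  rw [eB_tmul, one_smul]

end

section

variable {Γ B : Type} [Group Γ] [Ring B] [Algebra ℚ B] {O : Subring B} (ρ : Γ →* (B ≃ₐ[ℚ] B))
  (hρ : ∀ g, ∀ x ∈ O, ρ g x ∈ O)

/-- The action on the order. -/
def roO : Γ →* RingAut O where
  toFun g :=
    { toFun := fun x => ⟨ρ g x.1, hρ g x.1 x.2⟩
      invFun := fun x => ⟨ρ g⁻¹ x.1, hρ g⁻¹ x.1 x.2⟩
      left_inv := fun x => Subtype.ext (by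
        change ρ g⁻¹ (ρ g x.1) = x.1
        rw [map_inv]
        exact (ρ g).symm_apply_apply x.1)
      right_inv := fun x => Subtype.ext (by
        change ρ g (ρ g⁻¹ x.1) = x.1
        rw [map_inv]
        exact (ρ g).apply_symm_apply x.1)
      map_mul' := fun x y => Subtype.ext (map_mul (ρ g) x.1 y.1)
      map_add' := fun x y => Subtype.ext (map_add (ρ g) x.1 y.1) }
  map_one' := RingEquiv.ext fun x => Subtype.ext (by
    change ρ 1 x.1 = x.1
    rw [map_one]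
    rfl)
  map_mul' g h := RingEquiv.ext fun x => Subtype.ext (by
    change ρ (g * h) x.1 = ρ g (ρ h x.1)
    rw [map_mul]
    rfl)

theorem roO_coe (g : Γ) (x : O) : (roO ρ hρ g x : B) = ρ g (x : B) := rfl

end

end Pool.Agent.ZI
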