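import Pool.Agent.Lib.MP_8f66f0_al_ZI.Br1

/-! A ring `O` which is free and finite over `ℤ` as an order of `ℚ ⊗ O`. -/

set_option autoImplicit false

namespace Pool.Agent.ZI

open scoped TensorProduct

variable (O : Type) [Ring O]

/-- The image of `O`. -/
noncomputable def rgO : Subring (ℚ ⊗[ℤ] O) :=
  (Algebra.TensorProduct.includeRight : O →ₐ[ℤ] ℚ ⊗[ℤ] O).toRingHom.range

theorem mem_rgO (x : O) : (1 : ℚ) ⊗ₜ[ℤ] x ∈ rgO O := ⟨x, rfl⟩

variable [Module.Free ℤ O] [Module.Finite ℤ O]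

variable {O} in
theorem ord_rgO (h : NDZ O) : Ord (ℚ ⊗[ℤ] O) (rgO O) where
  fin := inferInstance
  nd := by
    intro x hx
    obtain ⟨n, o, hn, h1⟩ := exists_den x
    have h2 : o = 0 := by
      refine h o fun z => ?_
      have h3 := tr_one_tmul (o * z)
      have h4 : (1 : ℚ) ⊗ₜ[ℤ] (o * z) = (n : ℚ) • (x * ((1 : ℚ) ⊗ₜ[ℤ] z)) := by
        rw [← smul_mul_assoc, h1, Algebra.TensorProduct.tmul_mul_tmul, one_mul]
      rw [h4, map_smul, hx, smul_zero] at h3
      exact_mod_cast h3.symm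
    rw [h2, TensorProduct.tmul_zero, smul_eq_zero] at h1
    exact h1.resolve_left (by positivity)
  fg := by
    have h1 : AddGroup.FG O := Module.Finite.iff_addGroup_fg.1 inferInstance
    have h2 : (⊤ : AddSubgroup O).FG := AddGroup.fg_def.1 h1
    rw [AddSubgroup.fg_iff_addSubmonoid_fg] at h2 ⊢
    have h3 := h2.map ((Algebra.TensorProduct.includeRight : O →ₐ[ℤ] ℚ ⊗[ℤ] O) : O →+ ℚ ⊗[ℤ] O)
    refine cast (congrArg AddSubmonoid.FG ?_) h3
    ext z
    constructor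
    · rintro ⟨x, _, rfl⟩
      exact ⟨x, rfl⟩
    · rintro ⟨x, rfl⟩
      exact ⟨x, trivial, rfl⟩
  span x := by
    obtain ⟨n, o, hn, h1⟩ := exists_den x
    refine ⟨n, hn, ?_⟩
    rw [h1]
    exact mem_rgO O o

/-- The action of the automorphisms of `O`. -/
noncomputable def cQ : RingAut O →* ((ℚ ⊗[ℤ] O) ≃ₐ[ℚ] (ℚ ⊗[ℤ] O)) where
  toFun g := Algebra.TensorProduct.congr (AlgEquiv.refl : ℚ ≃ₐ[ℚ] ℚ) (RingEquiv.toIntAlgEquiv g)
  map_one' := by
    refine AlgEquiv.ext fun z => ?_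
    induction z using TensorProduct.induction_on with
    | zero => rw [map_zero, map_zero]
    | tmul d y => rfl
    | add z w hz hw => rw [map_add, map_add, hz, hw]
  map_mul' g h := by
    refine AlgEquiv.ext fun z => ?_
    induction z using TensorProduct.induction_on with
    | zero => rw [map_zero, map_zero]
    | tmul d y => rfl
    | add z w hz hw => rw [map_add, map_add, hz, hw]

omit [Module.Free ℤ O] [Module.Finite ℤ O] in
theorem cQ_tmul (g : RingAut O) (q : ℚ) (x : O) : cQ O g (q ⊗ₜ[ℤ] x) = q ⊗ₜ[ℤ] (g x) := rfl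

omit [Module.Finite ℤ O] in
theorem cQ_inj : Function.Injective (cQ O) := by
  intro g h hgh
  refine RingEquiv.ext fun x => ?_
  have h1 : cQ O g (1 ⊗ₜ[ℤ] x) = cQ O h (1 ⊗ₜ[ℤ] x) := by rw [hgh]
  rw [cQ_tmul, cQ_tmul] at h1
  exact Algebra.TensorProduct.includeRight_injective (R := ℤ) (A := ℚ) (B := O)
    (algebraMap ℤ ℚ).injective_int h1

omit [Module.Free ℤ O] [Module.Finite ℤ O] in
theorem cQ_pres (g : RingAut O) : ∀ x ∈ rgO O, cQ O g x ∈ rgO O := by
  rintro _ ⟨x, rfl⟩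
  exact mem_rgO O (g x)

end Pool.Agent.ZI
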