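import Pool.Agent.Lib.MP_8f66f0_al_ZI.Br1

/-! Nilpotent subrings and right ideals. -/

set_option autoImplicit false

namespace Pool.Agent.ZI

section

variable {B : Type} [Ring B] [Algebra ℚ B] {O : Subring B} (W : Submodule ℤ O)

/-- The right ideal generated by `W`. -/
def idW : Submodule ℚ B := Submodule.span ℚ {z | ∃ w ∈ W, ∃ b : B, z = (w : B) * b}

theorem idW_idl (h0 : W ≠ ⊥) (hk : ∃ k : ℕ, W ^ k = ⊥) : Idl B (idW W) := by
  classical
  have hk' := Nat.find_spec hk
  have hmin : ∀ m, m < Nat.find hk → W ^ m ≠ ⊥ := fun m hm => Nat.find_min hk hm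
  have h1 : 2 ≤ Nat.find hk := by
    by_contra hlt
    have h2 : Nat.find hk = 0 ∨ Nat.find hk = 1 := by omega
    rcases h2 with h2 | h2
    · rw [h2, pow_zero] at hk'
      have h3 : (1 : O) ∈ (1 : Submodule ℤ O) := Submodule.one_le.1 le_rfl
      rw [hk', Submodule.mem_bot] at h3
      refine h0 ((Submodule.eq_bot_iff _).2 fun x _ => ?_)
      rw [← mul_one x, h3, mul_zero]
    · rw [h2, pow_one] at hk'
      exact h0 hk'
  obtain ⟨m, hm⟩ : ∃ m, Nat.find hk = m + 2 := ⟨Nat.find hk - 2, by omega⟩
  have h3 : W ^ (m + 1) ≠ ⊥ := hmin _ (by omega)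
  obtain ⟨x, hx, hx0⟩ := (Submodule.ne_bot_iff _).1 h3
  constructor
  · intro z hz y
    induction hz using Submodule.span_induction with
    | mem z hz =>
      obtain ⟨w, hw, b, rfl⟩ := hz
      rw [mul_assoc]
      exact Submodule.subset_span ⟨w, hw, b * y, rfl⟩
    | zero =>
      rw [zero_mul]
      exact Submodule.zero_mem _
    | add a b _ _ ha hb =>
      rw [add_mul]
      exact Submodule.add_mem _ ha hb
    | smul c a _ ha =>
      rw [smul_mul_assoc]
      exact Submodule.smul_mem _ c ha
  · refine ⟨x, ?_, fun h => hx0 (Subtype.ext h), ?_⟩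
    · clear hx0
      rw [pow_succ'] at hx
      induction hx using Submodule.mul_induction_on' with
      | mem_mul_mem w hw y _ => exact Submodule.subset_span ⟨w, hw, y, rfl⟩
      | add a _ b _ ha hb => exact Submodule.add_mem _ ha hb
    · intro y hy
      induction hy using Submodule.span_induction with
      | mem z hz =>
        obtain ⟨w, hw, b, rfl⟩ := hz
        have h4 : x * w ∈ W ^ (m + 2) := by
          rw [pow_succ]
          exact Submodule.mul_mem_mul hx hw
        rw [← hm, hk', Submodule.mem_bot] at h4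
        have h5 : (x : B) * (w : B) = 0 := congrArg Subtype.val h4
        rw [← mul_assoc, h5, zero_mul]
      | zero => rw [mul_zero]
      | add a b _ _ ha hb => rw [mul_add, ha, hb, add_zero]
      | smul c a _ ha => rw [mul_smul_comm, ha, smul_zero]

theorem idW_stab (g : B ≃ₐ[ℚ] B) (gO : RingAut O) (hg : ∀ x : O, (gO x : B) = g (x : B))
    (hW : ∀ x ∈ W, gO x ∈ W) : ∀ x ∈ idW W, g x ∈ idW W := by
  intro x hx
  induction hx using Submodule.span_induction with
  | mem z hz =>
    obtain ⟨w, hw, b, rfl⟩ := hz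
    rw [map_mul, ← hg]
    exact Submodule.subset_span ⟨gO w, hW w hw, g b, rfl⟩
  | zero =>
    rw [map_zero]
    exact Submodule.zero_mem _
  | add a b _ _ ha hb =>
    rw [map_add]
    exact Submodule.add_mem _ ha hb
  | smul c a _ ha =>
    rw [map_smul]
    exact Submodule.smul_mem _ c ha

end

end Pool.Agent.ZI
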