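import Pool.Agent.Lib.MP_8f66f0_al_ZI.Br1
import Pool.Agent.Lib.MP_8f66f0_al_ZA.Ord

/-! An automorphism which is normal for a positive involution is semisimple. -/

set_option autoImplicit false

namespace Pool.Agent.ZI

open Pool.Agent Polynomial
open scoped TensorProduct

section Adj

variable {V : Type} [AddCommGroup V] [Module ℝ V] (q : V → V → ℝ)
  (hadd : ∀ x y z, q (x + y) z = q x z + q y z) (hsm : ∀ (c : ℝ) x y, q (c • x) y = c * q x y)
  (hsym : ∀ x y, q x y = q y x) (hpos : ∀ x, x ≠ 0 → 0 < q x x)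
  (T T' : Module.End ℝ V) (hT : ∀ x y, q (T x) y = q x (T' y)) (hc : T * T' = T' * T)

include hadd hsm hsym hT in
theorem adj_poly (p : ℝ[X]) (x y : V) : q (aeval T p x) y = q x (aeval T' p y) := by
  have hadd' : ∀ x y z, q x (y + z) = q x y + q x z := fun x y z => by
    rw [hsym, hadd, hsym y x, hsym z x]
  have hsm' : ∀ (c : ℝ) x y, q x (c • y) = c * q x y := fun c x y => by
    rw [hsym, hsm, hsym y x]
  have hpow : ∀ (n : ℕ) x y, q ((T ^ n) x) y = q x ((T' ^ n) y) := by
    intro n
    induction n with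
    | zero => exact fun x y => rfl
    | succ n ih =>
      intro x y
      rw [pow_succ, pow_succ']
      change q ((T ^ n) (T x)) y = q x (T' ((T' ^ n) y))
      rw [ih, hT]
  induction p using Polynomial.induction_on' with
  | add p r hp hr =>
    rw [map_add, map_add, LinearMap.add_apply, LinearMap.add_apply, hadd, hadd', hp, hr]
  | monomial n a =>
    rw [aeval_monomial, aeval_monomial, ← Algebra.smul_def, ← Algebra.smul_def,
      LinearMap.smul_apply, LinearMap.smul_apply, hsm, hsm', hpow]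

theorem comm_aeval {a b : Module.End ℝ V} (h : a * b = b * a) (p : ℝ[X]) :
    a * aeval b p = aeval b p * a := by
  have h1 : aeval b p ∈ Subalgebra.centralizer ℝ {a} :=
    (Algebra.adjoin_le (S := Subalgebra.centralizer ℝ {a}) (by
      rw [Set.singleton_subset_iff]
      exact Subalgebra.mem_centralizer_iff ℝ |>.2 (by
        rintro _ rfl
        exact h))) (aeval_mem_adjoin_singleton ℝ b)
  exact Subalgebra.mem_centralizer_iff ℝ |>.1 h1 a rfl

include hc in
theorem comm_poly (p : ℝ[X]) (x : V) :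
    aeval T p (aeval T' p x) = aeval T' p (aeval T p x) := by
  have h1 := comm_aeval hc p
  have h2 := comm_aeval h1.symm p
  exact congrArg (fun f : Module.End ℝ V => f x) h2.symm

include hadd hsm hsym hpos hT hc in
/-- Normal operators. -/
theorem normal_sq (p : ℝ[X]) (h : ∀ x, aeval T p (aeval T p x) = 0) (x : V) :
    aeval T p x = 0 := by
  have hA := adj_poly q hadd hsm hsym T T' hT p
  have hz : ∀ y, q 0 y = 0 := fun y => by
    have := hsm 0 0 y
    rwa [zero_smul, zero_mul] at this
  have h0 : ∀ y, q y y = 0 → y = 0 := fun y hy => by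
    by_contra hne
    exact absurd hy (hpos y hne).ne'
  have h1 : aeval T' p (aeval T p x) = 0 := by
    refine h0 _ ?_
    rw [← hA, comm_poly T T' hc, h, map_zero, hz]
  refine h0 _ ?_
  rw [hA, h1, hsym, hz]

end Adj

section

variable {B : Type} [Ring B] [Algebra ℚ B] {O : Subring B} (hO : Ord B O)

/-- The map to the real algebra. -/
noncomputable def jB : B →ₗ[ℚ] ZA.VO O :=
  (TensorProduct.AlgebraTensorModule.map (Algebra.linearMap ℚ ℝ)
    (LinearMap.id : O →ₗ[ℤ] O)).comp (eB hO).symm.toLinearMap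

theorem jB_coe (x : O) : jB hO (x : B) = (1 : ℝ) ⊗ₜ[ℤ] x := by
  rw [jB, LinearMap.comp_apply]
  change (TensorProduct.AlgebraTensorModule.map (Algebra.linearMap ℚ ℝ)
    (LinearMap.id : O →ₗ[ℤ] O)) ((eB hO).symm (x : B)) = _
  rw [eB_symm, TensorProduct.AlgebraTensorModule.map_tmul]
  simp

theorem jB_exQ (g : RingAut O) (b : B) : jB hO (exQ hO g b) = ZA.ext O g (jB hO b) := by
  have h := ext_on_ord hO (V := ZA.VO O) (f := (jB hO).comp (exQ hO g).toLinearMap)
    (f' := ((ZA.ext O g).toLinearMap.restrictScalars ℚ).comp (jB hO)) ?_ b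
  · exact h
  · intro x hx
    change jB hO (exQ hO g ((⟨x, hx⟩ : O) : B)) = ZA.ext O g (jB hO ((⟨x, hx⟩ : O) : B))
    rw [exQ_coe, jB_coe, jB_coe]
    rfl

theorem jB_aeval (g : RingAut O) (p : ℚ[X]) (b : B) :
    jB hO (aeval ((exQ hO g).toLinearMap : Module.End ℚ B) p b) =
      aeval ((ZA.ext O g).toLinearMap : Module.End ℝ (ZA.VO O)) (p.map (algebraMap ℚ ℝ))
        (jB hO b) := by
  have hpow : ∀ (n : ℕ) (b : B), jB hO ((((exQ hO g).toLinearMap : Module.End ℚ B) ^ n) b) =
      (((ZA.ext O g).toLinearMap : Module.End ℝ (ZA.VO O)) ^ n) (jB hO b) := by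
    intro n
    induction n with
    | zero => exact fun b => rfl
    | succ n ih =>
      intro b
      rw [pow_succ, pow_succ, Module.End.mul_apply, Module.End.mul_apply, ih]
      congr 1
      exact jB_exQ hO g b
  induction p using Polynomial.induction_on' with
  | add p r hp hr =>
    rw [map_add, LinearMap.add_apply, map_add, hp, hr, Polynomial.map_add, map_add,
      LinearMap.add_apply]
  | monomial n a =>
    rw [Polynomial.map_monomial, aeval_monomial, aeval_monomial, ← Algebra.smul_def,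
      ← Algebra.smul_def, LinearMap.smul_apply, LinearMap.smul_apply, map_smul, hpow]
    exact (algebraMap_smul ℝ a _).symm

theorem jB_eq_zero {b : B} (h : jB hO b = 0) : b = 0 := by
  have := hO.finZ
  have := hO.freeZ
  obtain ⟨n, hn, h1⟩ := hO.span b
  have h2 : jB hO ((⟨_, h1⟩ : O) : B) = 0 := by
    change jB hO ((n : ℚ) • b) = 0
    rw [map_smul, h, smul_zero]
  rw [jB_coe] at h2
  have h3 : (⟨_, h1⟩ : O) = 0 := by
    refine Algebra.TensorProduct.includeRight_injective (R := ℤ) (A := ℝ) (B := O)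
      (algebraMap ℤ ℝ).injective_int ?_
    rw [map_zero]
    exact h2
  have h4 : (n : ℚ) • b = 0 := congrArg Subtype.val h3
  exact (smul_eq_zero.1 h4).resolve_left (by positivity)

theorem semi_of_normal (δ : RingAut O) (σ : ZA.PI O)
    (h : ∀ x, ZA.ext O δ (σ.s (ZA.ext O δ (σ.s x))) = σ.s (ZA.ext O δ (σ.s (ZA.ext O δ x)))) :
    Module.End.IsSemisimple ((exQ hO δ).toLinearMap : Module.End ℚ B) := by
  have := hO.fin
  set D : Module.End ℚ B := (exQ hO δ).toLinearMap with hD
  refine Module.End.isSemisimple_of_squarefree_aeval_eq_zero (p := minpoly ℚ D) ?_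
    (minpoly.aeval ℚ D)
  let T : Module.End ℝ (ZA.VO O) := (ZA.ext O δ).toLinearMap
  let T' : Module.End ℝ (ZA.VO O) := σ.s ∘ₗ (ZA.ext O δ⁻¹).toLinearMap ∘ₗ σ.s
  have hT : ∀ x, T x = ZA.ext O δ x := fun _ => rfl
  have hT' : ∀ x, T' x = σ.s (ZA.ext O δ⁻¹ (σ.s x)) := fun _ => rfl
  have hadj : ∀ x y, σ.q (T x) y = σ.q x (T' y) := by
    intro x y
    have h1 : σ.q (T x) y = ZA.tr O (σ.s y * ZA.ext O δ x) := σ.sym _ _
    have h2 : σ.q x (T' y) = ZA.tr O (σ.s (T' y) * x) := σ.sym _ _
    rw [h1, h2, hT', σ.inv, ← ZA.trace_ext δ⁻¹ (σ.s y * ZA.ext O δ x), map_mul,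
      ZA.ext_cancel_inv]
  have hcomm : T * T' = T' * T := by
    refine LinearMap.ext fun x => ?_
    rw [Module.End.mul_apply, Module.End.mul_apply]
    have h3 := h (T' x)
    rw [hT', σ.inv, ZA.ext_inv_cancel, σ.inv] at h3
    rw [hT' (T x), hT, hT, hT', h3, σ.inv, ZA.ext_cancel_inv, σ.inv]
  have key : ∀ p : ℚ[X], (∀ b, aeval D p (aeval D p b) = 0) → aeval D p = 0 := by
    intro p hp
    refine LinearMap.ext fun b => jB_eq_zero hO ?_
    rw [hD, jB_aeval]
    refine normal_sq σ.q (fun x y z => ?_) (fun c x y => ?_) (fun x y => σ.sym x y)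
      (fun x hx => σ.pos x hx) T T' hadj hcomm _ ?_ _
    · change ZA.tr O (σ.s (x + y) * z) = _
      rw [map_add, add_mul, map_add]
      rfl
    · change ZA.tr O (σ.s (c • x) * y) = _
      rw [map_smul, smul_mul_assoc, map_smul]
      rfl
    · intro z
      induction z using TensorProduct.induction_on with
      | zero => simp only [map_zero]
      | tmul c o =>
        have h4 : c ⊗ₜ[ℤ] o = c • jB hO (o : B) := by
          rw [jB_coe, TensorProduct.smul_tmul', smul_eq_mul, mul_one]
        rw [h4, map_smul, map_smul, ← jB_aeval, ← jB_aeval, ← hD, hp, map_zero, smul_zero]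
      | add z w hz hw => rw [map_add, map_add, hz, hw, add_zero]
  intro q hq
  obtain ⟨r, hr⟩ := hq
  have h5 : aeval D (q * r) = 0 := by
    refine key _ fun b => ?_
    rw [← Module.End.mul_apply, ← map_mul]
    have h6 : q * r * (q * r) = minpoly ℚ D * r := by
      rw [hr]
      ring
    rw [h6, map_mul, minpoly.aeval, zero_mul, LinearMap.zero_apply]
  have h7 := minpoly.dvd ℚ D h5
  rw [hr] at h7
  obtain ⟨u, hu⟩ := h7
  have hne : q * r ≠ 0 := by
    intro h0
    have h8 : minpoly ℚ D = 0 := by rw [hr, mul_assoc, h0, mul_zero]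
    exact minpoly.ne_zero (Algebra.IsIntegral.isIntegral (R := ℚ) D) h8
  have h9 : q * r * (q * u) = q * r * 1 := by
    rw [mul_one]
    conv_rhs => rw [hu]
    ring
  exact IsUnit.of_mul_eq_one _ (mul_left_cancel₀ hne h9)

end

end Pool.Agent.ZI
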