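import Pool.Agent.Lib.MP_8f66f0_al_ZI.SpecP
import Pool.Agent.Lib.MP_8f66f0_al_ZA.Ord

/-! Project ZERO, part I: the existence of positive involutions (`ZA.PI`). Statements; the proofs in
words are in the docstrings. -/

set_option autoImplicit false

namespace Pool.Agent.ZI

open Pool.Agent
open scoped TensorProduct

/-- (P6) The existence of positive involutions, from (P0), (P4), (P5). (`ZA.tr` is the regular trace
of `ℝ ⊗ O`.) -/
def S_P6 : Prop :=
  S_P0 → (∀ (C : Type) [Ring C] [Algebra ℝ C] [Module.Finite ℝ C], ND ℝ C → HasPos C) → S_P5 →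
    ∀ (O : Type) [Ring O] [Module.Free ℤ O] [Module.Finite ℤ O], NDZ O → Nonempty (ZA.PI O)

/-- (P7) The converse. Proof. If `x ∈ O` is in the radical of the trace form over `ℤ`, then
`1 ⊗ x` is in the radical of the form `ZA.tr` (real linear combinations of `1 ⊗ y`,
`ZA.tr (1 ⊗ z) = trace ℤ z` by `LinearMap.trace_baseChange`), so
`ZA.tr (s (1 ⊗ x) * (1 ⊗ x)) = ZA.tr ((1 ⊗ x) * s (1 ⊗ x)) = 0` and `1 ⊗ x = 0`, `x = 0`
(`O` is free). -/
def S_P7 : Prop :=
  ∀ (O : Type) [Ring O] [Module.Free ℤ O] [Module.Finite ℤ O], Nonempty (ZA.PI O) → NDZ O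

end Pool.Agent.ZI
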