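import Pool.Agent.Lib.MP_8f66f0_al_ZI.Step
import Pool.Agent.Lib.MP_8f66f0_al_ZI.Br2
import Pool.Agent.Lib.MP_8f66f0_al_ZI.NrmS
import Pool.Agent.Lib.MP_8f66f0_al_ZI.IdlW
import Pool.Agent.Lib.MP_8f66f0_al_ZI.SpecQ
import Pool.Agent.Lib.MP_8f66f0_al_FH.FinalF
import Pool.Agent.Lib.MP_8f66f0_al_Tree.Hd
import Pool.Agent.Lib.MP_8f66f0_al_Tree.AllK

/-! Project ZERO, part I: the induction over orders. -/

set_option autoImplicit false

namespace Pool.Agent.ZI

open Pool.Agent Pool.Agent.WhVan Pool.Agent.TreeC Pool.Agent.Hier Pool.Agent.WaldL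
  Pool.Agent.FH
open scoped TensorProduct

theorem icl_hdks : ICl (Hd KS) where
  iso := (hd KS ks_tcl).iso
  sub := (hd KS ks_tcl).sub
  ea := by
    intro Γ Q _ _ θ hQ h H
    refine ks_rel FH.ksAff (eam_of_EA hQ) (θ.comp H.subtype) fun U hU => ?_
    have h1 : Hd KS (U.map H.subtype) := h _ (by
      rw [Subgroup.map_map]
      exact hU)
    exact ks_tcl.iso _ _ (U.equivMapOfInjective H.subtype H.subtype_injective).symm
      (ks_tcl.iso _ _ Subgroup.topEquiv (h1 ⊤))

section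

variable (O : Type) [Ring O]

/-- The automorphisms as linear maps. -/
def endO : RingAut O →* Module.End ℤ O where
  toFun g := (g : O →+ O).toIntLinearMap
  map_one' := rfl
  map_mul' _ _ := rfl

variable [Module.Free ℤ O] [Module.Finite ℤ O]

/-- The automorphisms as matrices. -/
noncomputable def glO :
    RingAut O →* Matrix.GeneralLinearGroup (Fin (Module.finrank ℤ O)) ℤ :=
  (Units.map (LinearMap.toMatrixAlgEquiv (Module.finBasis ℤ O)).toMonoidHom).comp
    (endO O).toHomUnits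

theorem glO_inj : Function.Injective (glO O) := by
  intro g h hgh
  have h1 := congrArg Units.val hgh
  have h2 : endO O g = endO O h :=
    (LinearMap.toMatrixAlgEquiv (Module.finBasis ℤ O)).injective h1
  exact RingEquiv.ext fun x => congrArg (fun f : Module.End ℤ O => f x) h2

end

theorem finite_map_of_inj {G H K : Type} [Group G] [Group H] [Group K] (f : G →* H) (j : H →* K)
    (hj : Function.Injective j) (U : Subgroup G) (h : Finite (U.map (j.comp f))) :
    Finite (U.map f) := by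
  rw [← Subgroup.map_map] at h
  exact Finite.of_injective ((U.map f).equivMapOfInjective j hj)
    ((U.map f).equivMapOfInjective j hj).injective

section

variable {Γ B : Type} [Group Γ] [Ring B] [Algebra ℚ B] {O : Subring B} (hO : Ord B O)
  (ρ : Γ →* (B ≃ₐ[ℚ] B)) (hρ : ∀ g, ∀ x ∈ O, ρ g x ∈ O)

theorem exQ_roO (g : Γ) : exQ hO (roO ρ hρ g) = ρ g := by
  refine AlgEquiv.ext fun b => ?_
  refine ext_on_ord hO (f := (exQ hO (roO ρ hρ g)).toLinearMap) (f' := (ρ g).toLinearMap) ?_ b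
  intro x hx
  exact exQ_coe hO (roO ρ hρ g) ⟨x, hx⟩

include hO in
theorem fam_of_smO (V : Subgroup Γ) (hV : ZA.SmO (V.map (roO ρ hρ))) : Fam ρ V := by
  rcases hV with h | h | h
  · refine Fam.fin ?_
    have h1 : ((V.map (roO ρ hρ) : Subgroup (RingAut O)) : Set (RingAut O)).Finite := h
    refine Set.Finite.subset (h1.image (exQ hO)) ?_
    rintro _ ⟨v, hv, rfl⟩
    exact ⟨_, ⟨v, hv, rfl⟩, exQ_roO hO ρ hρ v⟩
  · obtain ⟨δ, σ, hδ, hn, hc⟩ := h
    refine Fam.nrm (exQ hO δ) ?_ (semi_of_normal hO δ σ hn) ?_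
    · intro h1
      refine hδ (RingEquiv.ext fun x => Subtype.ext ?_)
      rw [← exQ_coe hO, h1]
      rfl
    · intro g hg
      refine AlgEquiv.ext fun b => ?_
      refine ext_on_ord hO (f := (ρ g * exQ hO δ).toLinearMap)
        (f' := (exQ hO δ * ρ g).toLinearMap) ?_ b
      intro x hx
      have h2 := congrArg (fun f : RingAut O => f ⟨x, hx⟩) (hc _ ⟨g, hg, rfl⟩)
      change ρ g (exQ hO δ ((⟨x, hx⟩ : O) : B)) = exQ hO δ (ρ g ((⟨x, hx⟩ : O) : B))
      rw [exQ_coe, ← roO_coe ρ hρ, ← roO_coe ρ hρ, exQ_coe]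
      exact congrArg Subtype.val h2
  · obtain ⟨W, h0, _, hk, hst⟩ := h
    refine Fam.idl (idW W) (idW_idl W h0 hk) fun g hg => ?_
    exact idW_stab W (ρ g) (roO ρ hρ g) (fun x => roO_coe ρ hρ g x)
      (hst _ ⟨g, hg, rfl⟩)

end

theorem map_comp_subtype {Γ K : Type} [Group Γ] [Group K] (f : Γ →* K) (H : Subgroup Γ)
    (V : Subgroup H) : (V.map H.subtype).map f = V.map (f.comp H.subtype) :=
  Subgroup.map_map _ _ _

theorem geo_of (hG : ZA.S_G) (hS : ZA.S_SS)
    (hPI : ∀ (O : Type) [Ring O] [Module.Free ℤ O] [Module.Finite ℤ O], NDZ O →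
      Nonempty (ZA.PI O)) : S_Geo (Hd KS) (Hd KS) := by
  intro Γ B _ _ _ O ρ hO hρ hF H
  have := hO.finZ
  have := hO.freeZ
  have key : ∀ V : Subgroup H, Fam ρ (V.map H.subtype) → KS V := fun V hV =>
    ks_tcl.iso _ _ (V.equivMapOfInjective H.subtype H.subtype_injective).symm
      (ks_tcl.iso _ _ Subgroup.topEquiv (hF _ hV ⊤))
  refine ⟨?_, ?_⟩
  · refine hG O (hPI O hO.ndz) H ((roO ρ hρ).comp H.subtype) fun V hV => ?_
    refine (key V (fam_of_smO hO ρ hρ _ ?_)).1
    rw [map_comp_subtype]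
    exact hV
  · refine hS _ H ((glO O).comp ((roO ρ hρ).comp H.subtype)) fun V hV => ?_
    refine (key V (fam_of_smO hO ρ hρ _ (Or.inl ?_))).2
    rw [map_comp_subtype]
    exact finite_map_of_inj _ _ (glO_inj O) V hV

theorem sO_of (hPI : ∀ (O : Type) [Ring O] [Module.Free ℤ O] [Module.Finite ℤ O], NDZ O →
      Nonempty (ZA.PI O)) (h7 : S_P7) (hG : ZA.S_G) (hS : ZA.S_SS) : ZA.S_O := by
  intro O _ _ _ hO H _ ρ h
  have hnd : NDZ O := h7 O hO
  have h1 : Hd KS H := by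
    refine ord_of_geo icl_hdks (geo_of hG hS hPI) H (ℚ ⊗[ℤ] O) (rgO O) ((cQ O).comp ρ)
      (ord_rgO hnd) (fun g => cQ_pres O (ρ g)) ?_
    intro U hU K
    have h2 : Finite (U.map ρ) := finite_map_of_inj ρ (cQ O) (cQ_inj O) U hU
    have h3 : Finite ((K.map U.subtype).map ρ) := by
      have h4 : ((U.map ρ : Subgroup (RingAut O)) : Set (RingAut O)).Finite := h2
      refine Set.Finite.subset h4 ?_
      rintro _ ⟨_, ⟨k, _, rfl⟩, rfl⟩
      exact ⟨k.1, k.2, rfl⟩
    exact ks_tcl.iso _ _ (K.equivMapOfInjective U.subtype U.subtype_injective).symm (h _ h3)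
  exact ks_tcl.iso _ _ Subgroup.topEquiv (h1 ⊤)

end Pool.Agent.ZI
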