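import Pool.Agent.Lib.MP_8f66f0_al_TQ.Co
import Pool.Agent.Lib.MP_8f66f0_al_FH.FinalE

/-! Classes of groups which are closed under elementary amenable quotients: the version for
homomorphisms which are defined on a subgroup of finite index. -/

set_option autoImplicit false

namespace Pool.Agent.ZI

open Pool.Agent Pool.Agent.WhVan Pool.Agent.TQ

/-- The closure properties of the class which are used in the induction. -/
structure ICl (P : (G : Type) → [Group G] → Prop) : Prop where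
  iso : ∀ (G G' : Type) [Group G] [Group G'], (G ≃* G') → P G → P G'
  sub : ∀ (G : Type) [Group G] (H : Subgroup G), P G → P H
  ea : ∀ (Γ Q : Type) [Group Γ] [Group Q] (θ : Γ →* Q), EA Q →
    (∀ U : Subgroup Γ, Finite (U.map θ) → P U) → P Γ

theorem ea_extHom {G Q : Type} [Group G] [Group Q] (f : G →* Q) (h1 : EA f.ker) (h2 : EA Q) :
    EA G :=
  EA.ext f.ker h1 (EA.sub (QuotientGroup.kerLift f) (QuotientGroup.kerLift_injective f) h2)

theorem ea_fin_pi {H : Type} [Group H] (h : EA H) (n : ℕ) : EA (Fin n → H) := by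
  induction n with
  | zero => exact EA.fin inferInstance
  | succ n ih =>
    refine ea_extHom (Pi.evalMonoidHom (fun _ : Fin (n + 1) => H) 0) ?_ h
    let j : (Pi.evalMonoidHom (fun _ : Fin (n + 1) => H) 0).ker →* (Fin n → H) :=
      { toFun := fun x i => x.1 i.succ
        map_one' := rfl
        map_mul' := fun _ _ => rfl }
    refine EA.sub j ?_ ih
    intro x y hxy
    refine Subtype.ext (funext fun i => ?_)
    refine Fin.cases ?_ (fun k => congrFun hxy k) i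
    exact (MonoidHom.mem_ker.1 x.2).trans (MonoidHom.mem_ker.1 y.2).symm

theorem ea_pi {H Q : Type} [Group H] [Finite Q] (h : EA H) : EA (Q → H) := by
  obtain ⟨n, ⟨e⟩⟩ := Finite.exists_equiv_fin Q
  let j : (Q → H) →* (Fin n → H) :=
    { toFun := fun x i => x (e.symm i)
      map_one' := rfl
      map_mul' := fun _ _ => rfl }
  refine EA.sub j ?_ (ea_fin_pi h n)
  intro x y hxy
  funext q
  have := congrFun hxy (e q)
  simpa [j] using this

section

variable {Q H : Type} [Group H]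

/-- The action on the functions. -/
def wrAut (Q H : Type) [Group H] : Equiv.Perm Q →* MulAut (Q → H) where
  toFun π :=
    { toFun := fun x q => x (π.symm q)
      invFun := fun x q => x (π q)
      left_inv := fun x => funext fun q => congrArg x (π.symm_apply_apply q)
      right_inv := fun x => funext fun q => congrArg x (π.apply_symm_apply q)
      map_mul' := fun _ _ => rfl }
  map_one' := rfl
  map_mul' _ _ := rfl

theorem ea_wr [Finite Q] (h : EA H) : EA ((Q → H) ⋊[wrAut Q H] Equiv.Perm Q) := by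
  refine ea_extHom SemidirectProduct.rightHom ?_ (EA.fin inferInstance)
  let j : (SemidirectProduct.rightHom (φ := wrAut Q H)).ker →* (Q → H) :=
    { toFun := fun x => x.1.left
      map_one' := rfl
      map_mul' := fun x y => by
        have h1 : x.1.right = 1 := MonoidHom.mem_ker.1 x.2
        change x.1.left * (wrAut Q H x.1.right) y.1.left = _
        rw [h1, map_one]
        rfl }
  refine EA.sub j ?_ (ea_pi h)
  intro x y hxy
  refine Subtype.ext (SemidirectProduct.ext hxy ?_)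
  exact (MonoidHom.mem_ker.1 x.2).trans (MonoidHom.mem_ker.1 y.2).symm

end

section

variable {Γ H : Type} [Group Γ] [Group H] (Γ' : Subgroup Γ) (ψ : Γ' →* H)

/-- The induced homomorphism to the wreath product. -/
noncomputable def wrHom : Γ →* ((Γ ⧸ Γ') → H) ⋊[wrAut (Γ ⧸ Γ') H] Equiv.Perm (Γ ⧸ Γ') where
  toFun g := ⟨fun q => ψ (cc Γ' g (g⁻¹ • q)), MulAction.toPermHom Γ (Γ ⧸ Γ') g⟩
  map_one' := by
    refine SemidirectProduct.ext (funext fun q => ?_) ?_
    · change ψ (cc Γ' 1 ((1 : Γ)⁻¹ • q)) = 1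
      rw [cc_one, map_one]
    · exact map_one _
  map_mul' g h := by
    refine SemidirectProduct.ext (funext fun q => ?_) ?_
    · change ψ (cc Γ' (g * h) ((g * h)⁻¹ • q)) =
        ψ (cc Γ' g (g⁻¹ • q)) * ψ (cc Γ' h (h⁻¹ • ((MulAction.toPerm g).symm q)))
      rw [cc_mul, map_mul, mul_inv_rev, mul_smul, smul_inv_smul]
      rfl
    · exact map_mul _ _ _

theorem cc_base (g : Γ') : ψ g = ψ (⟨(((1 : Γ) : Γ ⧸ Γ')).out, by
      have h1 : (((((1 : Γ) : Γ ⧸ Γ')).out : Γ) : Γ ⧸ Γ') = ((1 : Γ) : Γ ⧸ Γ') :=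
        QuotientGroup.out_eq' _
      have h2 := QuotientGroup.eq.1 h1.symm
      rwa [inv_one, one_mul] at h2⟩ : Γ') * ψ (cc Γ' g.1 ((1 : Γ) : Γ ⧸ Γ')) *
      (ψ (⟨(((1 : Γ) : Γ ⧸ Γ')).out, by
      have h1 : (((((1 : Γ) : Γ ⧸ Γ')).out : Γ) : Γ ⧸ Γ') = ((1 : Γ) : Γ ⧸ Γ') :=
        QuotientGroup.out_eq' _
      have h2 := QuotientGroup.eq.1 h1.symm
      rwa [inv_one, one_mul] at h2⟩ : Γ'))⁻¹ := by
  rw [← map_inv, ← map_mul, ← map_mul]
  congr 1
  refine Subtype.ext ?_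
  have h0 : g.1 • ((1 : Γ) : Γ ⧸ Γ') = ((1 : Γ) : Γ ⧸ Γ') := by
    rw [MulAction.Quotient.smul_coe, smul_eq_mul, mul_one]
    refine QuotientGroup.eq.2 ?_
    rw [mul_one]
    exact Γ'.inv_mem g.2
  simp only [cc, Subgroup.coe_mul, InvMemClass.coe_inv, h0]
  group

theorem finite_of_wr (U : Subgroup Γ) (h : Finite (U.map (wrHom Γ' ψ))) :
    Finite ((U.subgroupOf Γ').map ψ) := by
  obtain ⟨t, ht⟩ : ∃ t : H, ∀ g : Γ', ψ g = t * ψ (cc Γ' g.1 ((1 : Γ) : Γ ⧸ Γ')) * t⁻¹ :=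
    ⟨_, fun g => cc_base Γ' ψ g⟩
  have h1 : (((U.map (wrHom Γ' ψ) :
      Subgroup (((Γ ⧸ Γ') → H) ⋊[wrAut (Γ ⧸ Γ') H] Equiv.Perm (Γ ⧸ Γ')))) :
      Set (((Γ ⧸ Γ') → H) ⋊[wrAut (Γ ⧸ Γ') H] Equiv.Perm (Γ ⧸ Γ'))).Finite := h
  have h2 := h1.image (fun x => t * x.left ((1 : Γ) : Γ ⧸ Γ') * t⁻¹)
  refine Set.Finite.subset h2 ?_
  rintro _ ⟨g, hg, rfl⟩
  refine ⟨wrHom Γ' ψ g.1, ⟨g.1, hg, rfl⟩, ?_⟩
  change t * ψ (cc Γ' g.1 (g.1⁻¹ • ((1 : Γ) : Γ ⧸ Γ'))) * t⁻¹ = ψ g
  have h0 : g.1⁻¹ • ((1 : Γ) : Γ ⧸ Γ') = ((1 : Γ) : Γ ⧸ Γ') := by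
    rw [MulAction.Quotient.smul_coe, smul_eq_mul, mul_one]
    refine QuotientGroup.eq.2 ?_
    rw [mul_one, inv_inv]
    exact g.2
  rw [h0, ht g]

end

/-- The class is closed under elementary amenable quotients of subgroups of finite index. -/
theorem ve {P : (G : Type) → [Group G] → Prop} (hP : ICl P) {Γ H : Type} [Group Γ] [Group H]
    (Γ' : Subgroup Γ) (hΓ' : Γ'.FiniteIndex) (ψ : Γ' →* H) (hH : EA H)
    (h : ∀ W : Subgroup Γ, Finite ((W.subgroupOf Γ').map ψ) → P W) : P Γ :=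
  hP.ea Γ _ (wrHom Γ' ψ) (ea_wr hH) fun U hU => h U (finite_of_wr Γ' ψ U hU)

end Pool.Agent.ZI
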