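import Pool.Agent.Lib.MP_8f66f0_al_ZI.SQ
import Pool.Agent.Lib.MP_8f66f0_al_ZI.VE

/-! Stabilizers of right ideals: the action on a subquotient, and its kernel. -/

set_option autoImplicit false

namespace Pool.Agent.ZI

open Pool.Agent.WhVan

section

variable {B : Type} [Ring B] [Algebra ℚ B] [Module.Finite ℚ B] (hnd : ND ℚ B)
  (I : Submodule ℚ B) (hI : ∀ x ∈ I, ∀ y : B, x * y ∈ I)

include hnd hI in
omit [Module.Finite ℚ B] in
theorem mem_perp_iff (x : B) : x ∈ perp I ↔ ∀ y ∈ I, x * y = 0 := by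
  rw [mem_perp]
  constructor
  · intro h y hy
    refine hnd _ fun b => ?_
    rw [mul_assoc]
    exact h _ (hI y hy b)
  · intro h y hy
    rw [h y hy, map_zero]

/-- The subquotient. -/
noncomputable def sqI : SQ B where
  A :=
    { carrier := {x | x ∈ I ⊔ perp I}
      mul_mem' := by
        rintro a b ha hb
        obtain ⟨i, hi, l, hl, rfl⟩ := Submodule.mem_sup.1 ha
        obtain ⟨i', hi', l', hl', rfl⟩ := Submodule.mem_sup.1 hb
        rw [mem_perp_iff hnd I hI] at hl hl'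
        have h1 : (i + l) * (i' + l') = i * (i' + l') + l * l' := by
          rw [add_mul, mul_add l, hl _ hi', zero_add]
        change (i + l) * (i' + l') ∈ I ⊔ perp I
        rw [h1]
        refine Submodule.add_mem _ (Submodule.mem_sup_left (hI _ hi _))
          (Submodule.mem_sup_right ?_)
        rw [mem_perp_iff hnd I hI]
        intro y hy
        rw [mul_assoc, hl' y hy, mul_zero]
      add_mem' := fun {a b} ha hb => Submodule.add_mem (I ⊔ perp I) ha hb
      algebraMap_mem' := by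
        intro r
        change algebraMap ℚ B r ∈ I ⊔ perp I
        rw [Algebra.algebraMap_eq_smul_one]
        refine Submodule.smul_mem _ _ ?_
        have h1 : I ⊔ perp I = perp (I ⊓ perp I) := by
          rw [perp_inf hnd, perp_perp hnd, sup_comm]
        rw [h1, mem_perp]
        intro n hn
        rw [one_mul]
        have h2 := (mem_perp_iff hnd I hI n).1 hn.2 n hn.1
        exact tr_nil ⟨2, by rw [pow_two, h2]⟩ }
  N := I ⊓ perp I
  le := fun x hx => Submodule.mem_sup_left hx.1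
  left := by
    rintro a ha n hn
    obtain ⟨i, hi, l, hl, rfl⟩ := Submodule.mem_sup.1 ha
    have hn2 := (mem_perp_iff hnd I hI n).1 hn.2
    rw [mem_perp_iff hnd I hI] at hl
    have h1 : (i + l) * n = i * n := by rw [add_mul, hl n hn.1, add_zero]
    rw [h1]
    refine ⟨hI _ hi _, ?_⟩
    change i * n ∈ perp I
    rw [mem_perp_iff hnd I hI]
    intro y hy
    rw [mul_assoc, hn2 y hy, mul_zero]
  right := by
    rintro a ha n hn
    obtain ⟨i, hi, l, hl, rfl⟩ := Submodule.mem_sup.1 ha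
    have hn2 := (mem_perp_iff hnd I hI n).1 hn.2
    rw [mem_perp_iff hnd I hI] at hl
    have h1 : n * (i + l) = n * l := by rw [mul_add, hn2 i hi, zero_add]
    rw [h1]
    refine ⟨hI _ hn.1 _, ?_⟩
    change n * l ∈ perp I
    rw [mem_perp_iff hnd I hI]
    intro y hy
    rw [mul_assoc, hl y hy, mul_zero]
  sq := fun n hn n' hn' => (mem_perp_iff hnd I hI n).1 hn.2 n' hn'.1
  rad := by
    intro x _ hx
    have h1 : x ∈ perp (I ⊔ perp I) := by
      rw [mem_perp]
      exact hx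
    rw [perp_sup, perp_perp hnd] at h1
    exact ⟨h1.2, h1.1⟩

theorem mem_sqI_A (x : B) : x ∈ (sqI hnd I hI).A ↔ x ∈ I ⊔ perp I := Iff.rfl

theorem mem_sqI_N (x : B) : x ∈ (sqI hnd I hI).N ↔ x ∈ I ∧ x ∈ perp I := Iff.rfl

theorem sqI_lt (h : ∃ x ∈ I, x ≠ 0 ∧ ∀ y ∈ I, x * y = 0) :
    Module.finrank ℚ (sqI hnd I hI).Q < Module.finrank ℚ B := by
  obtain ⟨x, hx, hx0, hx1⟩ := h
  have h1 := (sqI hnd I hI).finrank_add
  have h2 : Module.finrank ℚ (sqI hnd I hI).A ≤ Module.finrank ℚ B :=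
    Submodule.finrank_le (Subalgebra.toSubmodule (sqI hnd I hI).A)
  have h3 : 0 < Module.finrank ℚ (sqI hnd I hI).N := by
    rw [Module.finrank_pos_iff_exists_ne_zero]
    refine ⟨⟨x, hx, (mem_perp_iff hnd I hI x).2 hx1⟩, fun h => hx0 (congrArg Subtype.val h)⟩
  omega

/-- The stabilizer of the right ideal. -/
def stI : Subgroup (B ≃ₐ[ℚ] B) where
  carrier := {g | ∀ x, g x ∈ I ↔ x ∈ I}
  one_mem' := fun _ => Iff.rfl
  mul_mem' := fun {a b} ha hb x => (ha (b x)).trans (hb x)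
  inv_mem' := fun {a} ha x => by
    have h1 := ha (a⁻¹ x)
    have h2 : a (a⁻¹ x) = x := a.apply_symm_apply x
    rw [h2] at h1
    exact h1.symm

omit [Module.Finite ℚ B] in
theorem perp_of_stI {g : B ≃ₐ[ℚ] B} (hg : g ∈ stI I) {x : B} (hx : x ∈ perp I) :
    g x ∈ perp I := by
  rw [mem_perp] at hx ⊢
  intro v hv
  have h2 : g (g⁻¹ v) = v := g.apply_symm_apply v
  rw [← h2, ← map_mul, tr_aut]
  exact hx _ ((stI I).inv_mem hg v |>.2 hv)

omit [Module.Finite ℚ B] in
theorem perp_iff_of_stI {g : B ≃ₐ[ℚ] B} (hg : g ∈ stI I) (x : B) :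
    g x ∈ perp I ↔ x ∈ perp I := by
  refine ⟨fun h => ?_, perp_of_stI I hg⟩
  have h1 := perp_of_stI I ((stI I).inv_mem hg) h
  have h2 : g⁻¹ (g x) = x := g.symm_apply_apply x
  rwa [h2] at h1

omit [Module.Finite ℚ B] in
theorem sup_of_stI {g : B ≃ₐ[ℚ] B} (hg : g ∈ stI I) {x : B} (hx : x ∈ I ⊔ perp I) :
    g x ∈ I ⊔ perp I := by
  obtain ⟨i, hi, l, hl, rfl⟩ := Submodule.mem_sup.1 hx
  rw [map_add]
  exact Submodule.add_mem _ (Submodule.mem_sup_left ((hg i).2 hi))
    (Submodule.mem_sup_right (perp_of_stI I hg hl))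

theorem stI_le : stI I ≤ (sqI hnd I hI).stab := by
  intro g hg
  refine ⟨fun x => ?_, fun x => ?_⟩
  · refine ⟨fun h => ?_, fun h => sup_of_stI I hg h⟩
    have h1 := sup_of_stI I ((stI I).inv_mem hg) h
    have h2 : g⁻¹ (g x) = x := g.symm_apply_apply x
    rwa [h2] at h1
  · rw [mem_sqI_N, mem_sqI_N]
    exact and_congr (hg x) (perp_iff_of_stI I hg x)

end

end Pool.Agent.ZI
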