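import Pool.Agent.Lib.MP_8f66f0_al_ZI.IdlA

/-! The kernel of the action of the stabilizer of a right ideal on the subquotient is elementary
amenable. -/

set_option autoImplicit false

namespace Pool.Agent.ZI

open Pool.Agent.WhVan

/-- A group which acts through a commutative group is an extension. -/
theorem ea_act {G Q : Type} [Group G] [Group Q] (f : G →* Q)
    (hc : ∀ g h : G, f (g * h) = f (h * g)) (h1 : EA f.ker) : EA G := by
  refine ea_extHom f.rangeRestrict ?_ (EA.ab ?_)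
  · rw [MonoidHom.ker_rangeRestrict]
    exact h1
  · rintro ⟨_, g, rfl⟩ ⟨_, h, rfl⟩
    refine Subtype.ext ?_
    change f g * f h = f h * f g
    rw [← map_mul, ← map_mul, hc]

/-- A group of automorphisms which acts trivially on `N`, `A / N` and `B / A`. -/
theorem ea_uni {B : Type} [Ring B] [Algebra ℚ B] (G : Subgroup (B ≃ₐ[ℚ] B)) (A N : Set B)
    (h1 : ∀ g ∈ G, ∀ x ∈ N, g x = x) (h2 : ∀ g ∈ G, ∀ x ∈ A, g x - x ∈ N)
    (h3 : ∀ g ∈ G, ∀ x, g x - x ∈ A) : EA G := by
  let f : G →* Multiplicative (A → B) :=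
    { toFun := fun g => Multiplicative.ofAdd fun x => g.1 x.1 - x.1
      map_one' := by
        refine Multiplicative.toAdd.injective (funext fun x => ?_)
        exact sub_self _
      map_mul' := fun g h => by
        refine Multiplicative.toAdd.injective (funext fun x => ?_)
        change g.1 (h.1 x.1) - x.1 = (g.1 x.1 - x.1) + (h.1 x.1 - x.1)
        have e := h1 g.1 g.2 _ (h2 h.1 h.2 x.1 x.2)
        rw [map_sub, sub_eq_iff_eq_add] at e
        rw [e]
        abel }
  have hf : ∀ g : f.ker, ∀ x ∈ A, g.1.1 x = x := by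
    intro g x hx
    have e := congrFun (congrArg Multiplicative.toAdd (MonoidHom.mem_ker.1 g.2)) ⟨x, hx⟩
    exact sub_eq_zero.1 e
  refine ea_extHom f ?_ (EA.ab fun x y => mul_comm x y)
  let f' : f.ker →* Multiplicative (B → B) :=
    { toFun := fun g => Multiplicative.ofAdd fun x => g.1.1 x - x
      map_one' := by
        refine Multiplicative.toAdd.injective (funext fun x => ?_)
        exact sub_self _
      map_mul' := fun g h => by
        refine Multiplicative.toAdd.injective (funext fun x => ?_)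
        change g.1.1 (h.1.1 x) - x = (g.1.1 x - x) + (h.1.1 x - x)
        have e := hf g _ (h3 h.1.1 h.1.2 x)
        rw [map_sub, sub_eq_iff_eq_add] at e
        rw [e]
        abel }
  refine EA.sub f' ?_ (EA.ab fun x y => mul_comm x y)
  intro g h hgh
  refine Subtype.ext (Subtype.ext (AlgEquiv.ext fun x => ?_))
  have e := congrFun (congrArg Multiplicative.toAdd hgh) x
  exact sub_left_injective e

section

variable {B : Type} [Ring B] [Algebra ℚ B] [Module.Finite ℚ B] (hnd : ND ℚ B)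
  (I : Submodule ℚ B) (hI : ∀ x ∈ I, ∀ y : B, x * y ∈ I)

/-- The kernel. -/
def kI : Subgroup (B ≃ₐ[ℚ] B) where
  carrier := {g | g ∈ stI I ∧ ∀ x ∈ I ⊔ perp I, g x - x ∈ I ⊓ perp I}
  one_mem' := ⟨(stI I).one_mem, fun x _ => by
    change x - x ∈ _
    rw [sub_self]
    exact Submodule.zero_mem _⟩
  mul_mem' := fun {a b} ha hb => ⟨(stI I).mul_mem ha.1 hb.1, fun x hx => by
    have h1 : a (b x) - x = (a (b x) - b x) + (b x - x) := by abel
    change a (b x) - x ∈ _
    rw [h1]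
    exact Submodule.add_mem _ (ha.2 _ (sup_of_stI I hb.1 hx)) (hb.2 x hx)⟩
  inv_mem' := fun {a} ha => ⟨(stI I).inv_mem ha.1, fun x hx => by
    have h1 : a (a⁻¹ x) = x := a.apply_symm_apply x
    have h2 := ha.2 (a⁻¹ x) (sup_of_stI I ((stI I).inv_mem ha.1) hx)
    rw [h1] at h2
    have h3 := Submodule.neg_mem _ h2
    rwa [neg_sub] at h3⟩

omit [Module.Finite ℚ B] in
theorem kI_N {g : B ≃ₐ[ℚ] B} (hg : g ∈ kI I) {x : B} (hx : x ∈ I ⊓ perp I) :
    g x ∈ I ⊓ perp I :=
  ⟨(hg.1 x).2 hx.1, perp_of_stI I hg.1 hx.2⟩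

include hnd hI in
omit [Module.Finite ℚ B] in
theorem kI_star {g : B ≃ₐ[ℚ] B} (hg : g ∈ kI I) {x x' : B} (hx : x ∈ I ⊓ perp I)
    (hx' : x' ∈ I ⊓ perp I) (y : B) : g x * (y * x') = x * (y * g x') := by
  have hN : ∀ a ∈ I ⊓ perp I, ∀ b ∈ I ⊓ perp I, a * b = 0 := fun a ha b hb =>
    (mem_perp_iff hnd I hI a).1 ha.2 b hb.1
  have h1 : y * x' ∈ I ⊔ perp I := by
    refine Submodule.mem_sup_right ?_
    rw [mem_perp_iff hnd I hI]
    intro z hz
    rw [mul_assoc, (mem_perp_iff hnd I hI x').1 hx'.2 z hz, mul_zero]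
  have h2 := hN _ (kI_N I hg hx) _ (hg.2 _ h1)
  have h3 := hN _ (hg.2 _ (Submodule.mem_sup_left (hI x hx.1 y))) _ (kI_N I hg hx')
  rw [mul_sub, sub_eq_zero] at h2
  rw [sub_mul, sub_eq_zero] at h3
  rw [← h2, ← map_mul, ← mul_assoc, map_mul, h3, mul_assoc]

include hnd hI in
omit [Module.Finite ℚ B] in
theorem kI_comm {g h : B ≃ₐ[ℚ] B} (hg : g ∈ kI I) (hh : h ∈ kI I) {x : B}
    (hx : x ∈ I ⊓ perp I) : h (g x) = g (h x) := by
  have key : ∀ x' ∈ I ⊓ perp I, ∀ y, h (g x) * (y * x') = g (h x) * (y * x') := by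
    intro x' hx' y
    have h1 := kI_star hnd I hI hh (kI_N I hg hx) hx' y
    have h2 := kI_star hnd I hI hg hx (kI_N I hh hx') y
    have h3 : (g * h) x * (y * x') = x * (y * (g * h) x') :=
      kI_star hnd I hI ((kI I).mul_mem hg hh) hx hx' y
    rw [h1, h2]
    exact h3.symm
  rw [← sub_eq_zero]
  refine hnd _ fun y => tr_nil ⟨2, ?_⟩
  have hw : h (g x) - g (h x) ∈ I ⊓ perp I :=
    Submodule.sub_mem _ (kI_N I hh (kI_N I hg hx)) (kI_N I hg (kI_N I hh hx))
  have h4 : (h (g x) - g (h x)) * (y * (h (g x) - g (h x))) = 0 := by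
    rw [sub_mul, key _ hw y, sub_self]
  rw [pow_two, ← mul_assoc, mul_assoc _ y, h4, zero_mul]

/-- The action on `N`. -/
def kIact : kI I →* Equiv.Perm {x : B // x ∈ I ⊓ perp I} where
  toFun g :=
    { toFun := fun x => ⟨g.1 x.1, kI_N I g.2 x.2⟩
      invFun := fun x => ⟨g.1⁻¹ x.1, kI_N I ((kI I).inv_mem g.2) x.2⟩
      left_inv := fun x => Subtype.ext (g.1.symm_apply_apply x.1)
      right_inv := fun x => Subtype.ext (g.1.apply_symm_apply x.1) }
  map_one' := rfl
  map_mul' _ _ := rfl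

include hnd hI in
theorem ea_kI : EA (kI I) := by
  refine ea_act (kIact I) (fun g h => ?_) ?_
  · refine Equiv.ext fun x => Subtype.ext ?_
    exact (kI_comm hnd I hI h.2 g.2 x.2)
  · have h1 : EA ((kIact I).ker.map (kI I).subtype) := by
      refine ea_uni _ {x | x ∈ I ⊔ perp I} {x | x ∈ I ⊓ perp I} ?_ ?_ ?_
      · rintro _ ⟨g, hg, rfl⟩ x hx
        exact congrArg Subtype.val (Equiv.ext_iff.1 (MonoidHom.mem_ker.1 hg) ⟨x, hx⟩)
      · rintro _ ⟨g, hg, rfl⟩ x hx
        exact g.2.2 x hx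
      · rintro _ ⟨g, hg, rfl⟩ x
        have h2 := aut_sub_mem_perp g.1 (V := I ⊓ perp I) (fun v hv =>
          congrArg Subtype.val (Equiv.ext_iff.1 (MonoidHom.mem_ker.1 hg) ⟨v, hv⟩)) x
        rwa [perp_inf hnd, perp_perp hnd, sup_comm] at h2
    refine EA.sub ((kI I).subtype.subgroupMap (kIact I).ker) ?_ h1
    intro a b hab
    have h3 := Subtype.ext_iff.1 hab
    exact Subtype.ext (Subtype.ext h3)

end

end Pool.Agent.ZI
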