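import Pool.Agent.Lib.MP_8f66f0_al_ZI.SQ

/-! The fixed algebra of a semisimple automorphism. -/

set_option autoImplicit false

namespace Pool.Agent.ZI

section

variable {B : Type} [Ring B] [Algebra ℚ B] [Module.Finite ℚ B] (hnd : ND ℚ B)
  (δ : B ≃ₐ[ℚ] B) (hδ : Module.End.IsSemisimple (δ.toLinearMap : Module.End ℚ B))

include hδ in
theorem fix_decomp (b : B) : ∃ k z : B, δ k = k ∧ b = k + (δ z - z) := by
  let T0 : B →ₗ[ℚ] B := δ.toLinearMap - LinearMap.id
  have hT0 : ∀ x, T0 x = δ x - x := fun _ => rfl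
  have hk0 : ∀ x, x ∈ LinearMap.ker T0 ↔ δ x = x := fun x => by
    rw [LinearMap.mem_ker, hT0, sub_eq_zero]
  obtain ⟨q, hq, hc⟩ := Module.End.isSemisimple_iff.1 hδ (LinearMap.ker T0) (by
    intro x hx
    change δ x ∈ LinearMap.ker T0
    rw [(hk0 x).1 hx]
    exact hx)
  have h1 : b ∈ LinearMap.ker T0 ⊔ q := by
    rw [hc.sup_eq_top]
    exact Submodule.mem_top
  obtain ⟨k, hk, c, hcq, rfl⟩ := Submodule.mem_sup.1 h1
  let T : q →ₗ[ℚ] q := (T0.comp q.subtype).codRestrict q fun x => by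
    change δ x.1 - x.1 ∈ q
    exact Submodule.sub_mem _ (hq x.2) x.2
  have hT : Function.Injective T := by
    rw [← LinearMap.ker_eq_bot, eq_bot_iff]
    intro x hx
    have h2 : T0 x.1 = 0 := congrArg Subtype.val (LinearMap.mem_ker.1 hx)
    have h3 : x.1 ∈ LinearMap.ker T0 ⊓ q := ⟨h2, x.2⟩
    rw [hc.inf_eq_bot] at h3
    exact Subtype.ext h3
  obtain ⟨z, hz⟩ := (LinearMap.injective_iff_surjective.1 hT) ⟨c, hcq⟩
  refine ⟨k, z.1, (hk0 k).1 hk, ?_⟩
  have h4 : δ z.1 - z.1 = c := congrArg Subtype.val hz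
  rw [h4]

/-- The subquotient. -/
noncomputable def sqD : SQ B where
  A :=
    { carrier := {x | δ x = x}
      mul_mem' := fun {a b} ha hb => by
        change δ (a * b) = a * b
        rw [map_mul, ha, hb]
      add_mem' := fun {a b} ha hb => by
        change δ (a + b) = a + b
        rw [map_add, ha, hb]
      algebraMap_mem' := fun r => AlgEquiv.commutes δ r }
  N := ⊥
  le := fun x hx => by
    rw [(Submodule.mem_bot ℚ).1 hx]
    exact Subalgebra.zero_mem _
  left := fun a _ n hn => by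
    rw [(Submodule.mem_bot ℚ).1 hn, mul_zero]
    exact Submodule.zero_mem _
  right := fun a _ n hn => by
    rw [(Submodule.mem_bot ℚ).1 hn, zero_mul]
    exact Submodule.zero_mem _
  sq := fun n hn n' _ => by rw [(Submodule.mem_bot ℚ).1 hn, zero_mul]
  rad := by
    intro x hx h
    change δ x = x at hx
    rw [Submodule.mem_bot]
    refine hnd x fun b => ?_
    obtain ⟨k, z, hk, rfl⟩ := fix_decomp δ hδ b
    have h1 : tr ℚ (x * (δ z - z)) = 0 := by
      have h2 : tr ℚ (x * δ z) = tr ℚ (x * z) := by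
        conv_lhs => rw [← hx, ← map_mul, tr_aut]
      rw [mul_sub, map_sub, h2, sub_self]
    rw [mul_add, map_add, h k hk, h1, add_zero]

theorem mem_sqD_A (x : B) : x ∈ (sqD hnd δ hδ).A ↔ δ x = x := Iff.rfl

theorem mem_sqD_N (x : B) : x ∈ (sqD hnd δ hδ).N ↔ x = 0 := Submodule.mem_bot ℚ

theorem sqD_lt (h : δ ≠ 1) :
    Module.finrank ℚ (sqD hnd δ hδ).Q < Module.finrank ℚ B := by
  have h1 := (sqD hnd δ hδ).finrank_add
  have h2 : Module.finrank ℚ (sqD hnd δ hδ).A < Module.finrank ℚ B := by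
    refine Submodule.finrank_lt (s := Subalgebra.toSubmodule (sqD hnd δ hδ).A) ?_
    intro h3
    refine h (AlgEquiv.ext fun x => ?_)
    have h4 : x ∈ Subalgebra.toSubmodule (sqD hnd δ hδ).A := by
      rw [h3]
      exact Submodule.mem_top
    exact h4
  omega

theorem cent_le (g : B ≃ₐ[ℚ] B) (hg : g * δ = δ * g) : g ∈ (sqD hnd δ hδ).stab := by
  have h1 : ∀ x, g (δ x) = δ (g x) := fun x => congrArg (fun f : B ≃ₐ[ℚ] B => f x) hg
  refine ⟨fun x => ?_, fun x => ?_⟩
  · rw [mem_sqD_A, mem_sqD_A, ← h1]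
    exact g.injective.eq_iff
  · rw [mem_sqD_N, mem_sqD_N]
    exact map_eq_zero_iff g g.injective

end

end Pool.Agent.ZI
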