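import Pool.Agent.Lib.MP_8f66f0_al_ZI.NrmC

/-! Automorphisms of a rational algebra which commute with a semisimple automorphism `δ` and are
trivial on its fixed algebra commute. -/

set_option autoImplicit false

namespace Pool.Agent.ZI

open scoped TensorProduct

section

variable {B : Type} [Ring B] [Algebra ℚ B]

theorem tr_tmul (K : Type) [Field K] [Algebra ℚ K] [Module.Finite ℚ B] (c : K) (b : B) :
    tr K (c ⊗ₜ[ℚ] b) = c * algebraMap ℚ K (tr ℚ b) := by
  have h : Algebra.lmul K (K ⊗[ℚ] B) (c ⊗ₜ[ℚ] b) =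
      c • (Algebra.lmul ℚ B b).baseChange K := by
    refine LinearMap.ext fun z => ?_
    induction z using TensorProduct.induction_on with
    | zero => rw [map_zero, map_zero]
    | tmul d y =>
      change (c ⊗ₜ[ℚ] b) * (d ⊗ₜ[ℚ] y) = c • (d ⊗ₜ[ℚ] (b * y))
      rw [Algebra.TensorProduct.tmul_mul_tmul, TensorProduct.smul_tmul', smul_eq_mul]
    | add z w hz hw => rw [map_add, map_add, hz, hw]
  rw [tr_apply, h, map_smul, LinearMap.trace_baseChange, smul_eq_mul]
  rfl

theorem nd_baseChange (K : Type) [Field K] [Algebra ℚ K] [Module.Finite ℚ B] (hnd : ND ℚ B) :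
    ND K (K ⊗[ℚ] B) := by
  classical
  intro x hx
  let b := Module.finBasis ℚ B
  let b' := LinearMap.BilinForm.dualBasis (tf ℚ B) (tf_nd hnd) b
  have hb : ∀ i j, tr ℚ (b j * b' i) = if j = i then 1 else 0 := fun i j => by
    rw [tr_comm]
    exact LinearMap.BilinForm.apply_dualBasis_left (tf_nd hnd) b i j
  let bK := b.baseChange K
  have h1 : ∀ i, bK.repr x i = 0 := by
    intro i
    have h2 := hx (1 ⊗ₜ[ℚ] b' i)
    rw [← bK.sum_repr x, Finset.sum_mul, map_sum] at h2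
    have h3 : ∀ j, tr K ((bK.repr x j • bK j) * (1 ⊗ₜ[ℚ] b' i)) =
        if j = i then bK.repr x j else 0 := by
      intro j
      have h4 : bK j = 1 ⊗ₜ[ℚ] b j := Module.Basis.baseChange_apply K b j
      rw [smul_mul_assoc, map_smul, h4, Algebra.TensorProduct.tmul_mul_tmul, tr_tmul, hb i j]
      split_ifs <;> simp
    rw [Finset.sum_congr rfl fun j _ => h3 j] at h2
    simpa using h2
  have h5 : bK.repr x = 0 := Finsupp.ext h1
  exact (LinearEquiv.map_eq_zero_iff bK.repr).1 h5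

/-- The extension of an automorphism. -/
noncomputable def cg (g : B ≃ₐ[ℚ] B) : (ℂ ⊗[ℚ] B) ≃ₐ[ℂ] (ℂ ⊗[ℚ] B) :=
  Algebra.TensorProduct.congr AlgEquiv.refl g

theorem cg_tmul (g : B ≃ₐ[ℚ] B) (c : ℂ) (b : B) : cg g (c ⊗ₜ[ℚ] b) = c ⊗ₜ[ℚ] g b := rfl

theorem cg_toLinearMap (g : B ≃ₐ[ℚ] B) :
    (cg g).toLinearMap = (g.toLinearMap : Module.End ℚ B).baseChange ℂ := by
  refine LinearMap.ext fun z => ?_
  induction z using TensorProduct.induction_on with
  | zero => rw [map_zero, map_zero]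
  | tmul d y => rfl
  | add z w hz hw => rw [map_add, map_add, hz, hw]

theorem cg_iSup [Module.Finite ℚ B] (δ : B ≃ₐ[ℚ] B)
    (hδ : Module.End.IsSemisimple (δ.toLinearMap : Module.End ℚ B)) :
    ⨆ μ : ℂ, Module.End.eigenspace ((cg δ).toLinearMap : Module.End ℂ (ℂ ⊗[ℚ] B)) μ = ⊤ := by
  have h1 : Squarefree (minpoly ℚ (δ.toLinearMap : Module.End ℚ B)) := hδ.minpoly_squarefree
  have h2 : Squarefree ((minpoly ℚ (δ.toLinearMap : Module.End ℚ B)).map (algebraMap ℚ ℂ)) :=
    ((PerfectField.separable_iff_squarefree.2 h1).map (f := algebraMap ℚ ℂ)).squarefree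
  have h3 : Polynomial.aeval ((cg δ).toLinearMap : Module.End ℂ (ℂ ⊗[ℚ] B))
      ((minpoly ℚ (δ.toLinearMap : Module.End ℚ B)).map (algebraMap ℚ ℂ)) = 0 := by
    rw [Polynomial.aeval_map_algebraMap, cg_toLinearMap]
    have h4 := Polynomial.aeval_algHom_apply (Module.End.baseChangeHom ℚ ℂ B)
      (δ.toLinearMap : Module.End ℚ B) (minpoly ℚ (δ.toLinearMap : Module.End ℚ B))
    rw [minpoly.aeval, map_zero] at h4
    exact h4
  have h5 : Module.End.IsSemisimple ((cg δ).toLinearMap : Module.End ℂ (ℂ ⊗[ℚ] B)) :=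
    Module.End.isSemisimple_of_squarefree_aeval_eq_zero h2 h3
  rw [← Module.End.iSup_maxGenEigenspace_eq_top ((cg δ).toLinearMap : Module.End ℂ (ℂ ⊗[ℚ] B))]
  refine iSup_congr fun μ => ?_
  exact (h5.isFinitelySemisimple.maxGenEigenspace_eq_eigenspace μ).symm

theorem cg_mem_kD {δ g : B ≃ₐ[ℚ] B} (hg : g ∈ kD δ) : cg g ∈ kD (cg δ) := by
  refine ⟨fun z => ?_, fun z hz => ?_⟩
  · induction z using TensorProduct.induction_on with
    | zero => simp only [map_zero]
    | tmul d y => rw [cg_tmul, cg_tmul, cg_tmul, cg_tmul, hg.1]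
    | add z w hz hw => rw [map_add, map_add, map_add, map_add, hz, hw]
  · let T : B →ₗ[ℚ] B := δ.toLinearMap - LinearMap.id
    have h2 : ∀ w : ℂ ⊗[ℚ] B,
        TensorProduct.AlgebraTensorModule.lTensor ℂ ℂ T w = cg δ w - w := by
      intro w
      induction w using TensorProduct.induction_on with
      | zero => simp only [map_zero, sub_zero]
      | tmul d y =>
        change d ⊗ₜ[ℚ] (δ y - y) = d ⊗ₜ[ℚ] δ y - d ⊗ₜ[ℚ] y
        rw [TensorProduct.tmul_sub]
      | add z w hz hw =>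
        rw [map_add, map_add, hz, hw]
        abel
    have h1 : z ∈ LinearMap.ker (TensorProduct.AlgebraTensorModule.lTensor ℂ ℂ T) := by
      rw [LinearMap.mem_ker, h2, hz, sub_self]
    rw [Module.Flat.ker_lTensor_eq] at h1
    obtain ⟨w, rfl⟩ := h1
    have h3 : ∀ w : ℂ ⊗[ℚ] (LinearMap.ker T),
        cg g (TensorProduct.AlgebraTensorModule.lTensor ℂ ℂ (LinearMap.ker T).subtype w) =
          TensorProduct.AlgebraTensorModule.lTensor ℂ ℂ (LinearMap.ker T).subtype w := by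
      intro w
      induction w using TensorProduct.induction_on with
      | zero => simp only [map_zero]
      | tmul d y =>
        have h2 : T y.1 = 0 := y.2
        have h3 : δ y.1 = y.1 := sub_eq_zero.1 h2
        change cg g (d ⊗ₜ[ℚ] y.1) = d ⊗ₜ[ℚ] y.1
        rw [cg_tmul, hg.2 _ h3]
      | add z w hz hw => rw [map_add, map_add, hz, hw]
    exact h3 w

theorem kD_comm_rat [Module.Finite ℚ B] (hnd : ND ℚ B) (δ : B ≃ₐ[ℚ] B)
    (hδ : Module.End.IsSemisimple (δ.toLinearMap : Module.End ℚ B)) {g h : B ≃ₐ[ℚ] B}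
    (hg : g ∈ kD δ) (hh : h ∈ kD δ) (x : B) : h (g x) = g (h x) := by
  have h1 := kD_comm (nd_baseChange ℂ hnd) (cg δ) (cg_mem_kD hg) (cg_mem_kD hh) (cg_iSup δ hδ)
    (1 ⊗ₜ[ℚ] x)
  rw [cg_tmul, cg_tmul, cg_tmul, cg_tmul] at h1
  exact Algebra.TensorProduct.includeRight_injective (R := ℚ) (A := ℂ) (B := B)
    (algebraMap ℚ ℂ).injective h1

end

end Pool.Agent.ZI
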