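import Pool.Agent.Lib.MP_8f66f0_al_ZI.Tr

/-! Automorphisms which commute with a diagonalizable automorphism `δ` and are trivial on its fixed
algebra commute. -/

set_option autoImplicit false

namespace Pool.Agent.ZI

section

variable {K C : Type} [Field K] [Ring C] [Algebra K C] (hnd : ND K C) (δ : C ≃ₐ[K] C)

/-- The automorphisms which commute with `δ` and are trivial on its fixed algebra. -/
def kD : Subgroup (C ≃ₐ[K] C) where
  carrier := {g | (∀ x, g (δ x) = δ (g x)) ∧ ∀ x, δ x = x → g x = x}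
  one_mem' := ⟨fun _ => rfl, fun _ _ => rfl⟩
  mul_mem' := fun {a b} ha hb => ⟨fun x => by
    change a (b (δ x)) = δ (a (b x))
    rw [hb.1, ha.1], fun x hx => by
    change a (b x) = x
    rw [hb.2 x hx, ha.2 x hx]⟩
  inv_mem' := fun {a} ha => by
    have h1 : ∀ x, a (a⁻¹ x) = x := fun x => a.apply_symm_apply x
    refine ⟨fun x => a.injective ?_, fun x hx => a.injective ?_⟩
    · rw [h1, ha.1, h1]
    · rw [h1, ha.2 x hx]

theorem kD_star {g : C ≃ₐ[K] C} (hg : g ∈ kD δ) {l m : K} (hlm : l * m = 1) {x x' y : C}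
    (hx : δ x = l • x) (hx' : δ x' = l • x') (hy : δ y = m • y) :
    g x * (y * x') = x * (y * g x') := by
  have h1 : δ (y * x') = y * x' := by
    rw [map_mul, hy, hx', smul_mul_smul_comm, mul_comm m l, hlm, one_smul]
  have h2 : δ (x * y) = x * y := by
    rw [map_mul, hx, hy, smul_mul_smul_comm, hlm, one_smul]
  rw [← hg.2 _ h1, ← map_mul, ← mul_assoc, map_mul, hg.2 _ h2, mul_assoc]

include hnd in
theorem kD_comm_eig {g h : C ≃ₐ[K] C} (hg : g ∈ kD δ) (hh : h ∈ kD δ)
    (hs : ⨆ μ : K, Module.End.eigenspace (δ.toLinearMap : Module.End K C) μ = ⊤) {l : K} {x : C}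
    (hx : δ x = l • x) : h (g x) = g (h x) := by
  have hE : ∀ {f : C ≃ₐ[K] C}, f ∈ kD δ → ∀ {z : C}, δ z = l • z → δ (f z) = l • f z := by
    intro f hf z hz
    rw [← hf.1, hz, map_smul]
  rw [← sub_eq_zero]
  refine hnd _ fun y => ?_
  have hw : δ (h (g x) - g (h x)) = l • (h (g x) - g (h x)) := by
    rw [map_sub, hE hh (hE hg hx), hE hg (hE hh hx), smul_sub]
  have hy : y ∈ ⨆ μ : K, Module.End.eigenspace (δ.toLinearMap : Module.End K C) μ := by
    rw [hs]
    exact Submodule.mem_top
  induction hy using Submodule.iSup_induction' with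
  | mem m y hy =>
    have hy' : δ y = m • y := Module.End.mem_eigenspace_iff.1 hy
    by_cases hlm : l * m = 1
    · refine tr_nil ⟨2, ?_⟩
      have key : ∀ x', δ x' = l • x' → h (g x) * (y * x') = g (h x) * (y * x') := by
        intro x' hx'
        have h1 := kD_star δ hh hlm (hE hg hx) hx' hy'
        have h2 := kD_star δ hg hlm hx (hE hh hx') hy'
        have h3 : (g * h) x * (y * x') = x * (y * (g * h) x') :=
          kD_star δ ((kD δ).mul_mem hg hh) hlm hx hx' hy'
        rw [h1, h2]
        exact h3.symm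
      have h4 : (h (g x) - g (h x)) * (y * (h (g x) - g (h x))) = 0 := by
        rw [sub_mul, key _ hw, sub_self]
      rw [pow_two, ← mul_assoc, mul_assoc _ y, h4, zero_mul]
    · have h5 := tr_aut δ ((h (g x) - g (h x)) * y)
      rw [map_mul, hw, hy', smul_mul_smul_comm, map_smul, smul_eq_mul] at h5
      have h6 : (l * m - 1) * tr K ((h (g x) - g (h x)) * y) = 0 := by
        rw [sub_mul, h5, one_mul, sub_self]
      exact (mul_eq_zero.1 h6).resolve_left (sub_ne_zero.2 hlm)
  | zero => rw [mul_zero, map_zero]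
  | add a b _ _ ha hb => rw [mul_add, map_add, ha, hb, add_zero]

include hnd in
theorem kD_comm {g h : C ≃ₐ[K] C} (hg : g ∈ kD δ) (hh : h ∈ kD δ)
    (hs : ⨆ μ : K, Module.End.eigenspace (δ.toLinearMap : Module.End K C) μ = ⊤) (x : C) :
    h (g x) = g (h x) := by
  have hx : x ∈ ⨆ μ : K, Module.End.eigenspace (δ.toLinearMap : Module.End K C) μ := by
    rw [hs]
    exact Submodule.mem_top
  induction hx using Submodule.iSup_induction' with
  | mem l x hx => exact kD_comm_eig hnd δ hg hh hs (Module.End.mem_eigenspace_iff.1 hx)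
  | zero => simp only [map_zero]
  | add a b _ _ ha hb => rw [map_add, map_add, map_add, map_add, ha, hb]

end

end Pool.Agent.ZI
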