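import Pool.Agent.Lib.MP_8f66f0_al_ZI.Tr

/-! Subquotients of an algebra with nondegenerate trace form. -/

set_option autoImplicit false

namespace Pool.Agent.ZI

/-- A subalgebra `A` with an ideal `N` of square zero, which is the radical of the trace form
of `B` on `A`. -/
structure SQ (B : Type) [Ring B] [Algebra ℚ B] where
  /-- the subalgebra -/
  A : Subalgebra ℚ B
  /-- the ideal -/
  N : Submodule ℚ B
  le : ∀ x ∈ N, x ∈ A
  left : ∀ a ∈ A, ∀ n ∈ N, a * n ∈ N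
  right : ∀ a ∈ A, ∀ n ∈ N, n * a ∈ N
  sq : ∀ n ∈ N, ∀ n' ∈ N, n * n' = 0
  rad : ∀ x ∈ A, (∀ y ∈ A, tr ℚ (x * y) = 0) → x ∈ N

namespace SQ

variable {B : Type} [Ring B] [Algebra ℚ B] (S : SQ B)

/-- The ideal. -/
def J : Ideal S.A where
  carrier := {x | (x : B) ∈ S.N}
  zero_mem' := S.N.zero_mem
  add_mem' := fun ha hb => S.N.add_mem ha hb
  smul_mem' := fun c x hx => S.left c c.2 x hx

instance : S.J.IsTwoSided := ⟨fun b hx => S.right b b.2 _ hx⟩

theorem mem_J (x : S.A) : x ∈ S.J ↔ (x : B) ∈ S.N := Iff.rfl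

/-- The quotient. -/
abbrev Q : Type := S.A ⧸ S.J

/-- The projection. -/
def π : S.A →ₐ[ℚ] S.Q := Ideal.Quotient.mkₐ ℚ S.J

theorem π_surj : Function.Surjective S.π := Ideal.Quotient.mkₐ_surjective ℚ S.J

theorem π_eq_zero (x : S.A) : S.π x = 0 ↔ (x : B) ∈ S.N := Ideal.Quotient.eq_zero_iff_mem

theorem π_eq (x y : S.A) : S.π x = S.π y ↔ (x : B) - y ∈ S.N := by
  rw [← sub_eq_zero, ← map_sub, S.π_eq_zero]
  rfl

theorem isNilpotent_of_π {x : S.A} (h : IsNilpotent (S.π x)) : IsNilpotent (x : B) := by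
  obtain ⟨n, hn⟩ := h
  rw [← map_pow, S.π_eq_zero] at hn
  refine ⟨n * 2, ?_⟩
  rw [pow_mul, pow_two]
  exact S.sq _ hn _ hn

/-- The trace of `B` on the quotient. -/
noncomputable def τ : S.Q →ₗ[ℚ] ℚ :=
  ((LinearMap.ker S.π.toLinearMap).liftQ ((tr ℚ).comp S.A.val.toLinearMap) (by
    intro x hx
    rw [LinearMap.mem_ker] at hx ⊢
    have h1 : (x : B) ∈ S.N := (S.π_eq_zero x).1 hx
    exact tr_nil ⟨2, by rw [pow_two]; exact S.sq _ h1 _ h1⟩)).comp
    (S.π.toLinearMap.quotKerEquivOfSurjective S.π_surj).symm.toLinearMap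

theorem τ_π (x : S.A) : S.τ (S.π x) = tr ℚ (x : B) := by
  have h : (S.π.toLinearMap.quotKerEquivOfSurjective S.π_surj).symm (S.π x) =
      Submodule.Quotient.mk x := by
    rw [LinearEquiv.symm_apply_eq]
    rfl
  rw [τ, LinearMap.comp_apply]
  change ((LinearMap.ker S.π.toLinearMap).liftQ _ _)
    ((S.π.toLinearMap.quotKerEquivOfSurjective S.π_surj).symm (S.π x)) = _
  rw [h, Submodule.liftQ_apply]
  rfl

theorem finite [Module.Finite ℚ B] : Module.Finite ℚ S.Q :=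
  Module.Finite.of_surjective S.π.toLinearMap S.π_surj

theorem nd [Module.Finite ℚ B] : ND ℚ S.Q := by
  have := S.finite
  refine nd_of_tau S.τ ?_ ?_
  · intro x hx
    obtain ⟨x, rfl⟩ := S.π_surj x
    rw [τ_π]
    exact tr_nil (S.isNilpotent_of_π hx)
  · intro x hx
    obtain ⟨x, rfl⟩ := S.π_surj x
    rw [S.π_eq_zero]
    refine S.rad x x.2 fun y hy => ?_
    have := hx (S.π ⟨y, hy⟩)
    rw [← map_mul, τ_π] at this
    exact this

/-- The order of the quotient. -/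
def ord (O : Subring B) : Subring S.Q := (O.comap S.A.val.toRingHom).map S.π.toRingHom

theorem mem_ord {O : Subring B} {x : S.A} (h : (x : B) ∈ O) : S.π x ∈ S.ord O := ⟨x, h, rfl⟩

theorem fg_comap {M M' : Type} [AddCommGroup M] [AddCommGroup M'] (j : M' →+ M)
    (hj : Function.Injective j) (T : AddSubgroup M) (hT : T.FG) : (T.comap j).FG := by
  have h1 : Module.Finite ℤ T :=
    Module.Finite.iff_addGroup_fg.2 ((AddGroup.fg_iff_addSubgroup_fg T).2 hT)
  let j' : T.comap j →+ T := (j.comp (T.comap j).subtype).codRestrict T fun x => x.2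
  have h2 : Function.Injective j' := fun x y hxy =>
    Subtype.ext (hj (congrArg (fun z : T => (z : M)) hxy))
  have h3 : Module.Finite ℤ (T.comap j) :=
    Module.Finite.of_injective j'.toIntLinearMap h2
  exact (AddGroup.fg_iff_addSubgroup_fg _).1 (Module.Finite.iff_addGroup_fg.1 h3)

theorem ord_ord {O : Subring B} (h : Ord B O) : Ord S.Q (S.ord O) where
  fin := by
    have := h.fin
    exact S.finite
  nd := by
    have := h.fin
    exact S.nd
  fg := by
    have h1 := fg_comap (S.A.val.toRingHom : S.A →+ B) Subtype.val_injective O.toAddSubgroup h.fg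
    rw [AddSubgroup.fg_iff_addSubmonoid_fg] at h1 ⊢
    exact h1.map (S.π.toRingHom : S.A →+ S.Q)
  span x := by
    obtain ⟨x, rfl⟩ := S.π_surj x
    obtain ⟨n, hn, h1⟩ := h.span x
    refine ⟨n, hn, ?_⟩
    rw [← map_smul]
    exact S.mem_ord h1

theorem finrank_add [Module.Finite ℚ B] :
    Module.finrank ℚ S.Q + Module.finrank ℚ S.N = Module.finrank ℚ S.A := by
  have h1 := LinearMap.finrank_range_add_finrank_ker S.π.toLinearMap
  rw [LinearMap.range_eq_top.2 S.π_surj, finrank_top] at h1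
  rw [← h1]
  congr 1
  let e : S.N ≃ₗ[ℚ] LinearMap.ker S.π.toLinearMap :=
    { toFun := fun x => ⟨⟨x.1, S.le x.1 x.2⟩, (S.π_eq_zero _).2 x.2⟩
      invFun := fun x => ⟨x.1.1, (S.π_eq_zero _).1 x.2⟩
      left_inv := fun _ => rfl
      right_inv := fun _ => rfl
      map_add' := fun _ _ => rfl
      map_smul' := fun _ _ => rfl }
  exact e.finrank_eq

/-- The automorphisms of `B` which act on the quotient. -/
def stab : Subgroup (B ≃ₐ[ℚ] B) where
  carrier := {g | (∀ x, g x ∈ S.A ↔ x ∈ S.A) ∧ ∀ x, g x ∈ S.N ↔ x ∈ S.N}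
  one_mem' := ⟨fun _ => Iff.rfl, fun _ => Iff.rfl⟩
  mul_mem' := fun {a b} ha hb => ⟨fun x => (ha.1 (b x)).trans (hb.1 x),
    fun x => (ha.2 (b x)).trans (hb.2 x)⟩
  inv_mem' := fun {a} ha => by
    refine ⟨fun x => ?_, fun x => ?_⟩
    · have h1 := ha.1 (a⁻¹ x)
      have h2 : a (a⁻¹ x) = x := a.apply_symm_apply x
      rw [h2] at h1
      exact h1.symm
    · have h1 := ha.2 (a⁻¹ x)
      have h2 : a (a⁻¹ x) = x := a.apply_symm_apply x
      rw [h2] at h1
      exact h1.symm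

/-- The action on the subalgebra. -/
def res (g : S.stab) : S.A →ₐ[ℚ] S.A :=
  ((g : B ≃ₐ[ℚ] B).toAlgHom.comp S.A.val).codRestrict S.A fun x => (g.2.1 x).2 x.2

theorem res_coe (g : S.stab) (x : S.A) : (S.res g x : B) = (g : B ≃ₐ[ℚ] B) x := rfl

/-- The action on the quotient. -/
def actHom (g : S.stab) : S.Q →ₐ[ℚ] S.Q :=
  Ideal.Quotient.liftₐ S.J (S.π.comp (S.res g)) fun a ha => by
    rw [AlgHom.comp_apply, S.π_eq_zero, res_coe]
    exact (g.2.2 a).2 ha

theorem actHom_π (g : S.stab) (x : S.A) : S.actHom g (S.π x) = S.π (S.res g x) := rfl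

theorem actHom_one : S.actHom 1 = AlgHom.id ℚ S.Q := by
  refine AlgHom.ext fun x => ?_
  obtain ⟨x, rfl⟩ := S.π_surj x
  rw [actHom_π]
  rfl

theorem actHom_mul (g h : S.stab) : S.actHom (g * h) = (S.actHom g).comp (S.actHom h) := by
  refine AlgHom.ext fun x => ?_
  obtain ⟨x, rfl⟩ := S.π_surj x
  rw [AlgHom.comp_apply, actHom_π, actHom_π, actHom_π]
  rfl

/-- The action on the quotient. -/
def act : S.stab →* (S.Q ≃ₐ[ℚ] S.Q) where
  toFun g := AlgEquiv.ofAlgHom (S.actHom g) (S.actHom g⁻¹)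
    (by rw [← actHom_mul, mul_inv_cancel, actHom_one])
    (by rw [← actHom_mul, inv_mul_cancel, actHom_one])
  map_one' := by
    refine AlgEquiv.ext fun x => ?_
    exact congrArg (fun f : S.Q →ₐ[ℚ] S.Q => f x) S.actHom_one
  map_mul' g h := by
    refine AlgEquiv.ext fun x => ?_
    exact congrArg (fun f : S.Q →ₐ[ℚ] S.Q => f x) (S.actHom_mul g h)

theorem act_π (g : S.stab) (x : S.A) : S.act g (S.π x) = S.π (S.res g x) := rfl

theorem act_ord (g : S.stab) {O : Subring B} (hg : ∀ x ∈ O, (g : B ≃ₐ[ℚ] B) x ∈ O) :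
    ∀ x ∈ S.ord O, S.act g x ∈ S.ord O := by
  rintro _ ⟨x, hx, rfl⟩
  exact S.mem_ord (x := S.res g x) (hg _ hx)

theorem act_eq_one {g : S.stab} (h : S.act g = 1) (x : B) (hx : x ∈ S.A) :
    (g : B ≃ₐ[ℚ] B) x - x ∈ S.N := by
  have h1 : S.π (S.res g ⟨x, hx⟩) = S.π ⟨x, hx⟩ := by
    rw [← act_π, h]
    rfl
  exact (S.π_eq _ _).1 h1

end SQ

end Pool.Agent.ZI
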