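import Pool.Agent.Lib.MP_8f66f0_al_ZI.IdlK
import Pool.Agent.Lib.MP_8f66f0_al_ZI.NrmA
import Pool.Agent.Lib.MP_8f66f0_al_ZI.NrmB

/-! The induction over the dimension of the algebra. -/

set_option autoImplicit false

namespace Pool.Agent.ZI

open Pool.Agent.WhVan

/-- The centralizer of a semisimple automorphism acts on the fixed algebra with a commutative
kernel. -/
theorem ea_kD {B : Type} [Ring B] [Algebra ℚ B] [Module.Finite ℚ B] (hnd : ND ℚ B)
    (δ : B ≃ₐ[ℚ] B) (hδ : Module.End.IsSemisimple (δ.toLinearMap : Module.End ℚ B)) :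
    EA (kD δ) :=
  EA.ab fun x y => Subtype.ext (AlgEquiv.ext fun b => kD_comm_rat hnd δ hδ y.2 x.2 b)

section

variable {P : (G : Type) → [Group G] → Prop} (hP : ICl P) {Γ B : Type} [Group Γ] [Ring B]
  [Algebra ℚ B] (ρ : Γ →* (B ≃ₐ[ℚ] B)) (S : SQ B) (U : Subgroup Γ)
  (hU : ∀ g ∈ U, ρ g ∈ S.stab)

/-- The action on the quotient. -/
def thQ : U →* (S.Q ≃ₐ[ℚ] S.Q) :=
  S.act.comp ((ρ.comp U.subtype).codRestrict S.stab fun g => hU g.1 g.2)

include hP in
/-- Subgroups which act on the quotient through a finite group. -/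
theorem of_finite_thQ (K : Subgroup (B ≃ₐ[ℚ] B)) (hK : EA K)
    (hKU : ∀ g : U, thQ ρ S U hU g = 1 → ρ g.1 ∈ K)
    (h : ∀ U : Subgroup Γ, Finite (U.map ρ) → P U) (V : Subgroup U)
    (hV : Finite (V.map (thQ ρ S U hU))) : P V := by
  have hR : ∀ g ∈ (V.map U.subtype).map ρ, g ∈ S.stab := by
    rintro _ ⟨_, ⟨v, hv, rfl⟩, rfl⟩
    exact hU v.1 v.2
  have hEA : EA ((V.map U.subtype).map ρ) := by
    let f : (V.map U.subtype).map ρ →* (S.Q ≃ₐ[ℚ] S.Q) :=
      S.act.comp (Subgroup.inclusion hR)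
    refine ea_extHom f.rangeRestrict ?_ (EA.fin ?_)
    · rw [MonoidHom.ker_rangeRestrict]
      let j : f.ker →* K := (((V.map U.subtype).map ρ).subtype.comp f.ker.subtype).codRestrict K
        (by
          rintro ⟨⟨_, _, ⟨v, hv, rfl⟩, rfl⟩, hx⟩
          exact hKU v hx)
      refine EA.sub j ?_ hK
      intro x y hxy
      have h1 := Subtype.ext_iff.1 hxy
      exact Subtype.ext (Subtype.ext h1)
    · have h2 : (f.range : Set (S.Q ≃ₐ[ℚ] S.Q)) ⊆ (V.map (thQ ρ S U hU) : Subgroup _) := by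
        rintro _ ⟨⟨_, _, ⟨v, hv, rfl⟩, rfl⟩, rfl⟩
        exact ⟨v, hv, rfl⟩
      exact Set.Finite.subset (s := ((V.map (thQ ρ S U hU) : Subgroup _) :
        Set (S.Q ≃ₐ[ℚ] S.Q))) hV h2
  have h3 : P (V.map U.subtype) := by
    refine hP.ea (V.map U.subtype) ((V.map U.subtype).map ρ)
      (ρ.subgroupMap (V.map U.subtype)) hEA fun W hW => ?_
    refine hP.iso _ _ (W.equivMapOfInjective (V.map U.subtype).subtype
      (V.map U.subtype).subtype_injective).symm (h _ ?_)
    have hW' : ((W.map (ρ.subgroupMap (V.map U.subtype)) :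
        Subgroup ((V.map U.subtype).map ρ)) : Set ((V.map U.subtype).map ρ)).Finite := hW
    have h4 := hW'.image (fun x : (V.map U.subtype).map ρ => x.1)
    refine Set.Finite.subset h4 ?_
    rintro _ ⟨_, ⟨w, hw, rfl⟩, rfl⟩
    exact ⟨_, ⟨w, hw, rfl⟩, rfl⟩
  exact hP.iso _ _ (V.equivMapOfInjective U.subtype U.subtype_injective).symm h3

end

/-- The induction. -/
theorem ord_of_geo {P : (G : Type) → [Group G] → Prop} (hP : ICl P) (hG : S_Geo P P) :
    S_Ord P := by
  have key : ∀ n : ℕ, ∀ (Γ B : Type) [Group Γ] [Ring B] [Algebra ℚ B] (O : Subring B)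
      (ρ : Γ →* (B ≃ₐ[ℚ] B)), Module.finrank ℚ B = n → Ord B O → (∀ g, ∀ x ∈ O, ρ g x ∈ O) →
      (∀ U : Subgroup Γ, Finite (U.map ρ) → P U) → P Γ := by
    intro n
    induction n using Nat.strong_induction_on with
    | _ n ih =>
      intro Γ B _ _ _ O ρ hn hO hρ h
      have := hO.fin
      refine hG Γ B O ρ hO hρ fun U hU => ?_
      have step : ∀ S : SQ B, Module.finrank ℚ S.Q < n → ∀ (hU : ∀ g ∈ U, ρ g ∈ S.stab)
          (K : Subgroup (B ≃ₐ[ℚ] B)), EA K → (∀ g : U, thQ ρ S U hU g = 1 → ρ g.1 ∈ K) → P U := by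
        intro S hS hU K hK hKU
        refine ih _ hS U S.Q (S.ord O) (thQ ρ S U hU) rfl (S.ord_ord hO) ?_ ?_
        · intro g
          exact S.act_ord _ (hρ g.1)
        · exact of_finite_thQ hP ρ S U hU K hK hKU h
      cases hU with
      | fin hf => exact h U hf
      | idl I hI hst =>
        have hst' : ∀ g ∈ U, ρ g ∈ stI I := by
          intro g hg x
          refine ⟨fun hx => ?_, fun hx => hst g hg x hx⟩
          have h1 := hst g⁻¹ (U.inv_mem hg) _ hx
          have h2 : ρ g⁻¹ (ρ g x) = x := by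
            rw [map_inv]
            exact (ρ g).symm_apply_apply x
          rwa [h2] at h1
        refine step (sqI hO.nd I hI.right) ?_ (fun g hg => stI_le hO.nd I hI.right (hst' g hg))
          (kI I) (ea_kI hO.nd I hI.right) ?_
        · rw [← hn]
          exact sqI_lt hO.nd I hI.right hI.ann
        · intro g hg
          exact ⟨hst' g.1 g.2, fun x hx => SQ.act_eq_one _ hg x hx⟩
      | nrm δ hδ1 hδ hc =>
        refine step (sqD hO.nd δ hδ) ?_ (fun g hg => cent_le hO.nd δ hδ (ρ g) (hc g hg))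
          (kD δ) (ea_kD hO.nd δ hδ) ?_
        · rw [← hn]
          exact sqD_lt hO.nd δ hδ hδ1
        · intro g hg
          refine ⟨fun x => congrArg (fun f : B ≃ₐ[ℚ] B => f x) (hc g.1 g.2), fun x hx => ?_⟩
          have h1 := SQ.act_eq_one _ hg x hx
          rw [mem_sqD_N] at h1
          exact sub_eq_zero.1 h1
  intro Γ B _ _ _ O ρ hO hρ h
  exact key _ Γ B O ρ rfl hO hρ h

end Pool.Agent.ZI
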